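import Mathlib
import Pool.Agent.Lib_helper88.HCR.Defs

/-!
# Project SPR (MP_eb773b_co, sparse range): definitions

`N` a design, `Lm = N Nᵀ - r`, `M = r (k - 1)`, `H` the pseudo-inverse of `M - Lm`. A flag is a pair
`(x, j)` with `0 < N x j`; it has the vectors `un x` and `qf N x j = N_j - un x`.
-/

set_option autoImplicit false

namespace HCR

open Finset Matrix

section SPR

variable {v b : ℕ}

/-- real incidence matrix -/
noncomputable def NR (N : Matrix (Fin v) (Fin b) ℕ) : Matrix (Fin v) (Fin b) ℝ :=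
  N.map (fun x : ℕ => (x : ℝ))

/-- `N Nᵀ - r` -/
noncomputable def Lm (r : ℕ) (N : Matrix (Fin v) (Fin b) ℕ) : Matrix (Fin v) (Fin v) ℝ :=
  NR N * (NR N)ᵀ - (r : ℝ) • (1 : Matrix (Fin v) (Fin v) ℝ)

/-- the unit vector at `x` -/
def un (x : Fin v) : Fin v → ℝ := fun y => if y = x then 1 else 0

/-- block `j` without the treatment `x` -/
def qf (N : Matrix (Fin v) (Fin b) ℕ) (x : Fin v) (j : Fin b) : Fin v → ℝ :=
  fun y => (N y j : ℝ) - if y = x then 1 else 0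

/-- `p · H q` -/
def bf (H : Matrix (Fin v) (Fin v) ℝ) (p q : Fin v → ℝ) : ℝ := p ⬝ᵥ (H *ᵥ q)

/-- the form `⟨a ∧ p, c ∧ d⟩` of the pair `H, H²` -/
def wd (H : Matrix (Fin v) (Fin v) ℝ) (a p c d : Fin v → ℝ) : ℝ :=
  bf H a c * bf (H * H) p d + bf (H * H) a c * bf H p d - bf H a d * bf (H * H) p c -
    bf (H * H) a d * bf H p c

/-- `a_f` -/
def af (H : Matrix (Fin v) (Fin v) ℝ) (N : Matrix (Fin v) (Fin b) ℕ) (x : Fin v) (j : Fin b) : ℝ :=
  bf H (un x) (qf N x j)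

/-- `c_f` -/
def cf (H : Matrix (Fin v) (Fin v) ℝ) (N : Matrix (Fin v) (Fin b) ℕ) (x : Fin v) (j : Fin b) : ℝ :=
  bf (H * H) (un x) (qf N x j)

/-- `Q_f` -/
def Qf (H : Matrix (Fin v) (Fin v) ℝ) (N : Matrix (Fin v) (Fin b) ℕ) (x : Fin v) (j : Fin b) : ℝ :=
  bf H (qf N x j) (qf N x j)

/-- `D_f` -/
def Df (H : Matrix (Fin v) (Fin v) ℝ) (N : Matrix (Fin v) (Fin b) ℕ) (x : Fin v) (j : Fin b) : ℝ :=
  wd H (un x) (qf N x j) (un x) (qf N x j)

/-- `k un x - N_j = (k - 1) un x - qf N x j` -/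
def wf (k : ℕ) (N : Matrix (Fin v) (Fin b) ℕ) (x : Fin v) (j : Fin b) : Fin v → ℝ :=
  fun y => (k : ℝ) * (if y = x then 1 else 0) - (N y j : ℝ)

/-- sum over all flags with multiplicity -/
def fs (N : Matrix (Fin v) (Fin b) ℕ) (g : Fin v → Fin b → ℝ) : ℝ :=
  ∑ w, ∑ l, (N w l : ℝ) * g w l

/-- a design, the pseudo-inverse `H` of `M - Lm`, and the exchange inequality for all pairs of
flags (a consequence of `A`-optimality) -/
structure SD (k r : ℕ) (N : Matrix (Fin v) (Fin b) ℕ) (H : Matrix (Fin v) (Fin v) ℝ) : Prop where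
  des : IsDes k r N
  sym : H.IsSymm
  one : ∀ x, ∑ y, H x y = 0
  inv : ∀ x y, (r : ℝ) * ((k : ℝ) - 1) * H x y - (Lm r N * H) x y =
    (if x = y then (1 : ℝ) else 0) - 1 / (v : ℝ)
  psd : ∀ p : Fin v → ℝ, 0 ≤ bf H p p
  opt : ∀ (x w : Fin v) (j l : Fin b), 0 < N x j → 0 < N w l →
    2 * bf (H * H) (un x - un w) (qf N x j - qf N w l) ≤
      wd H (un x - un w) (qf N x j - qf N w l) (un x - un w) (qf N x j - qf N w l)

/-- the bounds of the second stage -/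
structure St2 (N : Matrix (Fin v) (Fin b) ℕ) (H : Matrix (Fin v) (Fin v) ℝ) (K M : ℝ) : Prop where
  c : ∀ x j, 0 < N x j → cf H N x j ≤ 100 * K ^ 2 / M ^ 3
  e : ∀ x, H x x ≤ 1 / M + 100 * K / M ^ 2
  z : ∀ x, (H * H) x x ≤ 1 / M ^ 2 + 200 * K / M ^ 3

/-- the range of parameters -/
structure Par (v b k r : ℕ) : Prop where
  hc : v * r = b * k
  hk : 2 ≤ k
  hr : 10000 * (k - 1) ^ 2 ≤ r
  hv : 1000 * (k - 1) ^ 2 * r ≤ v

/-- the same with real numbers: `K = k - 1`, `M = r K` -/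
structure ParR (v k r K M : ℝ) : Prop where
  kK : k = K + 1
  rM : r * K = M
  K1 : 1 ≤ K
  hr : 10000 * K ^ 2 ≤ r
  hM : 10000 * K ^ 3 ≤ M
  hv : 1000 * K * M ≤ v
  r0 : 0 < r
  M0 : 0 < M
  v0 : 0 < v

end SPR

end HCR
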