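import Mathlib
import Pool.Agent.Lib_helper88.HCR.Defs
import Pool.Agent.Lib_helper88.SPR.Defs

set_option autoImplicit false

namespace HCR

open Finset Matrix

/-- concurrence as a natural number -/
def fa_lam {v b : ℕ} (N : Matrix (Fin v) (Fin b) ℕ) (x y : Fin v) : ℕ := ∑ j, N x j * N y j

theorem fa_info {v b k r : ℕ} (N : Matrix (Fin v) (Fin b) ℕ) (x y : Fin v) :
    Info k r N x y = (r : ℝ) * (if x = y then 1 else 0) - (1 / (k : ℝ)) * (fa_lam N x y : ℝ) := by
  unfold Info fa_lam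
  rw [Matrix.sub_apply, Matrix.smul_apply, Matrix.smul_apply, Matrix.one_apply, Matrix.mul_apply]
  simp only [Matrix.transpose_apply, Matrix.map_apply, smul_eq_mul]
  push_cast
  rfl

theorem fa_lam_comm {v b : ℕ} (N : Matrix (Fin v) (Fin b) ℕ) (x y : Fin v) :
    fa_lam N x y = fa_lam N y x := by
  unfold fa_lam
  exact Finset.sum_congr rfl (fun j _ => Nat.mul_comm _ _)

theorem fa_trace {v b k r : ℕ} (N : Matrix (Fin v) (Fin b) ℕ) :
    Matrix.trace (Info k r N) = (v : ℝ) * r - (1 / (k : ℝ)) * ∑ x, (fa_lam N x x : ℝ) := by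
  unfold Matrix.trace
  simp only [Matrix.diag_apply, fa_info, if_true, mul_one]
  rw [Finset.sum_sub_distrib, ← Finset.mul_sum]
  simp

theorem fa_trace2 {v b k r : ℕ} (N : Matrix (Fin v) (Fin b) ℕ) :
    Matrix.trace (Info k r N * Info k r N) =
      (v : ℝ) * (r : ℝ) ^ 2 - 2 * r * (1 / (k : ℝ)) * (∑ x, (fa_lam N x x : ℝ)) +
        (1 / (k : ℝ)) ^ 2 * ∑ x, ∑ y, (fa_lam N x y : ℝ) ^ 2 := by
  unfold Matrix.trace
  have h1 : ∀ x : Fin v, Matrix.diag (Info k r N * Info k r N) x =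
      (r : ℝ) ^ 2 - 2 * r * (1 / (k : ℝ)) * (fa_lam N x x : ℝ) +
        (1 / (k : ℝ)) ^ 2 * ∑ y, (fa_lam N x y : ℝ) ^ 2 := by
    intro x
    rw [Matrix.diag_apply, Matrix.mul_apply]
    have h2 : ∀ y : Fin v, Info k r N x y * Info k r N y x =
        (if x = y then ((r : ℝ) ^ 2 - 2 * r * (1 / (k : ℝ)) * (fa_lam N x y : ℝ)) else 0) +
          (1 / (k : ℝ)) ^ 2 * (fa_lam N x y : ℝ) ^ 2 := by
      intro y
      rw [fa_info, fa_info, fa_lam_comm N y x]
      by_cases hxy : x = y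
      · subst hxy
        simp only [if_true]
        ring
      · rw [if_neg hxy, if_neg (Ne.symm hxy), if_neg hxy]
        ring
    rw [Finset.sum_congr rfl (fun y _ => h2 y), Finset.sum_add_distrib, Finset.sum_ite_eq,
      if_pos (Finset.mem_univ x), ← Finset.mul_sum]
  rw [Finset.sum_congr rfl (fun x _ => h1 x), Finset.sum_add_distrib, Finset.sum_sub_distrib,
    ← Finset.mul_sum, ← Finset.mul_sum]
  simp

/-- the sum of all concurrences -/
theorem fa_total {v b k r : ℕ} (N : Matrix (Fin v) (Fin b) ℕ) (hN : IsDes k r N) :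
    ∑ x, ∑ y, fa_lam N x y = b * (k * k) := by
  unfold fa_lam
  have h1 : ∀ x : Fin v, ∑ y, ∑ j, N x j * N y j = ∑ j, N x j * k := by
    intro x
    rw [Finset.sum_comm]
    refine Finset.sum_congr rfl (fun j _ => ?_)
    rw [← Finset.mul_sum, hN.1 j]
  rw [Finset.sum_congr rfl (fun x _ => h1 x), Finset.sum_comm]
  have h2 : ∀ j : Fin b, ∑ x, N x j * k = k * k := by
    intro j
    rw [← Finset.sum_mul, hN.1 j]
  rw [Finset.sum_congr rfl (fun j _ => h2 j)]
  simp

theorem fa_sqle (n : ℕ) : n ≤ n * n := Nat.le_mul_self n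

/-- the sum of the diagonal concurrences is at least `v r` -/
theorem fa_diag_ge {v b k r : ℕ} (N : Matrix (Fin v) (Fin b) ℕ) (hN : IsDes k r N) (x : Fin v) :
    r ≤ fa_lam N x x := by
  unfold fa_lam
  rw [← hN.2 x]
  exact Finset.sum_le_sum (fun j _ => fa_sqle _)

theorem fa_diag_bin {v b k r : ℕ} (N : Matrix (Fin v) (Fin b) ℕ) (hN : IsDes k r N)
    (hb : ∀ x j, N x j ≤ 1) (x : Fin v) : fa_lam N x x = r := by
  unfold fa_lam
  rw [← hN.2 x]
  refine Finset.sum_congr rfl (fun j _ => ?_)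
  have h := hb x j
  rcases Nat.le_one_iff_eq_zero_or_eq_one.mp h with h | h <;> rw [h]

theorem linear_ms {v b k r : ℕ} (hk : 1 ≤ k) (N : Matrix (Fin v) (Fin b) ℕ) (hN : IsDes k r N)
    (hb : ∀ x j, N x j ≤ 1) (hl : ∀ x y, x ≠ y → ∑ j, N x j * N y j ≤ 1) : MSopt k r N := by
  have hk0 : (0 : ℝ) < k := by exact_mod_cast hk
  have hk1 : (0 : ℝ) < 1 / (k : ℝ) := by positivity
  have hd : ∀ x, fa_lam N x x = r := fa_diag_bin N hN hb
  have hdR : ∑ x, (fa_lam N x x : ℝ) = (v : ℝ) * r := by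
    rw [Finset.sum_congr rfl (fun x _ => by rw [hd x])]
    simp
  refine ⟨hN, ?_, ?_⟩
  · intro N' hN'
    rw [fa_trace, fa_trace, hdR]
    have h1 : (v : ℝ) * r ≤ ∑ x, (fa_lam N' x x : ℝ) := by
      have h2 : ∑ _x : Fin v, (r : ℝ) ≤ ∑ x, (fa_lam N' x x : ℝ) :=
        Finset.sum_le_sum (fun x _ => by exact_mod_cast fa_diag_ge N' hN' x)
      simpa using h2
    have h3 := mul_le_mul_of_nonneg_left h1 hk1.le
    linarith
  · intro N' hN' ht
    rw [fa_trace, fa_trace, hdR] at ht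
    have h1 : ∑ x, (fa_lam N' x x : ℝ) = (v : ℝ) * r := by
      have h2 : (1 / (k : ℝ)) * ∑ x, (fa_lam N' x x : ℝ) = (1 / (k : ℝ)) * ((v : ℝ) * r) := by
        linarith
      exact mul_left_cancel₀ hk1.ne' h2
    -- each diagonal entry equals r
    have h1n : ∑ x, fa_lam N' x x = ∑ _x : Fin v, r := by
      have : ((∑ x, fa_lam N' x x : ℕ) : ℝ) = ((∑ _x : Fin v, r : ℕ) : ℝ) := by
        push_cast
        rw [h1]
        simp
      exact_mod_cast this
    have hd' : ∀ x, fa_lam N' x x = r := by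
      have h3 := (Finset.sum_eq_sum_iff_of_le
        (fun x (_ : x ∈ (Finset.univ : Finset (Fin v))) => fa_diag_ge N' hN' x)).mp h1n.symm
      exact fun x => (h3 x (Finset.mem_univ x)).symm
    rw [fa_trace2, fa_trace2, hdR, h1]
    have hnat : ∑ x, ∑ y, (fa_lam N x y * fa_lam N x y + fa_lam N' x y) ≤
        ∑ x, ∑ y, (fa_lam N' x y * fa_lam N' x y + fa_lam N x y) := by
      refine Finset.sum_le_sum (fun x _ => Finset.sum_le_sum (fun y _ => ?_))
      by_cases hxy : x = y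
      · subst hxy
        rw [hd x, hd' x]
      · have h4 : fa_lam N x y ≤ 1 := hl x y hxy
        have h5 := fa_sqle (fa_lam N' x y)
        rcases Nat.le_one_iff_eq_zero_or_eq_one.mp h4 with h | h <;> rw [h] <;> omega
    have hT := fa_total N hN
    have hT' := fa_total N' hN'
    simp only [Finset.sum_add_distrib] at hnat
    rw [hT, hT'] at hnat
    have hnat2 : ∑ x, ∑ y, fa_lam N x y * fa_lam N x y ≤
        ∑ x, ∑ y, fa_lam N' x y * fa_lam N' x y := by omega
    have hreal : ∑ x, ∑ y, (fa_lam N x y : ℝ) ^ 2 ≤ ∑ x, ∑ y, (fa_lam N' x y : ℝ) ^ 2 := by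
      have h6 : ((∑ x, ∑ y, fa_lam N x y * fa_lam N x y : ℕ) : ℝ) ≤
          ((∑ x, ∑ y, fa_lam N' x y * fa_lam N' x y : ℕ) : ℝ) := by exact_mod_cast hnat2
      push_cast at h6
      simp only [pow_two]
      exact h6
    have h7 := mul_le_mul_of_nonneg_left hreal (sq_nonneg (1 / (k : ℝ)))
    linarith

end HCR
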