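import Mathlib
import Pool.Agent.Lib_helper88.HCR.Defs
import Pool.Agent.Lib_helper88.SPR.Defs

set_option autoImplicit false

namespace HCR

open Finset Matrix

theorem parR {v b k r : ℕ} (h : Par v b k r) :
    ParR (v : ℝ) (k : ℝ) (r : ℝ) ((k : ℝ) - 1) ((r : ℝ) * ((k : ℝ) - 1)) := by
  have hk := h.hk
  obtain ⟨K, rfl⟩ : ∃ K : ℕ, k = K + 1 := ⟨k - 1, by omega⟩
  have hK : 1 ≤ K := by omega
  have h1 := h.hr
  have h2 := h.hv
  rw [Nat.add_sub_cancel] at h1 h2
  have hKr : (1 : ℝ) ≤ K := by exact_mod_cast hK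
  have h1r : 10000 * (K : ℝ) ^ 2 ≤ r := by exact_mod_cast h1
  have h2r : 1000 * (K : ℝ) ^ 2 * r ≤ v := by exact_mod_cast h2
  have e : (((K + 1 : ℕ) : ℝ)) - 1 = K := by
    push_cast
    ring
  rw [e]
  have hr0 : (0 : ℝ) < r := by nlinarith
  have hM0 : (0 : ℝ) < (r : ℝ) * K := by positivity
  exact
    { kK := by push_cast; ring
      rM := rfl
      K1 := hKr
      hr := h1r
      hM := by nlinarith
      hv := by nlinarith
      r0 := hr0
      M0 := hM0
      v0 := by nlinarith }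

end HCR
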