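import Mathlib
import Pool.Agent.Lib_helper88.HCR.Defs
import Pool.Agent.Lib_helper88.SPR.Defs

set_option autoImplicit false

namespace HCR

open Finset Matrix

theorem bf_sum {v : ℕ} (H : Matrix (Fin v) (Fin v) ℝ) (p q : Fin v → ℝ) :
    bf H p q = ∑ x, ∑ y, p x * H x y * q y := by
  unfold bf dotProduct mulVec dotProduct
  refine Finset.sum_congr rfl (fun x _ => ?_)
  rw [Finset.mul_sum]
  exact Finset.sum_congr rfl (fun y _ => by ring)

theorem bf_symm {v : ℕ} (H : Matrix (Fin v) (Fin v) ℝ) (hH : H.IsSymm) (p q : Fin v → ℝ) :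
    bf H p q = bf H q p := by
  rw [bf_sum, bf_sum, Finset.sum_comm]
  refine Finset.sum_congr rfl (fun x _ => Finset.sum_congr rfl (fun y _ => ?_))
  rw [← hH.apply x y]
  ring

theorem bf_lin {v : ℕ} (H : Matrix (Fin v) (Fin v) ℝ) (p q s : Fin v → ℝ) (t : ℝ) :
    bf H (p + q) s = bf H p s + bf H q s ∧ bf H (p - q) s = bf H p s - bf H q s ∧
      bf H s (p + q) = bf H s p + bf H s q ∧ bf H s (p - q) = bf H s p - bf H s q ∧
      bf H (t • p) s = t * bf H p s ∧ bf H s (t • p) = t * bf H s p := by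
  unfold bf
  refine ⟨?_, ?_, ?_, ?_, ?_, ?_⟩
  · rw [add_dotProduct]
  · rw [sub_dotProduct]
  · rw [mulVec_add, dotProduct_add]
  · rw [mulVec_sub, dotProduct_sub]
  · rw [smul_dotProduct, smul_eq_mul]
  · rw [mulVec_smul, dotProduct_smul, smul_eq_mul]

theorem bf_un_left {v : ℕ} (H : Matrix (Fin v) (Fin v) ℝ) (x : Fin v) (q : Fin v → ℝ) :
    bf H (un x) q = ∑ y, H x y * q y := by
  rw [bf_sum]
  unfold un
  rw [Finset.sum_eq_single x]
  · exact Finset.sum_congr rfl (fun y _ => by simp)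
  · intro z _ hz
    exact Finset.sum_eq_zero (fun y _ => by simp [hz])
  · simp

theorem bf_un {v : ℕ} (H : Matrix (Fin v) (Fin v) ℝ) (x y : Fin v) : bf H (un x) (un y) = H x y := by
  rw [bf_un_left]
  unfold un
  simp

theorem bf_sq {v : ℕ} (H : Matrix (Fin v) (Fin v) ℝ) (hH : H.IsSymm) (p q : Fin v → ℝ) :
    bf (H * H) p q = (H *ᵥ p) ⬝ᵥ (H *ᵥ q) := by
  unfold bf
  rw [← mulVec_mulVec, dotProduct_mulVec, ← mulVec_transpose, hH.eq]

/-- Cauchy-Schwarz for a positive semidefinite form -/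
theorem bf_cs {v : ℕ} (H : Matrix (Fin v) (Fin v) ℝ) (hH : H.IsSymm)
    (hp : ∀ p : Fin v → ℝ, 0 ≤ bf H p p) (p q : Fin v → ℝ) :
    (bf H p q) ^ 2 ≤ bf H p p * bf H q q := by
  have hs : bf H q p = bf H p q := bf_symm H hH q p
  have hexp : ∀ t : ℝ, 0 ≤ bf H p p * t ^ 2 - 2 * bf H p q * t + bf H q q := by
    intro t
    have h1 := hp (t • p - q)
    rw [(bf_lin H (t • p) q (t • p - q) 0).2.1, (bf_lin H (t • p) q (t • p) 0).2.2.2.1,
      (bf_lin H (t • p) q q 0).2.2.2.1, (bf_lin H p 0 (t • p) t).2.2.2.2.1,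
      (bf_lin H p 0 p t).2.2.2.2.2, (bf_lin H p 0 q t).2.2.2.2.1,
      (bf_lin H p 0 q t).2.2.2.2.2, hs] at h1
    linarith
  have hpp := hp p
  rcases hpp.eq_or_lt with h0 | h0
  · have h1 := hexp (bf H p q)
    have h2 := hexp ((bf H q q + 1) / (2 * bf H p q))
    rw [← h0] at h2 ⊢
    by_cases hz : bf H p q = 0
    · rw [hz]; simp
    · exfalso
      have : 2 * bf H p q * ((bf H q q + 1) / (2 * bf H p q)) = bf H q q + 1 := by
        field_simp
      linarith
  · have h1 := hexp (bf H p q / bf H p p)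
    have h2 : bf H p p * (bf H p q / bf H p p) ^ 2 - 2 * bf H p q * (bf H p q / bf H p p) +
        bf H q q = (bf H p p * bf H q q - (bf H p q) ^ 2) / bf H p p := by
      field_simp
      ring
    rw [h2] at h1
    have h3 : 0 ≤ (bf H p p * bf H q q - (bf H p q) ^ 2) / bf H p p * bf H p p :=
      mul_nonneg h1 h0.le
    rw [div_mul_cancel₀ _ h0.ne'] at h3
    linarith

end HCR
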