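import Mathlib
import Pool.Agent.Lib_helper88.HCR.Defs
import Pool.Agent.Lib_helper88.SPR.Defs

set_option autoImplicit false

namespace HCR

open Finset Matrix

theorem Lm_apply (r : ℕ) {v b : ℕ} (N : Matrix (Fin v) (Fin b) ℕ) (x y : Fin v) :
    Lm r N x y = (∑ j, (N x j : ℝ) * (N y j : ℝ)) - if x = y then (r : ℝ) else 0 := by
  unfold Lm NR
  rw [Matrix.sub_apply, Matrix.mul_apply, Matrix.smul_apply, Matrix.one_apply]
  simp only [Matrix.map_apply, Matrix.transpose_apply, smul_eq_mul, mul_ite, mul_one, mul_zero]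

theorem lm_mul_nonneg {v : ℕ} {A B : Matrix (Fin v) (Fin v) ℝ} (hA : ∀ x y, 0 ≤ A x y)
    (hB : ∀ x y, 0 ≤ B x y) (x y : Fin v) : 0 ≤ (A * B) x y := by
  rw [Matrix.mul_apply]
  exact Finset.sum_nonneg fun z _ => mul_nonneg (hA x z) (hB z y)

theorem Lm_facts {v b k r : ℕ} {N : Matrix (Fin v) (Fin b) ℕ} (h : IsDes k r N) :
    (Lm r N).IsSymm ∧ (∀ x y, 0 ≤ Lm r N x y) ∧
      (∀ x, ∑ y, Lm r N x y = (r : ℝ) * ((k : ℝ) - 1)) ∧
      (∀ x y, 0 ≤ (Lm r N * Lm r N) x y) ∧ (∀ x y, 0 ≤ (Lm r N * Lm r N * Lm r N) x y) ∧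
      ∀ x, (r : ℝ) * ((k : ℝ) - 1) ≤ (Lm r N * Lm r N) x x := by
  obtain ⟨hcol, hrow⟩ := h
  have hrow' : ∀ x, ∑ j, (N x j : ℝ) = r := fun x => by
    rw [← hrow x]
    push_cast
    rfl
  have hcol' : ∀ j, ∑ x, (N x j : ℝ) = k := fun j => by
    rw [← hcol j]
    push_cast
    rfl
  have hsymm : (Lm r N).IsSymm := by
    ext x y
    rw [Matrix.transpose_apply, Lm_apply, Lm_apply]
    congr 1
    · exact Finset.sum_congr rfl fun j _ => mul_comm _ _
    · simp only [eq_comm]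
  -- entries are natural numbers
  have hnat : ∀ x y, ∃ n : ℕ, Lm r N x y = n := by
    intro x y
    by_cases hxy : x = y
    · subst hxy
      have h1 : r ≤ ∑ j, N x j * N x j := by
        rw [← hrow x]
        exact Finset.sum_le_sum fun j _ => Nat.le_mul_self _
      refine ⟨(∑ j, N x j * N x j) - r, ?_⟩
      rw [Lm_apply, if_pos rfl, Nat.cast_sub h1]
      push_cast
      rfl
    · refine ⟨∑ j, N x j * N y j, ?_⟩
      rw [Lm_apply, if_neg hxy, sub_zero]
      push_cast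
      rfl
  have hnn : ∀ x y, 0 ≤ Lm r N x y := by
    intro x y
    obtain ⟨n, hn⟩ := hnat x y
    rw [hn]
    exact Nat.cast_nonneg n
  have hsum : ∀ x, ∑ y, Lm r N x y = (r : ℝ) * ((k : ℝ) - 1) := by
    intro x
    simp only [Lm_apply]
    rw [Finset.sum_sub_distrib, Finset.sum_comm]
    have e1 : ∀ j, ∑ y, (N x j : ℝ) * (N y j : ℝ) = (N x j : ℝ) * k := fun j => by
      rw [← Finset.mul_sum, hcol' j]
    simp only [e1]
    rw [← Finset.sum_mul, hrow' x, Finset.sum_ite_eq, if_pos (Finset.mem_univ x)]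
    ring
  have h2 := lm_mul_nonneg hnn hnn
  refine ⟨hsymm, hnn, hsum, h2, lm_mul_nonneg h2 hnn, fun x => ?_⟩
  rw [← hsum x, Matrix.mul_apply]
  refine Finset.sum_le_sum fun y _ => ?_
  have e : Lm r N y x = Lm r N x y := by
    have := congrFun (congrFun hsymm x) y
    rw [Matrix.transpose_apply] at this
    exact this
  rw [e]
  obtain ⟨n, hn⟩ := hnat x y
  rw [hn]
  exact_mod_cast Nat.le_mul_self n

end HCR
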