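import Mathlib
import Pool.Agent.Lib_helper88.HCR.Defs
import Pool.Agent.Lib_helper88.SPR.Defs
import Pool.Agent.Lib_helper88.SPR.bi

set_option autoImplicit false

namespace HCR

open Finset Matrix

theorem wf_eq {v b : ℕ} (k : ℕ) (N : Matrix (Fin v) (Fin b) ℕ) (x : Fin v) (j : Fin b) :
    wf k N x j = ((k : ℝ) - 1) • un x - qf N x j := by
  funext y
  simp only [wf, un, qf, Pi.sub_apply, Pi.smul_apply, smul_eq_mul]
  ring

theorem Rf_eq {v b : ℕ} (k : ℕ) (N : Matrix (Fin v) (Fin b) ℕ) (H : Matrix (Fin v) (Fin v) ℝ)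
    (hH : H.IsSymm) (x : Fin v) (j : Fin b) :
    bf H (wf k N x j) (wf k N x j) =
      ((k : ℝ) - 1) ^ 2 * H x x - 2 * ((k : ℝ) - 1) * bf H (un x) (qf N x j) + Qf H N x j := by
  rw [wf_eq]
  set u := un x
  set q := qf N x j
  set t : ℝ := (k : ℝ) - 1
  have hs : bf H q u = bf H u q := bf_symm H hH q u
  rw [(bf_lin H (t • u) q (t • u - q) 0).2.1, (bf_lin H (t • u) q (t • u) 0).2.2.2.1,
    (bf_lin H (t • u) q q 0).2.2.2.1, (bf_lin H u 0 (t • u) t).2.2.2.2.1,
    (bf_lin H u 0 u t).2.2.2.2.2, (bf_lin H u 0 q t).2.2.2.2.1,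
    (bf_lin H u 0 q t).2.2.2.2.2, hs, bf_un H x x]
  unfold Qf
  ring

theorem Df_eq {v b : ℕ} (k : ℕ) (N : Matrix (Fin v) (Fin b) ℕ) (H : Matrix (Fin v) (Fin v) ℝ)
    (hH : H.IsSymm) (x : Fin v) (j : Fin b) :
    Df H N x j = Qf H N x j * (H * H) x x + H x x * Qf (H * H) N x j -
        2 * af H N x j * cf H N x j ∧
      Df H N x j = bf H (wf k N x j) (wf k N x j) * (H * H) x x +
        H x x * bf (H * H) (wf k N x j) (wf k N x j) -
        2 * (((k : ℝ) - 1) * H x x - af H N x j) *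
          (((k : ℝ) - 1) * (H * H) x x - cf H N x j) := by
  have hHH : (H * H).IsSymm := by
    unfold Matrix.IsSymm
    rw [transpose_mul, hH.eq]
  have h1 : Df H N x j = Qf H N x j * (H * H) x x + H x x * Qf (H * H) N x j -
        2 * af H N x j * cf H N x j := by
    unfold Df wd Qf af cf
    rw [bf_un, bf_un, bf_symm H hH (qf N x j) (un x),
      bf_symm (H * H) hHH (qf N x j) (un x)]
    ring
  refine ⟨h1, ?_⟩
  rw [h1, Rf_eq k N H hH x j, Rf_eq k N (H * H) hHH x j]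
  unfold Qf af cf
  ring

end HCR
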