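import Mathlib
import Pool.Agent.Lib_helper88.HCR.Defs
import Pool.Agent.Lib_helper88.SPR.Defs
import Pool.Agent.Lib_helper88.SPR.bi
import Pool.Agent.Lib_helper88.SPR.lm
import Pool.Agent.Lib_helper88.SPR.rf

set_option autoImplicit false

namespace HCR

open Finset Matrix

theorem ba_cs {v b k r : ℕ} {N : Matrix (Fin v) (Fin b) ℕ} (h : IsDes k r N) (u : Fin v → ℝ)
    (l : Fin b) : 0 ≤ (k : ℝ) * ∑ y, (N y l : ℝ) * u y ^ 2 - (∑ y, (N y l : ℝ) * u y) ^ 2 := by
  have h1 : (∑ y, (N y l : ℝ) * u y) ^ 2 ≤ (∑ y, (N y l : ℝ)) * ∑ y, (N y l : ℝ) * u y ^ 2 := by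
    apply Finset.sum_sq_le_sum_mul_sum_of_sq_le_mul
    · intro i _
      positivity
    · intro i _
      positivity
    · intro i _
      exact le_of_eq (by ring)
  have h2 : ∑ y, (N y l : ℝ) = k := by
    rw [← h.1 l]
    push_cast
    rfl
  rw [h2] at h1
  linarith

/-- the equation `(M - Lm) H w = w` for `w` of mean zero -/
theorem ba_eq {v b k r : ℕ} {N : Matrix (Fin v) (Fin b) ℕ} {H : Matrix (Fin v) (Fin v) ℝ}
    (h : SD k r N H) (w : Fin v → ℝ) (hw : ∑ y, w y = 0) (y : Fin v) :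
    w y = (r : ℝ) * k * (H *ᵥ w) y - ∑ l, (N y l : ℝ) * ∑ u, (N u l : ℝ) * (H *ᵥ w) u := by
  have h1 : ∑ u, ((r : ℝ) * ((k : ℝ) - 1) * H y u - (Lm r N * H) y u) * w u = w y := by
    have h2 : ∀ u, ((r : ℝ) * ((k : ℝ) - 1) * H y u - (Lm r N * H) y u) * w u =
        (if y = u then w u else 0) - 1 / (v : ℝ) * w u := by
      intro u
      rw [h.inv y u]
      split_ifs <;> ring
    rw [Finset.sum_congr rfl (fun u _ => h2 u), Finset.sum_sub_distrib, ← Finset.mul_sum, hw,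
      mul_zero, sub_zero, Finset.sum_ite_eq, if_pos (Finset.mem_univ y)]
  have h3 : ∑ u, ((r : ℝ) * ((k : ℝ) - 1) * H y u - (Lm r N * H) y u) * w u =
      (r : ℝ) * ((k : ℝ) - 1) * (H *ᵥ w) y - (Lm r N *ᵥ (H *ᵥ w)) y := by
    rw [Matrix.mulVec_mulVec]
    simp only [Matrix.mulVec, dotProduct]
    rw [Finset.mul_sum, ← Finset.sum_sub_distrib]
    apply Finset.sum_congr rfl
    intro u _
    ring
  have h4 : (Lm r N *ᵥ (H *ᵥ w)) y =
      (∑ l, (N y l : ℝ) * ∑ u, (N u l : ℝ) * (H *ᵥ w) u) - r * (H *ᵥ w) y := by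
    have h5 : (Lm r N *ᵥ (H *ᵥ w)) y = ∑ u, Lm r N y u * (H *ᵥ w) u := rfl
    rw [h5]
    have h6 : ∀ u, Lm r N y u * (H *ᵥ w) u =
        (∑ l, (N y l : ℝ) * ((N u l : ℝ) * (H *ᵥ w) u)) -
          (if y = u then (r : ℝ) * (H *ᵥ w) u else 0) := by
      intro u
      rw [Lm_apply, sub_mul, Finset.sum_mul]
      congr 1
      · apply Finset.sum_congr rfl
        intro l _
        ring
      · split_ifs <;> ring
    rw [Finset.sum_congr rfl (fun u _ => h6 u), Finset.sum_sub_distrib, Finset.sum_ite_eq,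
      if_pos (Finset.mem_univ y), Finset.sum_comm]
    congr 1
    apply Finset.sum_congr rfl
    intro l _
    rw [Finset.mul_sum]
  rw [h3, h4] at h1
  linarith

theorem Rf_le {v b k r : ℕ} {N : Matrix (Fin v) (Fin b) ℕ} {H : Matrix (Fin v) (Fin v) ℝ} (hk : 1 ≤ k) (h : SD k r N H) (x : Fin v) (j : Fin b)
    (hx : 0 < N x j) :
    bf H (wf k N x j) (wf k N x j) ≤ (k : ℝ) - 1 := by
  set w := wf k N x j with hw
  set z := H *ᵥ w with hz
  have hcol : ∑ y, (N y j : ℝ) = k := by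
    rw [← h.des.1 j]
    push_cast
    rfl
  have hrow : ∀ y, ∑ l, (N y l : ℝ) = r := by
    intro y
    rw [← h.des.2 y]
    push_cast
    rfl
  have hw0 : ∑ y, w y = 0 := by
    rw [hw]
    unfold wf
    rw [Finset.sum_sub_distrib, hcol, ← Finset.mul_sum, Finset.sum_ite_eq',
      if_pos (Finset.mem_univ x)]
    ring
  have hR : bf H w w = ∑ y, z y * w y := by
    unfold bf
    rw [← hz]
    unfold dotProduct
    apply Finset.sum_congr rfl
    intro y _
    ring
  -- `R` as a sum over the blocks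
  have hRl : bf H w w =
      ∑ l, ((k : ℝ) * ∑ y, (N y l : ℝ) * z y ^ 2 - (∑ y, (N y l : ℝ) * z y) ^ 2) := by
    rw [hR]
    have e1 : ∀ y, z y * w y = (r : ℝ) * k * z y ^ 2 -
        ∑ l, (N y l : ℝ) * z y * ∑ u, (N u l : ℝ) * z u := by
      intro y
      rw [ba_eq h w hw0 y, ← hz, mul_sub, Finset.mul_sum]
      congr 1
      · ring
      · apply Finset.sum_congr rfl
        intro l _
        ring
    rw [Finset.sum_congr rfl (fun y _ => e1 y), Finset.sum_sub_distrib, Finset.sum_sub_distrib,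
      Finset.sum_comm (f := fun y l => (N y l : ℝ) * z y * ∑ u, (N u l : ℝ) * z u)]
    congr 1
    · rw [← Finset.mul_sum, ← Finset.mul_sum, Finset.sum_comm]
      have e2 : ∀ y, ∑ l, (N y l : ℝ) * z y ^ 2 = r * z y ^ 2 := by
        intro y
        rw [← Finset.sum_mul, hrow y]
      rw [Finset.sum_congr rfl (fun y _ => e2 y), ← Finset.mul_sum]
      ring
    · apply Finset.sum_congr rfl
      intro l _
      rw [← Finset.sum_mul]
      ring
  have hV : (k : ℝ) * ∑ y, (N y j : ℝ) * z y ^ 2 - (∑ y, (N y j : ℝ) * z y) ^ 2 ≤ bf H w w := by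
    rw [hRl]
    exact Finset.single_le_sum
      (f := fun l => (k : ℝ) * ∑ y, (N y l : ℝ) * z y ^ 2 - (∑ y, (N y l : ℝ) * z y) ^ 2)
      (fun l _ => ba_cs h.des z l) (Finset.mem_univ j)
  have hzx : bf H w w = (k : ℝ) * z x - ∑ y, (N y j : ℝ) * z y := by
    rw [hR, hw]
    unfold wf
    have e3 : ∀ y, z y * ((k : ℝ) * (if y = x then 1 else 0) - (N y j : ℝ)) =
        (if y = x then (k : ℝ) * z y else 0) - (N y j : ℝ) * z y := by
      intro y
      split_ifs <;> ring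
    rw [Finset.sum_congr rfl (fun y _ => e3 y), Finset.sum_sub_distrib, Finset.sum_ite_eq',
      if_pos (Finset.mem_univ x)]
  have hc := ba_cs h.des (fun y => z y - if y = x then 1 else 0) j
  have e4 : ∑ y, (N y j : ℝ) * (z y - if y = x then 1 else 0) ^ 2 =
      ∑ y, (N y j : ℝ) * z y ^ 2 - 2 * (N x j : ℝ) * z x + N x j := by
    have e5 : ∀ y, (N y j : ℝ) * (z y - if y = x then 1 else 0) ^ 2 =
        (N y j : ℝ) * z y ^ 2 - (if y = x then 2 * (N y j : ℝ) * z y - N y j else 0) := by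
      intro y
      split_ifs <;> ring
    rw [Finset.sum_congr rfl (fun y _ => e5 y), Finset.sum_sub_distrib, Finset.sum_ite_eq',
      if_pos (Finset.mem_univ x)]
    ring
  have e6 : ∑ y, (N y j : ℝ) * (z y - if y = x then 1 else 0) =
      ∑ y, (N y j : ℝ) * z y - N x j := by
    have e7 : ∀ y, (N y j : ℝ) * (z y - if y = x then 1 else 0) =
        (N y j : ℝ) * z y - (if y = x then (N y j : ℝ) else 0) := by
      intro y
      split_ifs <;> ring
    rw [Finset.sum_congr rfl (fun y _ => e7 y), Finset.sum_sub_distrib, Finset.sum_ite_eq',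
      if_pos (Finset.mem_univ x)]
  rw [e4, e6] at hc
  have hn1 : (1 : ℝ) ≤ N x j := by exact_mod_cast hx
  have hk1 : (1 : ℝ) ≤ k := by exact_mod_cast hk
  set R := bf H w w with hRdef
  set n : ℝ := (N x j : ℝ) with hn
  set A := ∑ y, (N y j : ℝ) * z y ^ 2 with hA
  set S := ∑ y, (N y j : ℝ) * z y with hS
  have h1 : (2 * n - 1) * R ≤ n * (k - n) := by
    nlinarith [hc, hV, hzx]
  have h2 : n * (k - n) ≤ (2 * n - 1) * ((k : ℝ) - 1) := by
    nlinarith [mul_nonneg (sub_nonneg.2 hn1) (by linarith : (0 : ℝ) ≤ k),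
      mul_nonneg (sub_nonneg.2 hn1) (sub_nonneg.2 hn1)]
  have h3 : (0 : ℝ) < 2 * n - 1 := by linarith
  exact le_of_mul_le_mul_left (le_trans h1 h2) h3

theorem Rf_nonneg {v b k r : ℕ} {N : Matrix (Fin v) (Fin b) ℕ} {H : Matrix (Fin v) (Fin v) ℝ} (h : SD k r N H) (x : Fin v) (j : Fin b) :
    0 ≤ bf H (wf k N x j) (wf k N x j) ∧ 0 ≤ bf (H * H) (wf k N x j) (wf k N x j) := by
  refine ⟨h.psd _, ?_⟩
  rw [bf_sq H h.sym]
  unfold dotProduct
  exact Finset.sum_nonneg (fun i _ => mul_self_nonneg _)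

end HCR
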