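import Mathlib
import Pool.Agent.Lib_helper88.HCR.Defs
import Pool.Agent.Lib_helper88.SPR.Defs
import Pool.Agent.Lib_helper88.SPR.bi
import Pool.Agent.Lib_helper88.SPR.lm

set_option autoImplicit false

namespace HCR

open Finset Matrix

theorem fs_qq {v b k r : ℕ} {N : Matrix (Fin v) (Fin b) ℕ} (h : IsDes k r N) (y z : Fin v) :
    fs N (fun w l => qf N w l y * qf N w l z) =
      ((k : ℝ) - 2) * Lm r N y z + if y = z then ((k : ℝ) - 1) * r else 0 := by
  have hk : ∀ l, ∑ w, (N w l : ℝ) = k := fun l => by exact_mod_cast h.1 l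
  have hr : ∑ l, (N y l : ℝ) = r := by exact_mod_cast h.2 y
  have h1 : ∀ l, ∑ w, (N w l : ℝ) * (qf N w l y * qf N w l z) =
      ((k : ℝ) - 2) * ((N y l : ℝ) * (N z l : ℝ)) + (if y = z then (N y l : ℝ) else 0) := by
    intro l
    have h2 : ∀ w, (N w l : ℝ) * (qf N w l y * qf N w l z) =
        (N w l : ℝ) * ((N y l : ℝ) * (N z l : ℝ)) -
          (if y = w then (N w l : ℝ) * (N z l : ℝ) else 0) -
          (if z = w then (N w l : ℝ) * (N y l : ℝ) else 0) +
          (if y = w then (if z = w then (N w l : ℝ) else 0) else 0) := by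
      intro w
      unfold qf
      by_cases h3 : y = w
      · by_cases h4 : z = w
        · rw [if_pos h3, if_pos h4, if_pos h3, if_pos h4, if_pos h3, if_pos h4]
          ring
        · rw [if_pos h3, if_neg h4, if_pos h3, if_neg h4, if_pos h3, if_neg h4]
          ring
      · by_cases h4 : z = w
        · rw [if_neg h3, if_pos h4, if_neg h3, if_pos h4, if_neg h3]
          ring
        · rw [if_neg h3, if_neg h4, if_neg h3, if_neg h4, if_neg h3]
          ring
    rw [Finset.sum_congr rfl fun w _ => h2 w, Finset.sum_add_distrib, Finset.sum_sub_distrib,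
      Finset.sum_sub_distrib, ← Finset.sum_mul, hk l, Finset.sum_ite_eq Finset.univ y,
      Finset.sum_ite_eq Finset.univ z, Finset.sum_ite_eq Finset.univ y]
    simp only [Finset.mem_univ, if_true]
    by_cases h5 : y = z
    · rw [if_pos h5, if_pos h5.symm]
      ring
    · rw [if_neg h5, if_neg (fun h6 => h5 h6.symm)]
      ring
  unfold fs
  rw [Finset.sum_comm, Finset.sum_congr rfl fun l _ => h1 l, Finset.sum_add_distrib,
    ← Finset.mul_sum, Lm_apply]
  by_cases h5 : y = z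
  · simp only [if_pos h5]
    rw [hr]
    ring
  · simp only [if_neg h5]
    simp

theorem vc_quad {v b k r : ℕ} {N : Matrix (Fin v) (Fin b) ℕ} (h : IsDes k r N)
    (u t : Fin v → ℝ) :
    fs N (fun w l => (u ⬝ᵥ qf N w l) * (t ⬝ᵥ qf N w l)) =
      ((k : ℝ) - 2) * bf (Lm r N) u t + ((k : ℝ) - 1) * r * (u ⬝ᵥ t) := by
  have h1 : fs N (fun w l => (u ⬝ᵥ qf N w l) * (t ⬝ᵥ qf N w l)) =
      ∑ y, ∑ z, u y * t z * fs N (fun w l => qf N w l y * qf N w l z) := by
    unfold fs
    have h2 : ∀ w l, (N w l : ℝ) * ((u ⬝ᵥ qf N w l) * (t ⬝ᵥ qf N w l)) =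
        ∑ y, ∑ z, u y * t z * ((N w l : ℝ) * (qf N w l y * qf N w l z)) := by
      intro w l
      unfold dotProduct
      rw [Finset.sum_mul_sum, Finset.mul_sum]
      refine Finset.sum_congr rfl fun y _ => ?_
      rw [Finset.mul_sum]
      refine Finset.sum_congr rfl fun z _ => ?_
      ring
    rw [Finset.sum_congr rfl fun w _ => Finset.sum_congr rfl fun l _ => h2 w l]
    have h3 : ∀ y z, u y * t z * ∑ w, ∑ l, (N w l : ℝ) * (qf N w l y * qf N w l z) =
        ∑ w, ∑ l, u y * t z * ((N w l : ℝ) * (qf N w l y * qf N w l z)) := by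
      intro y z
      rw [Finset.mul_sum]
      exact Finset.sum_congr rfl fun w _ => Finset.mul_sum _ _ _
    rw [Finset.sum_congr rfl fun y _ => Finset.sum_congr rfl fun z _ => h3 y z]
    -- exchange the sums
    have h4 : ∀ w, ∑ l, ∑ y, ∑ z, u y * t z * ((N w l : ℝ) * (qf N w l y * qf N w l z)) =
        ∑ y, ∑ z, ∑ l, u y * t z * ((N w l : ℝ) * (qf N w l y * qf N w l z)) := by
      intro w
      rw [Finset.sum_comm]
      exact Finset.sum_congr rfl fun y _ => Finset.sum_comm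
    rw [Finset.sum_congr rfl fun w _ => h4 w, Finset.sum_comm]
    exact Finset.sum_congr rfl fun y _ => Finset.sum_comm
  rw [h1, bf_sum]
  have h5 : ∀ y z, u y * t z * fs N (fun w l => qf N w l y * qf N w l z) =
      ((k : ℝ) - 2) * (u y * Lm r N y z * t z) +
        (if y = z then ((k : ℝ) - 1) * r * (u y * t y) else 0) := by
    intro y z
    rw [fs_qq h]
    by_cases h6 : y = z
    · rw [if_pos h6, if_pos h6, ← h6]
      ring
    · rw [if_neg h6, if_neg h6]
      ring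
  rw [Finset.sum_congr rfl fun y _ => Finset.sum_congr rfl fun z _ => h5 y z]
  have h7 : ∀ y, ∑ z, (((k : ℝ) - 2) * (u y * Lm r N y z * t z) +
        (if y = z then ((k : ℝ) - 1) * r * (u y * t y) else 0)) =
      ((k : ℝ) - 2) * (∑ z, u y * Lm r N y z * t z) + ((k : ℝ) - 1) * r * (u y * t y) := by
    intro y
    rw [Finset.sum_add_distrib, ← Finset.mul_sum, Finset.sum_ite_eq]
    simp
  rw [Finset.sum_congr rfl fun y _ => h7 y, Finset.sum_add_distrib, ← Finset.mul_sum,
    ← Finset.mul_sum]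
  rfl

/-- `Lm H = M H - Pi` -/
theorem vc_LH {v b k r : ℕ} {N : Matrix (Fin v) (Fin b) ℕ} {H : Matrix (Fin v) (Fin v) ℝ}
    (h : SD k r N H) : Lm r N * (H * H) = ((r : ℝ) * ((k : ℝ) - 1)) • (H * H) - H := by
  have h1 : Lm r N * H = ((r : ℝ) * ((k : ℝ) - 1)) • H -
      (Matrix.of fun x y => (if x = y then (1 : ℝ) else 0) - 1 / (v : ℝ)) := by
    ext x y
    have h2 := h.inv x y
    simp only [Matrix.sub_apply, Matrix.smul_apply, smul_eq_mul, Matrix.of_apply]
    linarith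
  have h3 : (Matrix.of fun x y => (if x = y then (1 : ℝ) else 0) - 1 / (v : ℝ)) * H = H := by
    ext x y
    rw [Matrix.mul_apply]
    simp only [Matrix.of_apply, sub_mul]
    rw [Finset.sum_sub_distrib]
    have h4 : ∑ z, (1 / (v : ℝ)) * H z y = 0 := by
      rw [← Finset.mul_sum]
      have h5 : ∑ z, H z y = 0 := by
        rw [← h.one y]
        refine Finset.sum_congr rfl fun z _ => ?_
        exact (h.sym.apply z y).symm ▸ rfl
      rw [h5, mul_zero]
    rw [h4, sub_zero]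
    simp
  rw [← Matrix.mul_assoc, h1, Matrix.sub_mul, h3, Matrix.smul_mul]

theorem fs_c {v b k r : ℕ} {N : Matrix (Fin v) (Fin b) ℕ} {H : Matrix (Fin v) (Fin v) ℝ} (hv : 1 ≤ v) (h : SD k r N H) (e : Fin v → ℝ) :
    fs N (fun w l => wd H e (qf N w l) e (qf N w l)) =
      bf H e e * fs N (Qf (H * H) N) + bf (H * H) e e * fs N (Qf H N) -
        2 * (((k : ℝ) - 1) ^ 2 * r * bf (H * H * H) e e - ((k : ℝ) - 2) * bf (H * H) e e) := by
  have hH := h.sym
  have hHH : (H * H).IsSymm := by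
    unfold Matrix.IsSymm
    rw [Matrix.transpose_mul, hH.eq]
  have hb : ∀ (G : Matrix (Fin v) (Fin v) ℝ), G.IsSymm → ∀ q : Fin v → ℝ,
      bf G e q = (G *ᵥ e) ⬝ᵥ q := by
    intro G hG q
    rw [bf_symm G hG]
    unfold bf
    rw [dotProduct_comm]
  have h1 : ∀ w l, wd H e (qf N w l) e (qf N w l) =
      bf H e e * Qf (H * H) N w l + bf (H * H) e e * Qf H N w l -
        2 * (((H *ᵥ e) ⬝ᵥ qf N w l) * (((H * H) *ᵥ e) ⬝ᵥ qf N w l)) := by
    intro w l
    unfold wd Qf
    rw [bf_symm (H * H) hHH (qf N w l) e, bf_symm H hH (qf N w l) e, hb H hH (qf N w l),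
      hb (H * H) hHH (qf N w l)]
    ring
  have h2 : fs N (fun w l => wd H e (qf N w l) e (qf N w l)) =
      bf H e e * fs N (Qf (H * H) N) + bf (H * H) e e * fs N (Qf H N) -
        2 * fs N (fun w l => ((H *ᵥ e) ⬝ᵥ qf N w l) * (((H * H) *ᵥ e) ⬝ᵥ qf N w l)) := by
    unfold fs
    rw [Finset.mul_sum, Finset.mul_sum, Finset.mul_sum, ← Finset.sum_add_distrib,
      ← Finset.sum_sub_distrib]
    refine Finset.sum_congr rfl fun w _ => ?_
    rw [Finset.mul_sum, Finset.mul_sum, Finset.mul_sum, ← Finset.sum_add_distrib,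
      ← Finset.sum_sub_distrib]
    refine Finset.sum_congr rfl fun l _ => ?_
    beta_reduce
    rw [h1]
    ring
  rw [h2, vc_quad h.des]
  have h3 : bf (Lm r N) (H *ᵥ e) ((H * H) *ᵥ e) =
      (r : ℝ) * ((k : ℝ) - 1) * bf (H * H * H) e e - bf (H * H) e e := by
    have h4 : bf (Lm r N) (H *ᵥ e) ((H * H) *ᵥ e) =
        e ⬝ᵥ ((H * (Lm r N * (H * H))) *ᵥ e) := by
      have h6 : bf (Lm r N) (H *ᵥ e) ((H * H) *ᵥ e) =
          bf H e (Lm r N *ᵥ ((H * H) *ᵥ e)) := (hb H hH _).symm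
      rw [h6]
      unfold bf
      rw [Matrix.mulVec_mulVec, Matrix.mulVec_mulVec, Matrix.mul_assoc]
    rw [h4, vc_LH h, Matrix.mul_sub, Matrix.mul_smul, Matrix.sub_mulVec, Matrix.smul_mulVec,
      dotProduct_sub, dotProduct_smul, smul_eq_mul, ← Matrix.mul_assoc]
    rfl
  have h5 : (H *ᵥ e) ⬝ᵥ ((H * H) *ᵥ e) = bf (H * H * H) e e := by
    have h6 : (H *ᵥ e) ⬝ᵥ ((H * H) *ᵥ e) = bf H e ((H * H) *ᵥ e) := (hb H hH _).symm
    rw [h6]
    unfold bf
    rw [Matrix.mulVec_mulVec, Matrix.mul_assoc]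
  rw [h3, h5]
  ring

end HCR
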