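import Mathlib
import Pool.Agent.Lib_helper88.HCR.Defs
import Pool.Agent.Lib_helper88.SPR.Defs
import Pool.Agent.Lib_helper88.SPR.bi
import Pool.Agent.Lib_helper88.SPR.lm

set_option autoImplicit false

namespace HCR

open Finset Matrix

theorem vd_rows {v b k r : ℕ} {N : Matrix (Fin v) (Fin b) ℕ} (h : IsDes k r N) (y : Fin v) :
    ∑ l, (N y l : ℝ) = r := by
  rw [← h.2 y]
  push_cast
  rfl

theorem vd_Lm {v b k r : ℕ} {N : Matrix (Fin v) (Fin b) ℕ} (h : IsDes k r N) (y z : Fin v) :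
    ∑ l, (N y l : ℝ) * qf N y l z = Lm r N y z := by
  rw [Lm_apply]
  unfold qf
  have e : ∀ l, (N y l : ℝ) * ((N z l : ℝ) - if z = y then 1 else 0) =
      (N y l : ℝ) * (N z l : ℝ) - (N y l : ℝ) * (if z = y then 1 else 0) := by
    intro l
    ring
  rw [Finset.sum_congr rfl (fun l _ => e l), Finset.sum_sub_distrib, ← Finset.sum_mul, vd_rows h y]
  congr 1
  by_cases hyz : y = z
  · rw [if_pos hyz, if_pos hyz.symm, mul_one]
  · rw [if_neg hyz, if_neg (fun h' => hyz h'.symm), mul_zero]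

theorem fs_uq {v b k r : ℕ} {N : Matrix (Fin v) (Fin b) ℕ} (h : IsDes k r N) (y z : Fin v) :
    fs N (fun w l => un w y * qf N w l z) = Lm r N y z := by
  rw [← vd_Lm h y z]
  unfold fs un
  have e : ∀ w, ∑ l, (N w l : ℝ) * ((if y = w then 1 else 0) * qf N w l z) =
      if y = w then ∑ l, (N w l : ℝ) * qf N w l z else 0 := by
    intro w
    split_ifs
    · simp only [one_mul]
    · simp only [zero_mul, mul_zero, Finset.sum_const_zero]
  rw [Finset.sum_congr rfl (fun w _ => e w), Finset.sum_ite_eq, if_pos (Finset.mem_univ y)]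

theorem vd_fs {v b k r : ℕ} {N : Matrix (Fin v) (Fin b) ℕ} (h : IsDes k r N) (f : Fin v → ℝ) :
    fs N (fun w _ => f w) = r * ∑ w, f w := by
  unfold fs
  rw [Finset.mul_sum]
  apply Finset.sum_congr rfl
  intro w _
  rw [← Finset.sum_mul, vd_rows h w]

theorem vd_right {v : ℕ} (A : Matrix (Fin v) (Fin v) ℝ) (e : Fin v → ℝ) (w : Fin v) :
    bf A e (un w) = (e ᵥ* A) w := by
  unfold bf
  rw [Matrix.dotProduct_mulVec]
  unfold dotProduct un
  simp only [mul_ite, mul_one, mul_zero]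
  rw [Finset.sum_ite_eq', if_pos (Finset.mem_univ w)]

theorem vd_mul {v b k r : ℕ} {N : Matrix (Fin v) (Fin b) ℕ} (h : IsDes k r N)
    (A B : Matrix (Fin v) (Fin v) ℝ) (e q : Fin v → ℝ) :
    fs N (fun w l => bf A e (un w) * bf B (qf N w l) q) = bf (A * Lm r N * B) e q := by
  have e1 : bf (A * Lm r N * B) e q = (e ᵥ* A) ⬝ᵥ (Lm r N *ᵥ (B *ᵥ q)) := by
    unfold bf
    rw [← Matrix.mulVec_mulVec, ← Matrix.mulVec_mulVec, Matrix.dotProduct_mulVec]
  rw [e1]
  unfold fs
  have e2 : (e ᵥ* A) ⬝ᵥ (Lm r N *ᵥ (B *ᵥ q)) =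
      ∑ w, (e ᵥ* A) w * ∑ z, Lm r N w z * (B *ᵥ q) z := rfl
  rw [e2]
  apply Finset.sum_congr rfl
  intro w _
  have e3 : ∀ l, (N w l : ℝ) * (bf A e (un w) * bf B (qf N w l) q) =
      (e ᵥ* A) w * ∑ z, (N w l : ℝ) * qf N w l z * (B *ᵥ q) z := by
    intro l
    rw [vd_right]
    have e4 : bf B (qf N w l) q = ∑ z, qf N w l z * (B *ᵥ q) z := rfl
    rw [e4, Finset.mul_sum, Finset.mul_sum, Finset.mul_sum]
    apply Finset.sum_congr rfl
    intro z _
    ring
  rw [Finset.sum_congr rfl (fun l _ => e3 l), ← Finset.mul_sum, Finset.sum_comm]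
  congr 1
  apply Finset.sum_congr rfl
  intro z _
  rw [← Finset.sum_mul, vd_Lm h w z]

/-- the projection onto the vectors of mean zero -/
noncomputable def vdP (v : ℕ) : Matrix (Fin v) (Fin v) ℝ :=
  fun x y => (if x = y then (1 : ℝ) else 0) - 1 / (v : ℝ)

theorem vd_inv {v b k r : ℕ} {N : Matrix (Fin v) (Fin b) ℕ} {H : Matrix (Fin v) (Fin v) ℝ}
    (h : SD k r N H) : Lm r N * H = ((r : ℝ) * ((k : ℝ) - 1)) • H - vdP v := by
  ext x y
  have := h.inv x y
  rw [Matrix.sub_apply, Matrix.smul_apply, smul_eq_mul]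
  unfold vdP
  linarith

theorem vd_P {v b k r : ℕ} {N : Matrix (Fin v) (Fin b) ℕ} {H : Matrix (Fin v) (Fin v) ℝ}
    (h : SD k r N H) : H * vdP v = H := by
  ext x y
  rw [Matrix.mul_apply]
  unfold vdP
  have e : ∀ z, H x z * ((if z = y then (1 : ℝ) else 0) - 1 / (v : ℝ)) =
      (if z = y then H x z else 0) - H x z * (1 / (v : ℝ)) := by
    intro z
    split_ifs <;> ring
  rw [Finset.sum_congr rfl (fun z _ => e z), Finset.sum_sub_distrib, ← Finset.sum_mul, h.one x,
    zero_mul, sub_zero, Finset.sum_ite_eq', if_pos (Finset.mem_univ y)]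

theorem vd_m1 {v b k r : ℕ} {N : Matrix (Fin v) (Fin b) ℕ} {H : Matrix (Fin v) (Fin v) ℝ}
    (h : SD k r N H) :
    H * Lm r N * (H * H) = ((r : ℝ) * ((k : ℝ) - 1)) • (H * H * H) - H * H := by
  have e : H * Lm r N * (H * H) = H * (Lm r N * H) * H := by
    simp only [Matrix.mul_assoc]
  rw [e, vd_inv h, Matrix.mul_sub, Matrix.sub_mul, vd_P h, Matrix.mul_smul, Matrix.smul_mul]

theorem vd_m2 {v b k r : ℕ} {N : Matrix (Fin v) (Fin b) ℕ} {H : Matrix (Fin v) (Fin v) ℝ}
    (h : SD k r N H) :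
    H * H * Lm r N * H = ((r : ℝ) * ((k : ℝ) - 1)) • (H * H * H) - H * H := by
  have e : H * H * Lm r N * H = H * (H * (Lm r N * H)) := by
    simp only [Matrix.mul_assoc]
  rw [e, vd_inv h, Matrix.mul_sub, vd_P h, Matrix.mul_sub, Matrix.mul_smul, Matrix.mul_smul,
    ← Matrix.mul_assoc]

theorem vd_bf {v : ℕ} (A B : Matrix (Fin v) (Fin v) ℝ) (t : ℝ) (e q : Fin v → ℝ) :
    bf (t • A - B) e q = t * bf A e q - bf B e q := by
  unfold bf
  rw [Matrix.sub_mulVec, Matrix.smul_mulVec, dotProduct_sub, dotProduct_smul, smul_eq_mul]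

theorem vd_add {v b : ℕ} (N : Matrix (Fin v) (Fin b) ℕ) (f g : Fin v → Fin b → ℝ) :
    fs N (fun w l => f w l + g w l) = fs N f + fs N g := by
  unfold fs
  rw [← Finset.sum_add_distrib]
  apply Finset.sum_congr rfl
  intro w _
  rw [← Finset.sum_add_distrib]
  apply Finset.sum_congr rfl
  intro l _
  ring

theorem vd_smul {v b : ℕ} (N : Matrix (Fin v) (Fin b) ℕ) (t : ℝ) (f : Fin v → Fin b → ℝ) :
    fs N (fun w l => t * f w l) = t * fs N f := by
  unfold fs
  rw [Finset.mul_sum]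
  apply Finset.sum_congr rfl
  intro w _
  rw [Finset.mul_sum]
  apply Finset.sum_congr rfl
  intro l _
  ring

theorem vd_HH {v : ℕ} {H : Matrix (Fin v) (Fin v) ℝ} (h : H.IsSymm) : (H * H).IsSymm := by
  unfold Matrix.IsSymm at h ⊢
  rw [Matrix.transpose_mul, h]

theorem vd_three {v : ℕ} {H : Matrix (Fin v) (Fin v) ℝ} (h : H.IsSymm) (q : Fin v → ℝ) :
    ∑ w, bf H (un w) q * bf (H * H) (un w) q = bf (H * H * H) q q := by
  have e1 : ∀ (A : Matrix (Fin v) (Fin v) ℝ) (w : Fin v), bf A (un w) q = (A *ᵥ q) w := by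
    intro A w
    rw [bf_un_left]
    rfl
  have e2 : ∑ w, bf H (un w) q * bf (H * H) (un w) q = (H *ᵥ q) ⬝ᵥ ((H * H) *ᵥ q) := by
    unfold dotProduct
    apply Finset.sum_congr rfl
    intro w _
    rw [e1, e1]
  have e3 : H *ᵥ q = q ᵥ* H := by
    have h' : Hᵀ = H := h
    rw [← Matrix.mulVec_transpose, h']
  rw [e2, e3, ← Matrix.dotProduct_mulVec, Matrix.mulVec_mulVec, ← Matrix.mul_assoc]
  rfl

theorem fs_d {v b k r : ℕ} {N : Matrix (Fin v) (Fin b) ℕ} {H : Matrix (Fin v) (Fin v) ℝ} (hv : 1 ≤ v) (h : SD k r N H) (e q : Fin v → ℝ) :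
    fs N (fun w l => wd H (un w) q (un w) q) =
        r * (trace H * bf (H * H) q q + trace (H * H) * bf H q q - 2 * bf (H * H * H) q q) ∧
      fs N (fun w l => wd H e (qf N w l) (un w) q) =
        2 * ((r : ℝ) * ((k : ℝ) - 1) * bf (H * H * H) e q - bf (H * H) e q) -
          bf H e q * fs N (cf H N) - bf (H * H) e q * fs N (af H N) := by
  have hHH := vd_HH h.sym
  constructor
  · rw [vd_fs h.des (fun w => wd H (un w) q (un w) q)]
    have e1 : ∀ w, wd H (un w) q (un w) q = H w w * bf (H * H) q q + (H * H) w w * bf H q q -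
        2 * (bf H (un w) q * bf (H * H) (un w) q) := by
      intro w
      unfold wd
      rw [bf_un, bf_un, bf_symm (H * H) hHH q (un w), bf_symm H h.sym q (un w)]
      ring
    rw [Finset.sum_congr rfl (fun w _ => e1 w), Finset.sum_sub_distrib, Finset.sum_add_distrib,
      ← Finset.sum_mul, ← Finset.sum_mul, ← Finset.mul_sum, vd_three h.sym]
    rfl
  · have e1 : (fun w l => wd H e (qf N w l) (un w) q) = fun (w : Fin v) (l : Fin b) =>
        (bf H e (un w) * bf (H * H) (qf N w l) q + bf (H * H) e (un w) * bf H (qf N w l) q) +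
          ((-bf H e q) * cf H N w l + (-bf (H * H) e q) * af H N w l) := by
      funext w l
      unfold wd cf af
      rw [bf_symm (H * H) hHH (qf N w l) (un w), bf_symm H h.sym (qf N w l) (un w)]
      ring
    rw [e1, vd_add N (fun w l => bf H e (un w) * bf (H * H) (qf N w l) q +
        bf (H * H) e (un w) * bf H (qf N w l) q)
        (fun w l => (-bf H e q) * cf H N w l + (-bf (H * H) e q) * af H N w l),
      vd_add N (fun w l => bf H e (un w) * bf (H * H) (qf N w l) q)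
        (fun w l => bf (H * H) e (un w) * bf H (qf N w l) q),
      vd_add N (fun w l => (-bf H e q) * cf H N w l) (fun w l => (-bf (H * H) e q) * af H N w l),
      vd_smul N (-bf H e q) (fun w l => cf H N w l),
      vd_smul N (-bf (H * H) e q) (fun w l => af H N w l),
      vd_mul h.des, vd_mul h.des, vd_m1 h, vd_m2 h, vd_bf]
    ring

end HCR
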