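import Mathlib
import Pool.Agent.Lib_helper88.HCR.Defs
import Pool.Agent.Lib_helper88.SPR.Defs
import Pool.Agent.Lib_helper88.SPR.bi
import Pool.Agent.Lib_helper88.SPR.lm
import Pool.Agent.Lib_helper88.SPR.vc
import Pool.Agent.Lib_helper88.SPR.vd

set_option autoImplicit false

namespace HCR

open Finset Matrix

theorem fs_one {v b k r : ℕ} {N : Matrix (Fin v) (Fin b) ℕ} (h : IsDes k r N) (t : ℝ) :
    fs N (fun _ _ => t) = (v : ℝ) * r * t := by
  unfold fs
  have h1 : ∀ w : Fin v, ∑ l, (N w l : ℝ) * t = r * t := by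
    intro w
    rw [← Finset.sum_mul]
    congr 1
    exact_mod_cast h.2 w
  simp only [h1]
  rw [Finset.sum_const, Finset.card_univ, Fintype.card_fin, nsmul_eq_mul]
  ring

theorem ve_add {v b : ℕ} (N : Matrix (Fin v) (Fin b) ℕ) (g g' : Fin v → Fin b → ℝ) :
    fs N (fun w l => g w l + g' w l) = fs N g + fs N g' := by
  unfold fs
  rw [← Finset.sum_add_distrib]
  apply Finset.sum_congr rfl
  intro w _
  rw [← Finset.sum_add_distrib]
  apply Finset.sum_congr rfl
  intro l _
  ring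

theorem ve_sub {v b : ℕ} (N : Matrix (Fin v) (Fin b) ℕ) (g g' : Fin v → Fin b → ℝ) :
    fs N (fun w l => g w l - g' w l) = fs N g - fs N g' := by
  unfold fs
  rw [← Finset.sum_sub_distrib]
  apply Finset.sum_congr rfl
  intro w _
  rw [← Finset.sum_sub_distrib]
  apply Finset.sum_congr rfl
  intro l _
  ring

theorem ve_mul {v b : ℕ} (N : Matrix (Fin v) (Fin b) ℕ) (c : ℝ) (g : Fin v → Fin b → ℝ) :
    fs N (fun w l => c * g w l) = c * fs N g := by
  unfold fs
  rw [Finset.mul_sum]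
  apply Finset.sum_congr rfl
  intro w _
  rw [Finset.mul_sum]
  apply Finset.sum_congr rfl
  intro l _
  ring

theorem ve_lin {v b : ℕ} (N : Matrix (Fin v) (Fin b) ℕ)
    (F : Fin v → Fin b → Fin v → Fin v → ℝ) :
    fs N (fun w l => ∑ x, ∑ y, F w l x y) = ∑ x, ∑ y, fs N (fun w l => F w l x y) := by
  unfold fs
  simp only [Finset.mul_sum]
  calc ∑ w, ∑ l, ∑ x, ∑ y, (N w l : ℝ) * F w l x y
      = ∑ w, ∑ x, ∑ l, ∑ y, (N w l : ℝ) * F w l x y :=
        Finset.sum_congr rfl fun w _ => Finset.sum_comm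
    _ = ∑ x, ∑ w, ∑ l, ∑ y, (N w l : ℝ) * F w l x y := Finset.sum_comm
    _ = ∑ x, ∑ w, ∑ y, ∑ l, (N w l : ℝ) * F w l x y :=
        Finset.sum_congr rfl fun x _ => Finset.sum_congr rfl fun w _ => Finset.sum_comm
    _ = ∑ x, ∑ y, ∑ w, ∑ l, (N w l : ℝ) * F w l x y :=
        Finset.sum_congr rfl fun x _ => Finset.sum_comm

/-- the sum of `un w ⊗ qf` against a matrix -/
theorem ve_uq {v b k r : ℕ} {N : Matrix (Fin v) (Fin b) ℕ} (h : IsDes k r N)
    (G : Matrix (Fin v) (Fin v) ℝ) :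
    fs N (fun w l => bf G (un w) (qf N w l)) = ∑ y, ∑ z, G y z * Lm r N y z := by
  simp only [bf_sum]
  rw [ve_lin]
  apply Finset.sum_congr rfl
  intro y _
  apply Finset.sum_congr rfl
  intro z _
  rw [← fs_uq h y z, ← ve_mul]
  congr 1
  funext w l
  ring

theorem ve_qq {v b k r : ℕ} {N : Matrix (Fin v) (Fin b) ℕ} (h : IsDes k r N)
    (G : Matrix (Fin v) (Fin v) ℝ) :
    fs N (Qf G N) = ((k : ℝ) - 2) * (∑ y, ∑ z, G y z * Lm r N y z) +
      ((k : ℝ) - 1) * r * trace G := by
  have h0 : Qf G N = fun w l => ∑ y, ∑ z, qf N w l y * G y z * qf N w l z := by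
    funext w l
    rw [Qf, bf_sum]
  rw [h0, ve_lin]
  have h1 : ∀ y z, fs N (fun w l => qf N w l y * G y z * qf N w l z) =
      ((k : ℝ) - 2) * (G y z * Lm r N y z) +
        if y = z then ((k : ℝ) - 1) * r * G y z else 0 := by
    intro y z
    have h2 : fs N (fun w l => qf N w l y * G y z * qf N w l z) =
        G y z * fs N (fun w l => qf N w l y * qf N w l z) := by
      rw [← ve_mul]
      congr 1
      funext w l
      ring
    rw [h2, fs_qq h y z]
    split_ifs
    · ring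
    · ring
  simp only [h1]
  have h3 : ∀ y : Fin v, ∑ z, (((k : ℝ) - 2) * (G y z * Lm r N y z) +
        if y = z then ((k : ℝ) - 1) * r * G y z else 0) =
      ((k : ℝ) - 2) * (∑ z, G y z * Lm r N y z) + ((k : ℝ) - 1) * r * G y y := by
    intro y
    rw [Finset.sum_add_distrib, ← Finset.mul_sum, Finset.sum_ite_eq]
    simp
  simp only [h3]
  rw [Finset.sum_add_distrib, ← Finset.mul_sum, ← Finset.mul_sum]
  rfl

/-- the vectors `qf` sum up to a constant -/
theorem ve_q1 {v b k r : ℕ} {N : Matrix (Fin v) (Fin b) ℕ} (h : IsDes k r N) (y : Fin v) :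
    fs N (fun w l => qf N w l y) = (r : ℝ) * ((k : ℝ) - 1) := by
  have hk : ∀ l : Fin b, ∑ w, (N w l : ℝ) = k := fun l => by exact_mod_cast h.1 l
  have hr : ∀ w : Fin v, ∑ l, (N w l : ℝ) = r := fun w => by exact_mod_cast h.2 w
  unfold fs qf
  have h1 : ∀ w l, (N w l : ℝ) * ((N y l : ℝ) - if y = w then (1 : ℝ) else 0) =
      (N w l : ℝ) * (N y l : ℝ) - if y = w then (N w l : ℝ) else 0 := by
    intro w l
    split_ifs
    · ring
    · ring
  simp only [h1, Finset.sum_sub_distrib]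
  have h2 : ∑ w, ∑ l, (N w l : ℝ) * (N y l : ℝ) = k * r := by
    rw [Finset.sum_comm]
    calc ∑ l, ∑ w, (N w l : ℝ) * (N y l : ℝ) = ∑ l, (k : ℝ) * (N y l : ℝ) := by
          apply Finset.sum_congr rfl
          intro l _
          rw [← Finset.sum_mul, hk l]
      _ = k * r := by rw [← Finset.mul_sum, hr y]
  have h3 : ∑ w, ∑ l, (if y = w then (N w l : ℝ) else 0) = r := by
    rw [Finset.sum_comm]
    simp only [Finset.sum_ite_eq, Finset.mem_univ, if_true]
    exact hr y
  rw [h2, h3]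
  ring

theorem ve_u1 {v b k r : ℕ} {N : Matrix (Fin v) (Fin b) ℕ} (h : IsDes k r N) (y : Fin v) :
    fs N (fun w _ => un w y) = (r : ℝ) := by
  have hr : ∀ w : Fin v, ∑ l, (N w l : ℝ) = r := fun w => by exact_mod_cast h.2 w
  unfold fs un
  have h1 : ∀ w l, (N w l : ℝ) * (if y = w then (1 : ℝ) else 0) =
      if y = w then (N w l : ℝ) else 0 := by
    intro w l
    split_ifs
    · ring
    · ring
  simp only [h1]
  rw [Finset.sum_comm]
  simp only [Finset.sum_ite_eq, Finset.mem_univ, if_true]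
  exact hr y

theorem ve_HH {v b k r : ℕ} {N : Matrix (Fin v) (Fin b) ℕ} {H : Matrix (Fin v) (Fin v) ℝ}
    (h : SD k r N H) :
    (∀ x, ∑ y, (H * H) x y = 0) ∧ (∀ y, ∑ x, (H * H) x y = 0) ∧ (∀ y, ∑ x, H x y = 0) ∧
      ∀ x y, (H * H) x y = (H * H) y x := by
  have hs : ∀ x y, H x y = H y x := fun x y => h.sym.apply y x
  have hc : ∀ y, ∑ x, H x y = 0 := by
    intro y
    rw [← h.one y]
    exact Finset.sum_congr rfl fun x _ => hs x y
  have hr2 : ∀ x, ∑ y, (H * H) x y = 0 := by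
    intro x
    simp only [Matrix.mul_apply]
    rw [Finset.sum_comm]
    apply Finset.sum_eq_zero
    intro z _
    rw [← Finset.mul_sum, h.one z, mul_zero]
  have hs2 : ∀ x y, (H * H) x y = (H * H) y x := by
    intro x y
    simp only [Matrix.mul_apply]
    apply Finset.sum_congr rfl
    intro z _
    rw [hs x z, hs z y]
    ring
  refine ⟨hr2, fun y => ?_, hc, hs2⟩
  rw [← hr2 y]
  exact Finset.sum_congr rfl fun x _ => hs2 x y

/-- the traces -/
theorem ve_tr {v b k r : ℕ} {N : Matrix (Fin v) (Fin b) ℕ} {H : Matrix (Fin v) (Fin v) ℝ}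
    (hv : 1 ≤ v) (h : SD k r N H) :
    ∑ y, ∑ z, H y z * Lm r N y z = (r : ℝ) * ((k : ℝ) - 1) * trace H - ((v : ℝ) - 1) ∧
    ∑ y, ∑ z, (H * H) y z * Lm r N y z =
      (r : ℝ) * ((k : ℝ) - 1) * trace (H * H) - trace H := by
  obtain ⟨h1, h2, h3, h4⟩ := ve_HH h
  have hs : ∀ x y, H x y = H y x := fun x y => h.sym.apply y x
  have hv0 : (v : ℝ) ≠ 0 := by
    have : (0 : ℝ) < v := by exact_mod_cast hv
    exact this.ne'
  constructor
  · have e1 : ∀ y, ∑ z, H y z * Lm r N y z =
        (r : ℝ) * ((k : ℝ) - 1) * H y y - (1 - 1 / (v : ℝ)) := by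
      intro y
      have e2 := h.inv y y
      rw [if_pos rfl] at e2
      have e3 : ∑ z, H y z * Lm r N y z = (Lm r N * H) y y := by
        rw [Matrix.mul_apply]
        apply Finset.sum_congr rfl
        intro z _
        rw [hs y z]
        ring
      rw [e3]
      linarith
    simp only [e1]
    rw [Finset.sum_sub_distrib, ← Finset.mul_sum, Finset.sum_const, Finset.card_univ,
      Fintype.card_fin, nsmul_eq_mul]
    have e4 : ∑ y, H y y = trace H := rfl
    rw [e4]
    field_simp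
  · have e1 : ∀ y, ∑ z, (H * H) y z * Lm r N y z =
        (r : ℝ) * ((k : ℝ) - 1) * (H * H) y y - H y y := by
      intro y
      have e3 : ∑ z, (H * H) y z * Lm r N y z = (Lm r N * H * H) y y := by
        rw [Matrix.mul_assoc, Matrix.mul_apply]
        apply Finset.sum_congr rfl
        intro z _
        rw [h4 y z]
        ring
      have e2 : ∀ x, (Lm r N * H) y x * H x y = (r : ℝ) * ((k : ℝ) - 1) * (H y x * H x y) -
          (if y = x then H x y else 0) + 1 / (v : ℝ) * H x y := by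
        intro x
        have e4 := h.inv y x
        have e5 : (Lm r N * H) y x = (r : ℝ) * ((k : ℝ) - 1) * H y x -
            ((if y = x then (1 : ℝ) else 0) - 1 / (v : ℝ)) := by linarith
        rw [e5]
        split_ifs
        · ring
        · ring
      rw [e3, Matrix.mul_apply]
      simp only [e2]
      rw [Finset.sum_add_distrib, Finset.sum_sub_distrib, ← Finset.mul_sum, ← Finset.mul_sum,
        h3 y, mul_zero, add_zero, Finset.sum_ite_eq, if_pos (Finset.mem_univ _),
        ← Matrix.mul_apply]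
    simp only [e1]
    rw [Finset.sum_sub_distrib, ← Finset.mul_sum]
    rfl

theorem fs_e {v b k r : ℕ} {N : Matrix (Fin v) (Fin b) ℕ} {H : Matrix (Fin v) (Fin v) ℝ} (hv : 1 ≤ v) (h : SD k r N H) (e q : Fin v → ℝ) :
    fs N (fun w l => bf (H * H) (e - un w) (q - qf N w l)) =
        (v : ℝ) * r * bf (H * H) e q + fs N (cf H N) ∧
      fs N (af H N) = (r : ℝ) * ((k : ℝ) - 1) * trace H - ((v : ℝ) - 1) ∧
      fs N (cf H N) = (r : ℝ) * ((k : ℝ) - 1) * trace (H * H) - trace H ∧
      fs N (Qf H N) = ((k : ℝ) - 1) ^ 2 * r * trace H - ((k : ℝ) - 2) * ((v : ℝ) - 1) ∧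
      fs N (Qf (H * H) N) = ((k : ℝ) - 1) ^ 2 * r * trace (H * H) - ((k : ℝ) - 2) * trace H := by
  obtain ⟨h1, h2, h3, h4⟩ := ve_HH h
  obtain ⟨t1, t2⟩ := ve_tr hv h
  have hd := h.des
  refine ⟨?_, ?_, ?_, ?_, ?_⟩
  · have e0 : (fun (w : Fin v) (l : Fin b) => bf (H * H) (e - un w) (q - qf N w l)) =
        fun w l => (bf (H * H) e q - bf (H * H) e (qf N w l)) -
          (bf (H * H) (un w) q - cf H N w l) := by
      funext w l
      rw [(bf_lin (H * H) e (un w) (q - qf N w l) 1).2.1, (bf_lin (H * H) q (qf N w l) e 1).2.2.2.1,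
        (bf_lin (H * H) q (qf N w l) (un w) 1).2.2.2.1]
      rfl
    have e1 : fs N (fun w l => bf (H * H) e (qf N w l)) = 0 := by
      simp only [bf_sum]
      rw [ve_lin]
      apply Finset.sum_eq_zero
      intro x _
      have e2 : ∀ y, fs N (fun w l => e x * (H * H) x y * qf N w l y) =
          e x * (H * H) x y * ((r : ℝ) * ((k : ℝ) - 1)) := by
        intro y
        rw [ve_mul, ve_q1 hd]
      simp only [e2]
      rw [← Finset.sum_mul, ← Finset.mul_sum, h1 x]
      ring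
    have e3 : fs N (fun w _ => bf (H * H) (un w) q) = 0 := by
      simp only [bf_sum]
      rw [ve_lin, Finset.sum_comm]
      apply Finset.sum_eq_zero
      intro y _
      have e2 : ∀ x, fs N (fun w _ => un w x * (H * H) x y * q y) =
          (H * H) x y * (q y * (r : ℝ)) := by
        intro x
        rw [← ve_u1 hd x, ← ve_mul, ← ve_mul]
        congr 1
        funext w l
        ring
      simp only [e2]
      rw [← Finset.sum_mul, h2 y]
      ring
    rw [e0, ve_sub, ve_sub, ve_sub, e1, e3, fs_one hd]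
    ring
  · rw [← t1, ← ve_uq hd]
    rfl
  · rw [← t2, ← ve_uq hd]
    rfl
  · rw [ve_qq hd, t1]
    ring
  · rw [ve_qq hd, t2]
    ring

end HCR
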