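import Mathlib
import Pool.Agent.Lib_helper88.HCR.Defs
import Pool.Agent.Lib_helper88.SPR.Defs
import Pool.Agent.Lib_helper88.SPR.bi
import Pool.Agent.Lib_helper88.SPR.rf
import Pool.Agent.Lib_helper88.SPR.ve
import Pool.Agent.Lib_helper88.SPR.ba

set_option autoImplicit false

namespace HCR

open Finset Matrix

/-- sum over the flags of a function of the treatment -/
theorem bb_fs_diag {v b k r : ℕ} {N : Matrix (Fin v) (Fin b) ℕ} (h : IsDes k r N)
    (G : Matrix (Fin v) (Fin v) ℝ) : fs N (fun w _ => G w w) = (r : ℝ) * trace G := by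
  unfold fs
  have h1 : ∀ w, ∑ l, (N w l : ℝ) * G w w = (r : ℝ) * G w w := by
    intro w
    rw [← Finset.sum_mul]
    have h2 := h.2 w
    have h3 : ∑ l, (N w l : ℝ) = (r : ℝ) := by
      rw [← h2]
      push_cast
      rfl
    rw [h3]
  rw [Finset.sum_congr rfl fun w _ => h1 w, ← Finset.mul_sum]
  rfl

/-- linearity -/
theorem bb_fs_lin {v b : ℕ} (N : Matrix (Fin v) (Fin b) ℕ) (s t : ℝ)
    (f g p : Fin v → Fin b → ℝ) :
    fs N (fun w l => s * f w l - t * g w l + p w l) = s * fs N f - t * fs N g + fs N p := by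
  unfold fs
  simp only [Finset.mul_sum]
  simp only [← Finset.sum_sub_distrib, ← Finset.sum_add_distrib]
  refine Finset.sum_congr rfl fun w _ => Finset.sum_congr rfl fun l _ => ?_
  ring

theorem fs_R {v b k r : ℕ} {N : Matrix (Fin v) (Fin b) ℕ} {H : Matrix (Fin v) (Fin v) ℝ} (hv : 1 ≤ v) (h : SD k r N H) :
    fs N (fun w l => bf H (wf k N w l) (wf k N w l)) = k * ((v : ℝ) - 1) ∧
      fs N (fun w l => bf (H * H) (wf k N w l) (wf k N w l)) = k * trace H := by
  have hHH : (H * H).IsSymm := by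
    unfold Matrix.IsSymm
    rw [transpose_mul, h.sym.eq]
  obtain ⟨-, h1, h2, h3, h4⟩ := fs_e hv h (0 : Fin v → ℝ) (0 : Fin v → ℝ)
  constructor
  · have h5 : (fun w l => bf H (wf k N w l) (wf k N w l)) = fun (w : Fin v) (l : Fin b) =>
        ((k : ℝ) - 1) ^ 2 * H w w - 2 * ((k : ℝ) - 1) * af H N w l + Qf H N w l := by
      ext w l
      exact Rf_eq k N H h.sym w l
    rw [h5, bb_fs_lin N (((k : ℝ) - 1) ^ 2) (2 * ((k : ℝ) - 1)) (fun w _ => H w w) (af H N)
      (Qf H N), bb_fs_diag h.des, h1, h3]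
    ring
  · have h5 : (fun w l => bf (H * H) (wf k N w l) (wf k N w l)) = fun (w : Fin v) (l : Fin b) =>
        ((k : ℝ) - 1) ^ 2 * (H * H) w w - 2 * ((k : ℝ) - 1) * cf H N w l + Qf (H * H) N w l := by
      ext w l
      exact Rf_eq k N (H * H) hHH w l
    rw [h5, bb_fs_lin N (((k : ℝ) - 1) ^ 2) (2 * ((k : ℝ) - 1)) (fun w _ => (H * H) w w) (cf H N)
      (Qf (H * H) N), bb_fs_diag h.des, h2, h4]
    ring

theorem Dbar_le {v b k r : ℕ} {N : Matrix (Fin v) (Fin b) ℕ} {H : Matrix (Fin v) (Fin v) ℝ} (hv : 1 ≤ v) (h : SD k r N H) (E Z : ℝ) (hE : ∀ x, H x x ≤ E)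
    (hZ : ∀ x, (H * H) x x ≤ Z) :
    fs N (Df H N) ≤ 2 * (k * ((v : ℝ) - 1) * Z + k * trace H * E) := by
  have hHH : (H * H).IsSymm := by
    unfold Matrix.IsSymm
    rw [transpose_mul, h.sym.eq]
  have hHHp : ∀ p : Fin v → ℝ, 0 ≤ bf (H * H) p p := by
    intro p
    rw [bf_sq H h.sym]
    unfold dotProduct
    exact Finset.sum_nonneg fun i _ => mul_self_nonneg _
  obtain ⟨h1, h2⟩ := fs_R hv h
  have h3 : ∀ w l, Df H N w l ≤ 2 * (bf H (wf k N w l) (wf k N w l) * Z +
      E * bf (H * H) (wf k N w l) (wf k N w l)) := by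
    intro w l
    obtain ⟨hR, hS⟩ := Rf_nonneg h w l
    have he0 : 0 ≤ H w w := by
      have := h.psd (un w)
      rwa [bf_un] at this
    have hz0 : 0 ≤ (H * H) w w := by
      have := hHHp (un w)
      rwa [bf_un] at this
    have ha : bf H (wf k N w l) (un w) = ((k : ℝ) - 1) * H w w - af H N w l := by
      rw [wf_eq, (bf_lin H (((k : ℝ) - 1) • un w) (qf N w l) (un w) 0).2.1,
        (bf_lin H (un w) (un w) (un w) ((k : ℝ) - 1)).2.2.2.2.1, bf_un,
        bf_symm H h.sym (qf N w l) (un w)]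
      rfl
    have hc : bf (H * H) (wf k N w l) (un w) = ((k : ℝ) - 1) * (H * H) w w - cf H N w l := by
      rw [wf_eq, (bf_lin (H * H) (((k : ℝ) - 1) • un w) (qf N w l) (un w) 0).2.1,
        (bf_lin (H * H) (un w) (un w) (un w) ((k : ℝ) - 1)).2.2.2.2.1, bf_un,
        bf_symm (H * H) hHH (qf N w l) (un w)]
      rfl
    have ha2 := bf_cs H h.sym h.psd (wf k N w l) (un w)
    have hc2 := bf_cs (H * H) hHH hHHp (wf k N w l) (un w)
    rw [bf_un, ha] at ha2
    rw [bf_un, hc] at hc2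
    rw [(Df_eq k N H h.sym w l).2]
    generalize bf H (wf k N w l) (wf k N w l) = R at *
    generalize bf (H * H) (wf k N w l) (wf k N w l) = S at *
    generalize ((k : ℝ) - 1) * H w w - af H N w l = a at *
    generalize ((k : ℝ) - 1) * (H * H) w w - cf H N w l = c at *
    have h4 : (2 * a * c) ^ 2 ≤ (R * (H * H) w w + H w w * S) ^ 2 := by
      have h5 : a ^ 2 * c ^ 2 ≤ (R * H w w) * (S * (H * H) w w) :=
        mul_le_mul ha2 hc2 (sq_nonneg _) (mul_nonneg hR he0)
      nlinarith [sq_nonneg (R * (H * H) w w - H w w * S)]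
    have h5 : 0 ≤ R * (H * H) w w + H w w * S :=
      add_nonneg (mul_nonneg hR hz0) (mul_nonneg he0 hS)
    have h6 := (abs_le_of_sq_le_sq' h4 h5).1
    have h7 : R * (H * H) w w ≤ R * Z := mul_le_mul_of_nonneg_left (hZ w) hR
    have h8 : H w w * S ≤ E * S := mul_le_mul_of_nonneg_right (hE w) hS
    linarith
  have h4 : fs N (Df H N) ≤ fs N (fun w l => 2 * (bf H (wf k N w l) (wf k N w l) * Z +
      E * bf (H * H) (wf k N w l) (wf k N w l))) := by
    unfold fs
    refine Finset.sum_le_sum fun w _ => Finset.sum_le_sum fun l _ => ?_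
    exact mul_le_mul_of_nonneg_left (h3 w l) (Nat.cast_nonneg _)
  have h5 : fs N (fun w l => 2 * (bf H (wf k N w l) (wf k N w l) * Z +
      E * bf (H * H) (wf k N w l) (wf k N w l))) =
      2 * Z * fs N (fun w l => bf H (wf k N w l) (wf k N w l)) +
      2 * E * fs N (fun w l => bf (H * H) (wf k N w l) (wf k N w l)) := by
    unfold fs
    simp only [Finset.mul_sum]
    simp only [← Finset.sum_add_distrib]
    refine Finset.sum_congr rfl fun w _ => Finset.sum_congr rfl fun l _ => ?_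
    ring
  rw [h5, h1, h2] at h4
  linarith

end HCR
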