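import Mathlib
import Pool.Agent.Lib_helper88.HCR.Defs
import Pool.Agent.Lib_helper88.SPR.Defs
import Pool.Agent.Lib_helper88.SPR.bi

set_option autoImplicit false

namespace HCR

open Finset Matrix

theorem bc_ent {v : ℕ} {A : Matrix (Fin v) (Fin v) ℝ} (hA : A.IsSymm)
    (hp : ∀ p : Fin v → ℝ, 0 ≤ bf A p p) {E : ℝ} (hE : ∀ x, A x x ≤ E) (x y : Fin v) :
    |A x y| ≤ E := by
  have h1 := bf_cs A hA hp (un x) (un y)
  rw [bf_un, bf_un, bf_un] at h1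
  have hx : 0 ≤ A x x := by
    have := hp (un x)
    rwa [bf_un] at this
  have hy : 0 ≤ A y y := by
    have := hp (un y)
    rwa [bf_un] at this
  have hE0 : 0 ≤ E := hx.trans (hE x)
  refine abs_le_of_sq_le_sq ?_ hE0
  calc A x y ^ 2 ≤ A x x * A y y := h1
    _ ≤ E * E := mul_le_mul (hE x) (hE y) hy hE0
    _ = E ^ 2 := by ring

theorem bc_one {v : ℕ} {A : Matrix (Fin v) (Fin v) ℝ} {E : ℝ} (hE : ∀ x y, |A x y| ≤ E)
    {q : Fin v → ℝ} (hq : ∀ y, 0 ≤ q y) (x : Fin v) : |bf A (un x) q| ≤ (∑ y, q y) * E := by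
  rw [bf_un_left, Finset.sum_mul]
  refine (Finset.abs_sum_le_sum_abs _ _).trans (Finset.sum_le_sum fun y _ => ?_)
  rw [abs_mul, abs_of_nonneg (hq y), mul_comm]
  exact mul_le_mul_of_nonneg_left (hE x y) (hq y)

theorem bc_two {v : ℕ} {A : Matrix (Fin v) (Fin v) ℝ} {E : ℝ} (hE : ∀ x y, |A x y| ≤ E)
    {q : Fin v → ℝ} (hq : ∀ y, 0 ≤ q y) : bf A q q ≤ (∑ y, q y) ^ 2 * E := by
  rw [bf_sum, pow_two, Finset.sum_mul_sum, Finset.sum_mul]
  refine Finset.sum_le_sum fun x _ => ?_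
  rw [Finset.sum_mul]
  refine Finset.sum_le_sum fun y _ => ?_
  have h1 : A x y ≤ E := (le_abs_self _).trans (hE x y)
  have h2 : 0 ≤ q x * q y := mul_nonneg (hq x) (hq y)
  calc q x * A x y * q y = q x * q y * A x y := by ring
    _ ≤ q x * q y * E := mul_le_mul_of_nonneg_left h1 h2

theorem bc_sqsymm {v : ℕ} {H : Matrix (Fin v) (Fin v) ℝ} (hH : H.IsSymm) : (H * H).IsSymm := by
  unfold Matrix.IsSymm
  rw [Matrix.transpose_mul, hH.eq]

theorem bc_sqpsd {v : ℕ} {H : Matrix (Fin v) (Fin v) ℝ} (hH : H.IsSymm) (p : Fin v → ℝ) :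
    0 ≤ bf (H * H) p p := by
  rw [bf_sq H hH]
  exact Finset.sum_nonneg fun y _ => mul_self_nonneg _

theorem diag_facts {v b k r : ℕ} {N : Matrix (Fin v) (Fin b) ℕ} {H : Matrix (Fin v) (Fin v) ℝ} (h : SD k r N H) (x : Fin v) :
    0 ≤ H x x ∧ (H x x) ^ 2 ≤ (H * H) x x ∧ 0 ≤ trace H ∧ 0 ≤ trace (H * H) := by
  have h1 : ∀ y, 0 ≤ H y y := fun y => by
    have := h.psd (un y)
    rwa [bf_un] at this
  have h2 : ∀ y, 0 ≤ (H * H) y y := fun y => by
    have := bc_sqpsd h.sym (un y)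
    rwa [bf_un] at this
  refine ⟨h1 x, ?_, Finset.sum_nonneg fun y _ => h1 y, Finset.sum_nonneg fun y _ => h2 y⟩
  rw [Matrix.mul_apply, pow_two]
  have h3 : ∀ y ∈ (univ : Finset (Fin v)), 0 ≤ H x y * H y x := by
    intro y _
    have : H y x = H x y := by
      have := congrFun (congrFun h.sym x) y
      rwa [Matrix.transpose_apply] at this
    rw [this]
    exact mul_self_nonneg _
  exact Finset.single_le_sum h3 (Finset.mem_univ x)

theorem bc_qf {v b k r : ℕ} {N : Matrix (Fin v) (Fin b) ℕ} (h : IsDes k r N) (x : Fin v)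
    (j : Fin b) (hx : 0 < N x j) : (∀ y, 0 ≤ qf N x j y) ∧ ∑ y, qf N x j y = (k : ℝ) - 1 := by
  constructor
  · intro y
    unfold qf
    by_cases hy : y = x
    · rw [if_pos hy, hy]
      have : (1 : ℝ) ≤ (N x j : ℝ) := by exact_mod_cast hx
      linarith
    · rw [if_neg hy]
      simp
  · unfold qf
    rw [Finset.sum_sub_distrib, Finset.sum_ite_eq' univ x (fun _ => (1 : ℝ)),
      if_pos (Finset.mem_univ x)]
    have := h.1 j
    have h2 : ∑ y, (N y j : ℝ) = (k : ℝ) := by exact_mod_cast this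
    rw [h2]

theorem sup_facts {v b k r : ℕ} {N : Matrix (Fin v) (Fin b) ℕ} {H : Matrix (Fin v) (Fin v) ℝ} (hk : 1 ≤ k) (h : SD k r N H) (E Z : ℝ) (hE : ∀ x, H x x ≤ E)
    (hZ : ∀ x, (H * H) x x ≤ Z) (x : Fin v) (j : Fin b) (hx : 0 < N x j) :
    |af H N x j| ≤ ((k : ℝ) - 1) * E ∧ 0 ≤ Qf H N x j ∧ Qf H N x j ≤ ((k : ℝ) - 1) ^ 2 * E ∧
      0 ≤ Qf (H * H) N x j ∧ Qf (H * H) N x j ≤ ((k : ℝ) - 1) ^ 2 * Z ∧
      trace H ≤ v * E ∧ trace (H * H) ≤ v * Z ∧ ∑ y, (N y j : ℝ) * (H * H) y y ≤ k * Z := by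
  obtain ⟨hq0, hq1⟩ := bc_qf h.des x j hx
  have hEe := bc_ent h.sym h.psd hE
  have hZe := bc_ent (bc_sqsymm h.sym) (bc_sqpsd h.sym) hZ
  refine ⟨?_, h.psd _, ?_, bc_sqpsd h.sym _, ?_, ?_, ?_, ?_⟩
  · have := bc_one hEe hq0 x
    rwa [hq1] at this
  · have := bc_two hEe hq0
    rwa [hq1] at this
  · have := bc_two hZe hq0
    rwa [hq1] at this
  · unfold Matrix.trace
    refine (Finset.sum_le_sum fun y _ => hE y).trans (le_of_eq ?_)
    rw [Finset.sum_const, Finset.card_univ, Fintype.card_fin, nsmul_eq_mul]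
  · unfold Matrix.trace
    refine (Finset.sum_le_sum fun y _ => hZ y).trans (le_of_eq ?_)
    rw [Finset.sum_const, Finset.card_univ, Fintype.card_fin, nsmul_eq_mul]
  · have h2 : ∑ y, (N y j : ℝ) = (k : ℝ) := by exact_mod_cast h.des.1 j
    rw [← h2, Finset.sum_mul]
    refine Finset.sum_le_sum fun y _ => ?_
    exact mul_le_mul_of_nonneg_left (hZ y) (Nat.cast_nonneg _)

end HCR
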