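import Mathlib
import Pool.Agent.Lib_helper88.HCR.Defs
import Pool.Agent.Lib_helper88.SPR.Defs
import Pool.Agent.Lib_helper88.SPR.bi
import Pool.Agent.Lib_helper88.SPR.lm

set_option autoImplicit false

namespace HCR

open Finset Matrix

theorem bd_sum {v b k r : ℕ} {N : Matrix (Fin v) (Fin b) ℕ} {H : Matrix (Fin v) (Fin v) ℝ}
    (h : SD k r N H) (x : Fin v) :
    ∑ j, (N x j : ℝ) * cf H N x j = (r : ℝ) * ((k : ℝ) - 1) * (H * H) x x - H x x := by
  have hsymm : ∀ a c, H a c = H c a := fun a c => by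
    have := congrFun (congrFun h.sym c) a
    rw [Matrix.transpose_apply] at this
    exact this
  have hLs : ∀ a c, Lm r N a c = Lm r N c a := fun a c => by
    have := congrFun (congrFun (Lm_facts h.des).1 c) a
    rw [Matrix.transpose_apply] at this
    exact this
  have hrow : ∑ j, (N x j : ℝ) = r := by exact_mod_cast h.des.2 x
  have h1 : ∑ j, (N x j : ℝ) * cf H N x j = ∑ y, (H * H) x y * Lm r N x y := by
    have e1 : ∀ j, (N x j : ℝ) * cf H N x j
        = ∑ y, (H * H) x y * ((N x j : ℝ) * (N y j : ℝ) - (N x j : ℝ) * (if y = x then 1 else 0)) := by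
      intro j
      unfold cf
      rw [bf_un_left, Finset.mul_sum]
      refine Finset.sum_congr rfl fun y _ => ?_
      unfold qf
      ring
    simp_rw [e1]
    rw [Finset.sum_comm]
    refine Finset.sum_congr rfl fun y _ => ?_
    rw [← Finset.mul_sum, Finset.sum_sub_distrib, ← Finset.sum_mul, hrow, Lm_apply]
    congr 1
    by_cases hxy : x = y
    · rw [if_pos hxy, if_pos hxy.symm]; ring
    · rw [if_neg hxy, if_neg (fun hh => hxy hh.symm)]; ring
  rw [h1]
  have h2 : ∀ y, (H * H) x y = (H * H) y x := by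
    intro y
    rw [Matrix.mul_apply, Matrix.mul_apply]
    exact Finset.sum_congr rfl fun z _ => by rw [hsymm x z, hsymm z y]; ring
  have h3 : ∑ y, (H * H) x y * Lm r N x y = (Lm r N * (H * H)) x x := by
    rw [Matrix.mul_apply]
    exact Finset.sum_congr rfl fun y _ => by rw [h2 y]; ring
  rw [h3, ← Matrix.mul_assoc, Matrix.mul_apply]
  have h4 : ∀ y, (Lm r N * H) x y * H y x
      = (r : ℝ) * ((k : ℝ) - 1) * (H x y * H y x) - ((if x = y then H y x else 0)
        - 1 / (v : ℝ) * H x y) := by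
    intro y
    have := h.inv x y
    have e : (Lm r N * H) x y = (r : ℝ) * ((k : ℝ) - 1) * H x y
        - ((if x = y then (1 : ℝ) else 0) - 1 / (v : ℝ)) := by linarith
    rw [e]
    rw [hsymm y x]
    split_ifs <;> ring
  simp_rw [h4]
  rw [Finset.sum_sub_distrib, Finset.sum_sub_distrib, ← Finset.mul_sum, ← Finset.mul_sum, h.one x,
    Matrix.mul_apply, Finset.sum_ite_eq]
  simp

theorem flag_avg {v b k r : ℕ} {N : Matrix (Fin v) (Fin b) ℕ} {H : Matrix (Fin v) (Fin v) ℝ} (h : SD k r N H) (C : ℝ)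
    (hC : ∀ x j, 0 < N x j → cf H N x j ≤ C) (x : Fin v) :
    (r : ℝ) * ((k : ℝ) - 1) * (H * H) x x - H x x ≤ r * C := by
  have hrow : ∑ j, (N x j : ℝ) = r := by exact_mod_cast h.des.2 x
  rw [← bd_sum h x, ← hrow, Finset.sum_mul]
  refine Finset.sum_le_sum fun j _ => ?_
  rcases Nat.eq_zero_or_pos (N x j) with h0 | h0
  · rw [h0]; simp
  · exact mul_le_mul_of_nonneg_left (hC x j h0) (Nat.cast_nonneg _)

theorem max_flag {v b k r : ℕ} {N : Matrix (Fin v) (Fin b) ℕ} {H : Matrix (Fin v) (Fin v) ℝ} (hv : 1 ≤ v) (hr : 1 ≤ r) (h : SD k r N H) :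
    ∃ x j, 0 < N x j ∧ ∀ y l, 0 < N y l → cf H N y l ≤ cf H N x j := by
  have hne : (Finset.univ.filter (fun p : Fin v × Fin b => 0 < N p.1 p.2)).Nonempty := by
    by_contra hcon
    rw [Finset.not_nonempty_iff_eq_empty] at hcon
    have hz : ∀ x j, N x j = 0 := by
      intro x j
      by_contra h0
      have : (x, j) ∈ Finset.univ.filter (fun p : Fin v × Fin b => 0 < N p.1 p.2) := by
        rw [mem_filter]
        exact ⟨mem_univ _, Nat.pos_of_ne_zero h0⟩
      rw [hcon] at this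
      exact absurd this (Finset.notMem_empty _)
    have h1 := h.des.2 ⟨0, hv⟩
    simp only [hz, Finset.sum_const_zero] at h1
    omega
  obtain ⟨p, hp, hmax⟩ := Finset.exists_max_image _ (fun p : Fin v × Fin b => cf H N p.1 p.2) hne
  rw [mem_filter] at hp
  refine ⟨p.1, p.2, hp.2, fun y l hyl => ?_⟩
  exact hmax (y, l) (by rw [mem_filter]; exact ⟨mem_univ _, hyl⟩)

theorem max_vertex {v : ℕ} (hv : 1 ≤ v) (H : Matrix (Fin v) (Fin v) ℝ) :
    ∃ x, ∀ y, H y y ≤ H x x := by
  have hne : (Finset.univ : Finset (Fin v)).Nonempty := ⟨⟨0, hv⟩, mem_univ _⟩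
  obtain ⟨x, _, hx⟩ := Finset.exists_max_image _ (fun y => H y y) hne
  exact ⟨x, fun y => hx y (mem_univ _)⟩

theorem fs_le {v b k r : ℕ} {N : Matrix (Fin v) (Fin b) ℕ} (h : IsDes k r N)
    (g g' : Fin v → Fin b → ℝ) (hg : ∀ x j, 0 < N x j → g x j ≤ g' x j) :
    fs N g ≤ fs N g' := by
  unfold fs
  refine Finset.sum_le_sum fun w _ => Finset.sum_le_sum fun l _ => ?_
  rcases Nat.eq_zero_or_pos (N w l) with h0 | h0
  · rw [h0]; simp
  · exact mul_le_mul_of_nonneg_left (hg w l h0) (Nat.cast_nonneg _)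

end HCR
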