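import Mathlib
import Pool.Agent.Lib_helper88.HCR.Defs
import Pool.Agent.Lib_helper88.SPR.Defs
import Pool.Agent.Lib_helper88.SPR.bi
import Pool.Agent.Lib_helper88.SPR.lm

set_option autoImplicit false

namespace HCR

open Finset Matrix

/-- the projection `1 - J / v` -/
noncomputable def tb_P (v : ℕ) : Matrix (Fin v) (Fin v) ℝ :=
  Matrix.of fun x y => (if x = y then (1 : ℝ) else 0) - 1 / (v : ℝ)

theorem tb_P_symm (v : ℕ) : (tb_P v)ᵀ = tb_P v := by
  ext x y
  simp only [tb_P, transpose_apply, of_apply, eq_comm]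

theorem tb_mul_P {v : ℕ} (B : Matrix (Fin v) (Fin v) ℝ) (x y : Fin v) :
    (B * tb_P v) x y = B x y - (∑ z, B x z) / v := by
  rw [Matrix.mul_apply]
  simp only [tb_P, of_apply, mul_sub, mul_ite, mul_one, mul_zero, Finset.sum_sub_distrib,
    Finset.sum_ite_eq', Finset.mem_univ, if_true]
  rw [← Finset.sum_mul, mul_one_div]

theorem tb_M {v k r K M : ℝ} (hP : ParR v k r K M) : r * (k - 1) = M := by
  rw [hP.kK, ← hP.rM]
  ring

theorem tb_F1 {v b k r : ℕ} {N : Matrix (Fin v) (Fin b) ℕ} {H : Matrix (Fin v) (Fin v) ℝ}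
    (h : SD k r N H) (K M : ℝ) (hP : ParR (v : ℝ) k r K M) :
    M • H = tb_P v + Lm r N * H := by
  ext x y
  have h1 := h.inv x y
  rw [tb_M hP] at h1
  simp only [Matrix.smul_apply, Matrix.add_apply, smul_eq_mul, tb_P, of_apply]
  linarith

theorem tb_F2 {v b k r : ℕ} {N : Matrix (Fin v) (Fin b) ℕ} {H : Matrix (Fin v) (Fin v) ℝ}
    (h : SD k r N H) (K M : ℝ) (hP : ParR (v : ℝ) k r K M) :
    M • H = tb_P v + H * Lm r N := by
  have h1 := congrArg Matrix.transpose (tb_F1 h K M hP)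
  have hA : (Lm r N)ᵀ = Lm r N := (Lm_facts h.des).1
  have hH : Hᵀ = H := h.sym
  rwa [Matrix.transpose_smul, Matrix.transpose_add, Matrix.transpose_mul, tb_P_symm, hA, hH] at h1

theorem tb_comm {v b k r : ℕ} {N : Matrix (Fin v) (Fin b) ℕ} {H : Matrix (Fin v) (Fin v) ℝ}
    (h : SD k r N H) (K M : ℝ) (hP : ParR (v : ℝ) k r K M) :
    Lm r N * H = H * Lm r N := by
  have h1 := tb_F1 h K M hP
  rw [tb_F2 h K M hP] at h1
  exact (add_left_cancel h1).symm

theorem tb_PH {v b k r : ℕ} {N : Matrix (Fin v) (Fin b) ℕ} {H : Matrix (Fin v) (Fin v) ℝ}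
    (h : SD k r N H) : tb_P v * H = H := by
  have h0 : H * tb_P v = H := by
    ext x y
    rw [tb_mul_P, h.one x]
    simp
  have h1 := congrArg Matrix.transpose h0
  have hH : Hᵀ = H := h.sym
  rwa [Matrix.transpose_mul, tb_P_symm, hH] at h1

theorem tb_bf_conj {v : ℕ} (B X : Matrix (Fin v) (Fin v) ℝ) (hB : Bᵀ = B) (p : Fin v → ℝ) :
    bf (B * X * B) p p = bf X (B *ᵥ p) (B *ᵥ p) := by
  unfold bf
  rw [← Matrix.mulVec_mulVec, ← Matrix.mulVec_mulVec, Matrix.dotProduct_mulVec,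
    ← Matrix.mulVec_transpose, hB]

theorem tb_bf_comb {v : ℕ} (X Y : Matrix (Fin v) (Fin v) ℝ) (c d : ℝ) (p : Fin v → ℝ) :
    bf (c • X + d • Y) p p = c * bf X p p + d * bf Y p p := by
  unfold bf
  rw [Matrix.add_mulVec, Matrix.smul_mulVec, Matrix.smul_mulVec, dotProduct_add,
    dotProduct_smul, dotProduct_smul, smul_eq_mul, smul_eq_mul]

theorem tb_real {M h0 h1 h2 h3 h4 g0 g1 g2 g3 g4 p0 p1 p2 p3 : ℝ} (hM : M ≠ 0)
    (a0 : M * h0 = p0 + h1) (a1 : M * h1 = p1 + h2) (a2 : M * h2 = p2 + h3)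
    (a3 : M * h3 = p3 + h4) (b0 : M * g0 = h0 + g1) (b1 : M * g1 = h1 + g2)
    (b2 : M * g2 = h2 + g3) (b3 : M * g3 = h3 + g4) :
    (M ^ 2 * g0 - M * h0 = 1 / M * p1 + 2 / M ^ 2 * p2 + 3 / M ^ 3 * p3 +
      (1 / M ^ 2 * g4 + 3 / M ^ 3 * h4)) ∧
    (M ^ 2 * g0 = p0 + 2 / M * p1 + 3 / M ^ 2 * p2 + 4 / M ^ 3 * p3 +
      (1 / M ^ 2 * g4 + 4 / M ^ 3 * h4)) := by
  have h1e : p1 = M * h1 - h2 := by linarith
  have h2e : p2 = M * h2 - h3 := by linarith
  have h3e : p3 = M * h3 - h4 := by linarith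
  have h0e : p0 = M * h0 - h1 := by linarith
  have g4e : g4 = M * g3 - h3 := by linarith
  have g3e : g3 = M * g2 - h2 := by linarith
  have g2e : g2 = M * g1 - h1 := by linarith
  have g1e : g1 = M * g0 - h0 := by linarith
  rw [h0e, h1e, h2e, h3e, g4e, g3e, g2e, g1e]
  constructor
  · field_simp
    ring
  · field_simp
    ring

/-- the remainder matrices of the expansions of order four -/
theorem exp_four {v b k r : ℕ} {N : Matrix (Fin v) (Fin b) ℕ} {H : Matrix (Fin v) (Fin v) ℝ} (hv : 1 ≤ v) (h : SD k r N H) (K M : ℝ)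
    (hP : ParR (v : ℝ) k r K M) :
    ∃ T3 T4 : Matrix (Fin v) (Fin v) ℝ, T3.IsSymm ∧ T4.IsSymm ∧
      (∀ p : Fin v → ℝ, 0 ≤ bf T4 p p) ∧ (∀ p : Fin v → ℝ, 0 ≤ bf T3 p p) ∧
      (∀ p : Fin v → ℝ, bf T4 p p ≤ 4 / 3 * bf T3 p p) ∧
      (∀ x y, M ^ 2 * (H * H) x y - M * H x y = 1 / M * (Lm r N x y - M / v) +
        2 / M ^ 2 * ((Lm r N * Lm r N) x y - M ^ 2 / v) +
        3 / M ^ 3 * ((Lm r N * Lm r N * Lm r N) x y - M ^ 3 / v) + T3 x y) ∧
      (∀ x y, M ^ 2 * (H * H) x y = (if x = y then (1 : ℝ) else 0) - 1 / (v : ℝ) +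
        2 / M * (Lm r N x y - M / v) +
        3 / M ^ 2 * ((Lm r N * Lm r N) x y - M ^ 2 / v) +
        4 / M ^ 3 * ((Lm r N * Lm r N * Lm r N) x y - M ^ 3 / v) + T4 x y) := by
  have hM : 0 < M := hP.M0
  have hA : (Lm r N)ᵀ = Lm r N := (Lm_facts h.des).1
  have hH : Hᵀ = H := h.sym
  have F1 := tb_F1 h K M hP
  have hc := tb_comm h K M hP
  set A := Lm r N with hAdef
  have hB : (A * A)ᵀ = A * A := by rw [Matrix.transpose_mul, hA]
  have hHH : (H * H)ᵀ = H * H := by rw [Matrix.transpose_mul, hH]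
  have hpsd1 : ∀ p, 0 ≤ bf (A * A * H * (A * A)) p p := fun p => by
    rw [tb_bf_conj _ _ hB]
    exact h.psd _
  have hpsd2 : ∀ p, 0 ≤ bf (A * A * (H * H) * (A * A)) p p := fun p => by
    rw [tb_bf_conj _ _ hB, bf_sq H h.sym]
    exact Finset.sum_nonneg fun i _ => mul_self_nonneg _
  have hs1 : (A * A * H * (A * A))ᵀ = A * A * H * (A * A) := by
    rw [Matrix.transpose_mul (A * A * H), Matrix.transpose_mul (A * A) H, hB, hH,
      ← Matrix.mul_assoc (A * A) H]
  have hs2 : (A * A * (H * H) * (A * A))ᵀ = A * A * (H * H) * (A * A) := by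
    rw [Matrix.transpose_mul (A * A * (H * H)), Matrix.transpose_mul (A * A) (H * H), hB, hHH,
      ← Matrix.mul_assoc (A * A) (H * H)]
  -- the symmetric forms
  have hq1 : A * A * H * (A * A) = A * (A * (A * (A * H))) := by
    have : H * (A * A) = A * (A * H) := by
      rw [← Matrix.mul_assoc, ← hc, Matrix.mul_assoc, ← hc]
    rw [Matrix.mul_assoc, this, Matrix.mul_assoc]
  have hq2 : A * A * (H * H) * (A * A) = A * (A * (A * (A * (H * H)))) := by
    have h1 : H * (A * A) = A * (A * H) := by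
      rw [← Matrix.mul_assoc, ← hc, Matrix.mul_assoc, ← hc]
    have h2 : H * H * (A * A) = A * (A * (H * H)) := by
      rw [Matrix.mul_assoc, h1, ← Matrix.mul_assoc H A, ← hc, Matrix.mul_assoc A H,
        ← Matrix.mul_assoc H A, ← hc, Matrix.mul_assoc]
    rw [Matrix.mul_assoc, h2, Matrix.mul_assoc]
  -- row sums
  have rs1 : ∀ x, ∑ y, A x y = M := by
    intro x
    rw [(Lm_facts h.des).2.2.1 x, tb_M hP]
  have rsm : ∀ (B : Matrix (Fin v) (Fin v) ℝ) (c : ℝ), (∀ x, ∑ y, B x y = c) →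
      ∀ x, ∑ y, (A * B) x y = M * c := by
    intro B c hBc x
    simp only [Matrix.mul_apply]
    rw [Finset.sum_comm]
    simp only [← Finset.mul_sum, hBc]
    rw [← Finset.sum_mul, rs1]
  have rs2 : ∀ x, ∑ y, (A * A) x y = M ^ 2 := by
    intro x
    rw [rsm A M rs1 x, pow_two]
  have rs3 : ∀ x, ∑ y, (A * (A * A)) x y = M ^ 3 := by
    intro x
    rw [rsm (A * A) (M ^ 2) rs2 x]
    ring
  -- the recursions
  have E0 : M • H = tb_P v + A * H := F1
  have E1 : M • (A * H) = A * tb_P v + A * (A * H) := by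
    rw [← Matrix.mul_smul, E0, Matrix.mul_add]
  have E2 : M • (A * (A * H)) = A * A * tb_P v + A * (A * (A * H)) := by
    rw [← Matrix.mul_smul, E1, Matrix.mul_add, Matrix.mul_assoc]
  have E3 : M • (A * (A * (A * H))) = A * (A * A) * tb_P v + A * (A * (A * (A * H))) := by
    rw [← Matrix.mul_smul, E2, Matrix.mul_add, Matrix.mul_assoc A (A * A)]
  have G0 : M • (H * H) = H + A * (H * H) := by
    rw [← Matrix.smul_mul, E0, Matrix.add_mul, tb_PH h, Matrix.mul_assoc]
  have G1 : M • (A * (H * H)) = A * H + A * (A * (H * H)) := by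
    rw [← Matrix.mul_smul, G0, Matrix.mul_add]
  have G2 : M • (A * (A * (H * H))) = A * (A * H) + A * (A * (A * (H * H))) := by
    rw [← Matrix.mul_smul, G1, Matrix.mul_add]
  have G3 : M • (A * (A * (A * (H * H)))) = A * (A * (A * H)) + A * (A * (A * (A * (H * H)))) := by
    rw [← Matrix.mul_smul, G2, Matrix.mul_add]
  have key : ∀ x y, _ := fun x y => tb_real (M := M) (h0 := H x y) (h1 := (A * H) x y)
    (h2 := (A * (A * H)) x y) (h3 := (A * (A * (A * H))) x y)
    (h4 := (A * (A * (A * (A * H)))) x y) (g0 := (H * H) x y) (g1 := (A * (H * H)) x y)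
    (g2 := (A * (A * (H * H))) x y) (g3 := (A * (A * (A * (H * H)))) x y)
    (g4 := (A * (A * (A * (A * (H * H))))) x y)
    (p0 := (if x = y then (1 : ℝ) else 0) - 1 / (v : ℝ)) (p1 := A x y - M / v)
    (p2 := (A * A) x y - M ^ 2 / v) (p3 := (A * A * A) x y - M ^ 3 / v) hM.ne'
    (by
      have := congrFun (congrFun E0 x) y
      simpa only [Matrix.smul_apply, Matrix.add_apply, smul_eq_mul, tb_P, of_apply] using this)
    (by
      have := congrFun (congrFun E1 x) y
      rwa [Matrix.smul_apply, Matrix.add_apply, smul_eq_mul, tb_mul_P, rs1] at this)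
    (by
      have := congrFun (congrFun E2 x) y
      rwa [Matrix.smul_apply, Matrix.add_apply, smul_eq_mul, tb_mul_P, rs2] at this)
    (by
      have := congrFun (congrFun E3 x) y
      rwa [Matrix.smul_apply, Matrix.add_apply, smul_eq_mul, tb_mul_P, rs3,
        ← Matrix.mul_assoc A A A] at this)
    (by
      have := congrFun (congrFun G0 x) y
      rwa [Matrix.smul_apply, Matrix.add_apply, smul_eq_mul] at this)
    (by
      have := congrFun (congrFun G1 x) y
      rwa [Matrix.smul_apply, Matrix.add_apply, smul_eq_mul] at this)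
    (by
      have := congrFun (congrFun G2 x) y
      rwa [Matrix.smul_apply, Matrix.add_apply, smul_eq_mul] at this)
    (by
      have := congrFun (congrFun G3 x) y
      rwa [Matrix.smul_apply, Matrix.add_apply, smul_eq_mul] at this)
  refine ⟨(1 / M ^ 2) • (A * A * (H * H) * (A * A)) + (3 / M ^ 3) • (A * A * H * (A * A)),
    (1 / M ^ 2) • (A * A * (H * H) * (A * A)) + (4 / M ^ 3) • (A * A * H * (A * A)),
    ?_, ?_, ?_, ?_, ?_, ?_, ?_⟩
  · unfold Matrix.IsSymm
    rw [Matrix.transpose_add, Matrix.transpose_smul, Matrix.transpose_smul, hs1, hs2]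
  · unfold Matrix.IsSymm
    rw [Matrix.transpose_add, Matrix.transpose_smul, Matrix.transpose_smul, hs1, hs2]
  · intro p
    rw [tb_bf_comb]
    have := hpsd1 p
    have := hpsd2 p
    positivity
  · intro p
    rw [tb_bf_comb]
    have := hpsd1 p
    have := hpsd2 p
    positivity
  · intro p
    rw [tb_bf_comb, tb_bf_comb]
    have h1 := hpsd1 p
    have h2 := hpsd2 p
    have h3 : 0 ≤ 1 / M ^ 2 * bf (A * A * (H * H) * (A * A)) p p := by positivity
    have h4 : 4 / 3 * (3 / M ^ 3 * bf (A * A * H * (A * A)) p p) =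
        4 / M ^ 3 * bf (A * A * H * (A * A)) p p := by ring
    linarith
  · intro x y
    rw [(key x y).1, Matrix.add_apply, Matrix.smul_apply, Matrix.smul_apply, smul_eq_mul,
      smul_eq_mul, hq1, hq2]
  · intro x y
    rw [(key x y).2, Matrix.add_apply, Matrix.smul_apply, Matrix.smul_apply, smul_eq_mul,
      smul_eq_mul, hq1, hq2]

end HCR
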