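import Mathlib
import Pool.Agent.Lib_helper88.HCR.Defs
import Pool.Agent.Lib_helper88.SPR.Defs
import Pool.Agent.Lib_helper88.SPR.bi
import Pool.Agent.Lib_helper88.SPR.lm
import Pool.Agent.Lib_helper88.SPR.ve
import Pool.Agent.Lib_helper88.SPR.tb

set_option autoImplicit false

namespace HCR

open Finset Matrix

theorem cbar_lower {v b k r : ℕ} {N : Matrix (Fin v) (Fin b) ℕ} {H : Matrix (Fin v) (Fin v) ℝ} (hv : 1 ≤ v) (h : SD k r N H) (K M : ℝ)
    (hP : ParR (v : ℝ) k r K M) :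
    (2 * (v : ℝ) / M - 6) / M ≤ fs N (cf H N) := by
  have hM := hP.M0
  have hv0 := hP.v0
  have hfc := (fs_e hv h 0 0).2.2.1
  obtain ⟨T3, T4, -, -, -, hT3, -, hid, -⟩ := exp_four hv h K M hP
  obtain ⟨-, hL0, -, -, hL3, hL2⟩ := Lm_facts h.des
  have hrM : (r : ℝ) * ((k : ℝ) - 1) = M := by
    rw [hP.kK, ← hP.rM]
    ring
  rw [hrM] at hfc
  have hL2' : ∀ x, M ≤ (Lm r N * Lm r N) x x := fun x => by
    rw [← hrM]
    exact hL2 x
  have hT : ∀ x, 0 ≤ T3 x x := fun x => by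
    rw [← bf_un T3 x x]
    exact hT3 _
  have hx : ∀ x, 1 / M * (0 - M / v) + 2 / M ^ 2 * (M - M ^ 2 / v) +
      3 / M ^ 3 * (0 - M ^ 3 / v) ≤ M ^ 2 * (H * H) x x - M * H x x := by
    intro x
    rw [hid x x]
    have h1 : 1 / M * (0 - M / v) ≤ 1 / M * (Lm r N x x - M / v) := by
      apply mul_le_mul_of_nonneg_left _ (by positivity)
      linarith [hL0 x x]
    have h2 : 2 / M ^ 2 * (M - M ^ 2 / v) ≤
        2 / M ^ 2 * ((Lm r N * Lm r N) x x - M ^ 2 / v) := by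
      apply mul_le_mul_of_nonneg_left _ (by positivity)
      linarith [hL2' x]
    have h3 : 3 / M ^ 3 * (0 - M ^ 3 / v) ≤
        3 / M ^ 3 * ((Lm r N * Lm r N * Lm r N) x x - M ^ 3 / v) := by
      apply mul_le_mul_of_nonneg_left _ (by positivity)
      linarith [hL3 x x]
    linarith [hT x]
  have hsum := Finset.sum_le_sum (fun x (_ : x ∈ (Finset.univ : Finset (Fin v))) => hx x)
  rw [Finset.sum_const, Finset.card_univ, Fintype.card_fin, nsmul_eq_mul,
    Finset.sum_sub_distrib, ← Finset.mul_sum, ← Finset.mul_sum] at hsum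
  have htH : ∑ x, H x x = trace H := rfl
  have htHH : ∑ x, (H * H) x x = trace (H * H) := rfl
  rw [htH, htHH] at hsum
  have hl : (v : ℝ) * (1 / M * (0 - M / v) + 2 / M ^ 2 * (M - M ^ 2 / v) +
      3 / M ^ 3 * (0 - M ^ 3 / v)) = 2 * (v : ℝ) / M - 6 := by
    field_simp
    ring
  rw [hl] at hsum
  rw [hfc]
  have h4 : M * trace (H * H) - trace H = (M ^ 2 * trace (H * H) - M * trace H) / M := by
    field_simp
  rw [h4]
  gcongr

end HCR
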