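import Mathlib
import Pool.Agent.Lib_helper88.HCR.Defs
import Pool.Agent.Lib_helper88.SPR.Defs
import Pool.Agent.Lib_helper88.SPR.bi

set_option autoImplicit false

namespace HCR

open Finset Matrix

theorem va_add {v b : ℕ} (N : Matrix (Fin v) (Fin b) ℕ) (g g' : Fin v → Fin b → ℝ) :
    fs N (fun w l => g w l + g' w l) = fs N g + fs N g' := by
  unfold fs
  rw [← Finset.sum_add_distrib]
  refine Finset.sum_congr rfl (fun w _ => ?_)
  rw [← Finset.sum_add_distrib]
  refine Finset.sum_congr rfl (fun l _ => ?_)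
  ring

theorem va_mul {v b : ℕ} (N : Matrix (Fin v) (Fin b) ℕ) (t : ℝ) (g : Fin v → Fin b → ℝ) :
    fs N (fun w l => t * g w l) = t * fs N g := by
  unfold fs
  rw [Finset.mul_sum]
  refine Finset.sum_congr rfl (fun w _ => ?_)
  rw [Finset.mul_sum]
  refine Finset.sum_congr rfl (fun l _ => ?_)
  ring

/-- the linear functional `∑ β z (qf z)` -/
theorem va_qf {v b : ℕ} (N : Matrix (Fin v) (Fin b) ℕ) (β : Fin v → ℝ) (w : Fin v) (l : Fin b) :
    ∑ z, β z * qf N w l z = (∑ z, β z * (N z l : ℝ)) - β w := by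
  unfold qf
  simp only [mul_sub, Finset.sum_sub_distrib, mul_ite, mul_one, mul_zero]
  simp

/-- sums over flags of a product, symmetric in the two functions -/
theorem va_sym {v b : ℕ} (N : Matrix (Fin v) (Fin b) ℕ) (α β : Fin v → ℝ) :
    fs N (fun w l => α w * ∑ z, β z * qf N w l z) =
      fs N (fun w l => β w * ∑ z, α z * qf N w l z) := by
  unfold fs
  rw [Finset.sum_comm]
  conv_rhs => rw [Finset.sum_comm]
  refine Finset.sum_congr rfl (fun l _ => ?_)
  simp only [va_qf]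
  have h1 : ∀ α β : Fin v → ℝ, ∑ w, (N w l : ℝ) * (α w * ((∑ z, β z * (N z l : ℝ)) - β w)) =
      (∑ w, α w * (N w l : ℝ)) * (∑ z, β z * (N z l : ℝ)) - ∑ w, (N w l : ℝ) * (α w * β w) := by
    intro α β
    rw [Finset.sum_mul, ← Finset.sum_sub_distrib]
    exact Finset.sum_congr rfl (fun w _ => by ring)
  rw [h1, h1, mul_comm (∑ w, α w * (N w l : ℝ))]
  congr 1
  exact Finset.sum_congr rfl (fun w _ => by ring)

theorem va_one {v b k r : ℕ} {N : Matrix (Fin v) (Fin b) ℕ} (h : IsDes k r N) (β : Fin v → ℝ) :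
    fs N (fun w _ => β w) = r * ∑ w, β w := by
  unfold fs
  rw [Finset.mul_sum]
  refine Finset.sum_congr rfl (fun w _ => ?_)
  rw [← Finset.sum_mul]
  congr 1
  exact_mod_cast h.2 w

theorem va_two {v b k r : ℕ} {N : Matrix (Fin v) (Fin b) ℕ} (h : IsDes k r N) (β : Fin v → ℝ) :
    fs N (fun w l => ∑ z, β z * qf N w l z) = r * ((k : ℝ) - 1) * ∑ w, β w := by
  have hk : ∀ l, ∑ w, (N w l : ℝ) = k := fun l => by exact_mod_cast h.1 l
  have hr : ∀ w, ∑ l, (N w l : ℝ) = r := fun w => by exact_mod_cast h.2 w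
  unfold fs
  simp only [va_qf, mul_sub, Finset.sum_sub_distrib]
  have h1 : ∑ w, ∑ l, (N w l : ℝ) * ∑ z, β z * (N z l : ℝ) = r * k * ∑ w, β w := by
    rw [Finset.sum_comm]
    simp only [← Finset.sum_mul, hk]
    rw [← Finset.mul_sum, Finset.sum_comm]
    simp only [← Finset.mul_sum, hr]
    rw [← Finset.sum_mul]
    ring
  have h2 : ∑ w, ∑ l, (N w l : ℝ) * β w = r * ∑ w, β w := by
    simp only [← Finset.sum_mul, hr]
    rw [Finset.mul_sum]
  rw [h1, h2]
  ring

/-- a symmetric matrix with zero row sums -/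
theorem va_P {v : ℕ} (P : Matrix (Fin v) (Fin v) ℝ) (hP : P.IsSymm) (h0 : ∀ x, ∑ y, P x y = 0)
    (e : Fin v → ℝ) : ∑ y, (P *ᵥ e) y = 0 := by
  unfold mulVec dotProduct
  rw [Finset.sum_comm]
  refine Finset.sum_eq_zero (fun y _ => ?_)
  rw [← Finset.sum_mul]
  have h1 : ∑ x, P x y = ∑ x, P y x := Finset.sum_congr rfl (fun x _ => hP.apply y x)
  rw [h1, h0, zero_mul]

theorem va_bfu {v : ℕ} (P : Matrix (Fin v) (Fin v) ℝ) (hP : P.IsSymm) (e : Fin v → ℝ)
    (w : Fin v) : bf P e (un w) = (P *ᵥ e) w := by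
  rw [bf_symm P hP, bf_un_left]
  rfl

theorem va_bfq {v b : ℕ} (N : Matrix (Fin v) (Fin b) ℕ) (P : Matrix (Fin v) (Fin v) ℝ)
    (hP : P.IsSymm) (e : Fin v → ℝ)
    (w : Fin v) (l : Fin b) : bf P e (qf N w l) = ∑ z, (P *ᵥ e) z * qf N w l z := by
  rw [bf_symm P hP]
  unfold bf dotProduct
  exact Finset.sum_congr rfl (fun z _ => mul_comm _ _)

theorem va_HH {v : ℕ} (H : Matrix (Fin v) (Fin v) ℝ) (h0 : ∀ x, ∑ y, H x y = 0) (x : Fin v) :
    ∑ y, (H * H) x y = 0 := by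
  simp only [Matrix.mul_apply]
  rw [Finset.sum_comm]
  refine Finset.sum_eq_zero (fun y _ => ?_)
  rw [← Finset.mul_sum, h0, mul_zero]

theorem fs_a {v b k r : ℕ} {N : Matrix (Fin v) (Fin b) ℕ} {H : Matrix (Fin v) (Fin v) ℝ} (h : SD k r N H) (e q : Fin v → ℝ) :
    fs N (fun w l => wd H e q (un w) (qf N w l)) = 0 ∧
      fs N (fun w l => wd H e q e (qf N w l)) = 0 ∧
      fs N (fun w _ => wd H e q (un w) q) = 0 := by
  have hH := h.sym
  have hHH : (H * H).IsSymm := by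
    rw [Matrix.IsSymm, Matrix.transpose_mul, hH.eq]
  have s1 := va_P H hH h.one
  have s2 := va_P (H * H) hHH (va_HH H h.one)
  refine ⟨?_, ?_, ?_⟩
  · have h1 : (fun (w : Fin v) (l : Fin b) => wd H e q (un w) (qf N w l)) = (fun w l =>
        ((H *ᵥ e) w * ∑ z, ((H * H) *ᵥ q) z * qf N w l z) +
        ((((H * H) *ᵥ e) w * ∑ z, (H *ᵥ q) z * qf N w l z) +
        ((-1) * (((H * H) *ᵥ q) w * ∑ z, (H *ᵥ e) z * qf N w l z) +
        (-1) * ((H *ᵥ q) w * ∑ z, ((H * H) *ᵥ e) z * qf N w l z)))) := by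
      funext w l
      unfold wd
      rw [va_bfu H hH, va_bfu H hH, va_bfu (H * H) hHH, va_bfu (H * H) hHH,
        va_bfq N H hH, va_bfq N H hH, va_bfq N (H * H) hHH, va_bfq N (H * H) hHH]
      ring
    rw [h1, va_add, va_add, va_add, va_mul, va_mul, va_sym N (H *ᵥ e),
      va_sym N ((H * H) *ᵥ e)]
    ring
  · have h1 : (fun (w : Fin v) (l : Fin b) => wd H e q e (qf N w l)) = (fun w l =>
        (bf H e e * ∑ z, ((H * H) *ᵥ q) z * qf N w l z) +
        ((bf (H * H) e e * ∑ z, (H *ᵥ q) z * qf N w l z) +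
        ((-(bf (H * H) q e)) * (∑ z, (H *ᵥ e) z * qf N w l z) +
        (-(bf H q e)) * (∑ z, ((H * H) *ᵥ e) z * qf N w l z)))) := by
      funext w l
      unfold wd
      rw [va_bfq N H hH, va_bfq N H hH, va_bfq N (H * H) hHH, va_bfq N (H * H) hHH]
      ring
    rw [h1, va_add, va_add, va_add, va_mul, va_mul, va_mul, va_mul, va_two h.des, va_two h.des,
      va_two h.des, va_two h.des, s1, s1, s2, s2]
    ring
  · have h1 : (fun (w : Fin v) (l : Fin b) => wd H e q (un w) q) = (fun (w : Fin v) (_ : Fin b) =>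
        (bf (H * H) q q * (H *ᵥ e) w) +
        ((bf H q q * ((H * H) *ᵥ e) w) +
        ((-(bf H e q)) * ((H * H) *ᵥ q) w +
        (-(bf (H * H) e q)) * (H *ᵥ q) w))) := by
      funext w l
      unfold wd
      rw [va_bfu H hH, va_bfu H hH, va_bfu (H * H) hHH, va_bfu (H * H) hHH]
      ring
    rw [h1, va_add, va_add, va_add, va_mul, va_mul, va_mul, va_mul, va_one h.des, va_one h.des,
      va_one h.des, va_one h.des, s1, s1, s2, s2]
    ring

end HCR
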