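import Mathlib
import Pool.Agent.Lib_helper88.HCR.Defs
import Pool.Agent.Lib_helper88.SPR.Defs
import Pool.Agent.Lib_helper88.SPR.bi
import Pool.Agent.Lib_helper88.SPR.lm

set_option autoImplicit false

namespace HCR

open Finset Matrix

/-- block `l` as a real vector -/
theorem vb_qf {v b : ℕ} (N : Matrix (Fin v) (Fin b) ℕ) (w : Fin v) (l : Fin b) :
    qf N w l = (fun y => (N y l : ℝ)) - un w := by
  ext y
  simp [qf, un]

theorem vb_un_left {v : ℕ} (G : Matrix (Fin v) (Fin v) ℝ) (w : Fin v) (s : Fin v → ℝ) :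
    bf G (un w) s = (G *ᵥ s) w := by
  rw [bf_un_left]
  rfl

/-- sum over the treatments of a block -/
theorem vb_sum_w {v b : ℕ} (N : Matrix (Fin v) (Fin b) ℕ) (G : Matrix (Fin v) (Fin v) ℝ)
    (l : Fin b) (s : Fin v → ℝ) :
    ∑ w, (N w l : ℝ) * bf G (un w) s = bf G (fun y => (N y l : ℝ)) s := by
  rw [bf_sum]
  refine Finset.sum_congr rfl fun w _ => ?_
  rw [bf_un_left, Finset.mul_sum]
  exact Finset.sum_congr rfl fun y _ => by ring

/-- sum over the blocks through a treatment -/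
theorem vb_sum_l {v b : ℕ} (r : ℕ) (N : Matrix (Fin v) (Fin b) ℕ)
    (G : Matrix (Fin v) (Fin v) ℝ) (w : Fin v) (s : Fin v → ℝ) :
    ∑ l, (N w l : ℝ) * bf G (fun y => (N y l : ℝ)) s =
      (Lm r N *ᵥ (G *ᵥ s)) w + (r : ℝ) * (G *ᵥ s) w := by
  have h1 : (Lm r N *ᵥ (G *ᵥ s)) w + (r : ℝ) * (G *ᵥ s) w =
      ∑ y, (∑ l, (N w l : ℝ) * (N y l : ℝ)) * (G *ᵥ s) y := by
    have h2 : (r : ℝ) * (G *ᵥ s) w = ∑ y, (if w = y then (r : ℝ) else 0) * (G *ᵥ s) y := by
      simp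
    have h3 : (Lm r N *ᵥ (G *ᵥ s)) w = ∑ y, Lm r N w y * (G *ᵥ s) y := rfl
    rw [h2, h3, ← Finset.sum_add_distrib]
    refine Finset.sum_congr rfl fun y _ => ?_
    rw [Lm_apply]
    ring
  rw [h1]
  have h4 : ∀ l, (N w l : ℝ) * bf G (fun y => (N y l : ℝ)) s =
      ∑ y, (N w l : ℝ) * (N y l : ℝ) * (G *ᵥ s) y := by
    intro l
    have h5 : bf G (fun y => (N y l : ℝ)) s = ∑ y, (N y l : ℝ) * (G *ᵥ s) y := rfl
    rw [h5, Finset.mul_sum]
    exact Finset.sum_congr rfl fun y _ => by ring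
  rw [Finset.sum_congr rfl fun l _ => h4 l, Finset.sum_comm]
  refine Finset.sum_congr rfl fun y _ => ?_
  rw [Finset.sum_mul]

theorem vb_LmH {v b k r : ℕ} {N : Matrix (Fin v) (Fin b) ℕ} {H : Matrix (Fin v) (Fin v) ℝ}
    (h : SD k r N H) (s : Fin v → ℝ) (w : Fin v) :
    (Lm r N *ᵥ (H *ᵥ s)) w = (r : ℝ) * ((k : ℝ) - 1) * (H *ᵥ s) w - s w + (∑ y, s y) / v := by
  rw [mulVec_mulVec]
  have h1 : ∀ y, (Lm r N * H) w y * s y = (r : ℝ) * ((k : ℝ) - 1) * (H w y * s y) -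
      (if w = y then (1 : ℝ) else 0) * s y + s y / v := by
    intro y
    have h2 := h.inv w y
    have h3 : (Lm r N * H) w y = (r : ℝ) * ((k : ℝ) - 1) * H w y -
      ((if w = y then (1 : ℝ) else 0) - 1 / (v : ℝ)) := by linarith
    rw [h3]
    ring
  have h4 : ((Lm r N * H) *ᵥ s) w = ∑ y, (Lm r N * H) w y * s y := rfl
  have h5 : (H *ᵥ s) w = ∑ y, H w y * s y := rfl
  rw [h4, h5, Finset.sum_congr rfl fun y _ => h1 y, Finset.sum_add_distrib,
    Finset.sum_sub_distrib, ← Finset.mul_sum, Finset.sum_div]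
  simp

theorem vb_sumH {v b k r : ℕ} {N : Matrix (Fin v) (Fin b) ℕ} {H : Matrix (Fin v) (Fin v) ℝ}
    (h : SD k r N H) (s : Fin v → ℝ) : ∑ y, (H *ᵥ s) y = 0 := by
  have h1 : ∀ y, (H *ᵥ s) y = ∑ x, H y x * s x := fun y => rfl
  rw [Finset.sum_congr rfl fun y _ => h1 y, Finset.sum_comm]
  refine Finset.sum_eq_zero fun x _ => ?_
  rw [← Finset.sum_mul]
  have h2 : ∑ y, H y x = ∑ y, H x y := Finset.sum_congr rfl fun y _ => h.sym.apply x y
  rw [h2, h.one, zero_mul]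

/-- the summand -/
theorem vb_expand {v : ℕ} (H : Matrix (Fin v) (Fin v) ℝ) (u c e q : Fin v → ℝ) :
    wd H u (c - u) e (c - u) + wd H u (c - u) u q =
      (bf H u e * bf (H * H) c c + bf (H * H) u e * bf H c c -
        bf H u c * bf (H * H) c e - bf (H * H) u c * bf H c e) +
      (bf H u u * bf (H * H) c (e + q) + bf (H * H) u u * bf H c (e + q) -
        bf H u (e + q) * bf (H * H) c u - bf (H * H) u (e + q) * bf H c u) := by
  unfold wd
  simp only [(bf_lin H c u _ 0).2.1, (bf_lin (H * H) c u _ 0).2.1, (bf_lin H c u _ 0).2.2.2.1,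
    (bf_lin (H * H) c u _ 0).2.2.2.1, (bf_lin H e q _ 0).2.2.1, (bf_lin (H * H) e q _ 0).2.2.1]
  ring

theorem fs_b {v b k r : ℕ} {N : Matrix (Fin v) (Fin b) ℕ} {H : Matrix (Fin v) (Fin v) ℝ} (hv : 1 ≤ v) (h : SD k r N H) (e q : Fin v → ℝ) :
    fs N (fun w l => wd H (un w) (qf N w l) e (qf N w l) + wd H (un w) (qf N w l) (un w) q) =
      -(∑ y, (H * H) y y * (e y + q y)) + (∑ y, (e y + q y)) * (∑ y, (H * H) y y) / v := by
  unfold fs
  have h1 : ∀ w l, (N w l : ℝ) * (wd H (un w) (qf N w l) e (qf N w l) +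
      wd H (un w) (qf N w l) (un w) q) =
      ((N w l : ℝ) * bf H (un w) e * bf (H * H) (fun y => (N y l : ℝ)) (fun y => (N y l : ℝ)) +
        (N w l : ℝ) * bf (H * H) (un w) e * bf H (fun y => (N y l : ℝ)) (fun y => (N y l : ℝ)) -
        (N w l : ℝ) * bf H (un w) (fun y => (N y l : ℝ)) * bf (H * H) (fun y => (N y l : ℝ)) e -
        (N w l : ℝ) * bf (H * H) (un w) (fun y => (N y l : ℝ)) * bf H (fun y => (N y l : ℝ)) e) +
      (bf H (un w) (un w) * ((N w l : ℝ) * bf (H * H) (fun y => (N y l : ℝ)) (e + q)) +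
        bf (H * H) (un w) (un w) * ((N w l : ℝ) * bf H (fun y => (N y l : ℝ)) (e + q)) -
        bf H (un w) (e + q) * ((N w l : ℝ) * bf (H * H) (fun y => (N y l : ℝ)) (un w)) -
        bf (H * H) (un w) (e + q) * ((N w l : ℝ) * bf H (fun y => (N y l : ℝ)) (un w))) := by
    intro w l
    rw [vb_qf, vb_expand]
    ring
  rw [Finset.sum_congr rfl fun w _ => Finset.sum_congr rfl fun l _ => h1 w l]
  have h2 : ∑ w, ∑ l, ((N w l : ℝ) * bf H (un w) e * bf (H * H) (fun y => (N y l : ℝ)) (fun y => (N y l : ℝ)) +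
        (N w l : ℝ) * bf (H * H) (un w) e * bf H (fun y => (N y l : ℝ)) (fun y => (N y l : ℝ)) -
        (N w l : ℝ) * bf H (un w) (fun y => (N y l : ℝ)) * bf (H * H) (fun y => (N y l : ℝ)) e -
        (N w l : ℝ) * bf (H * H) (un w) (fun y => (N y l : ℝ)) * bf H (fun y => (N y l : ℝ)) e) = 0 := by
    rw [Finset.sum_comm]
    refine Finset.sum_eq_zero fun l _ => ?_
    rw [Finset.sum_sub_distrib, Finset.sum_sub_distrib, Finset.sum_add_distrib,
      ← Finset.sum_mul, ← Finset.sum_mul, ← Finset.sum_mul, ← Finset.sum_mul,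
      vb_sum_w, vb_sum_w, vb_sum_w, vb_sum_w]
    ring
  have hu : ∀ w : Fin v, ∑ y, un w y = (1 : ℝ) := by
    intro w
    simp [un]
  have huw : ∀ w : Fin v, un w w = (1 : ℝ) := by
    intro w
    simp [un]
  have h3 : ∀ w, ∑ l, (bf H (un w) (un w) * ((N w l : ℝ) * bf (H * H) (fun y => (N y l : ℝ)) (e + q)) +
        bf (H * H) (un w) (un w) * ((N w l : ℝ) * bf H (fun y => (N y l : ℝ)) (e + q)) -
        bf H (un w) (e + q) * ((N w l : ℝ) * bf (H * H) (fun y => (N y l : ℝ)) (un w)) -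
        bf (H * H) (un w) (e + q) * ((N w l : ℝ) * bf H (fun y => (N y l : ℝ)) (un w))) =
      -((H * H) w w * (e w + q w)) + (H * H) w w * ((∑ y, (e y + q y)) / v) +
        (1 - 1 / (v : ℝ)) * (H *ᵥ (H *ᵥ (e + q))) w := by
    intro w
    rw [Finset.sum_sub_distrib, Finset.sum_sub_distrib, Finset.sum_add_distrib,
      ← Finset.mul_sum, ← Finset.mul_sum, ← Finset.mul_sum, ← Finset.mul_sum,
      vb_sum_l r, vb_sum_l r, vb_sum_l r, vb_sum_l r, vb_un_left H w (e + q),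
      vb_un_left (H * H) w (e + q), bf_un, bf_un, ← mulVec_mulVec, ← mulVec_mulVec,
      vb_LmH h, vb_LmH h, vb_LmH h, vb_LmH h, vb_sumH h, vb_sumH h, hu, huw]
    have h4 : (H *ᵥ (un w)) w = H w w := by
      rw [← vb_un_left, bf_un]
    have h5 : (H *ᵥ (H *ᵥ (un w))) w = (H * H) w w := by
      rw [mulVec_mulVec, ← vb_un_left, bf_un]
    rw [h4, h5]
    simp only [Pi.add_apply]
    ring
  rw [Finset.sum_congr rfl fun w _ => Finset.sum_add_distrib, Finset.sum_add_distrib, h2,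
    zero_add, Finset.sum_congr rfl fun w _ => h3 w, Finset.sum_add_distrib,
    Finset.sum_add_distrib, ← Finset.mul_sum, vb_sumH h, Finset.sum_neg_distrib, ← Finset.sum_mul]
  ring

end HCR
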