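import Mathlib
import Pool.Agent.Lib_helper88.HCR.Defs
import Pool.Agent.Lib_helper88.SPR.Defs
import Pool.Agent.Lib_helper88.SPR.bi
import Pool.Agent.Lib_helper88.SPR.lm
import Pool.Agent.Lib_helper88.SPR.va
import Pool.Agent.Lib_helper88.SPR.vb
import Pool.Agent.Lib_helper88.SPR.vc
import Pool.Agent.Lib_helper88.SPR.vd
import Pool.Agent.Lib_helper88.SPR.ve
import Pool.Agent.Lib_helper88.SPR.rf

set_option autoImplicit false

namespace HCR

open Finset Matrix

theorem vf_bf {v : ℕ} (H : Matrix (Fin v) (Fin v) ℝ) (a b c d : Fin v → ℝ) :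
    bf H (a - b) (c - d) = bf H a c - bf H a d - bf H b c + bf H b d := by
  rw [(bf_lin H a b (c - d) 0).2.1, (bf_lin H c d a 0).2.2.2.1, (bf_lin H c d b 0).2.2.2.1]
  ring

theorem vf_wd {v : ℕ} (H : Matrix (Fin v) (Fin v) ℝ) (hH : H.IsSymm) (e q u g : Fin v → ℝ) :
    wd H (e - u) (q - g) (e - u) (q - g) = wd H e q e q + wd H u g u g + 2 * wd H e q u g -
      2 * wd H e q e g - 2 * wd H e q u q - 2 * (wd H u g e g + wd H u g u q) +
      wd H e g e g + wd H u q u q + 2 * wd H e g u q := by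
  have hHH : (H * H).IsSymm := by
    rw [Matrix.IsSymm, Matrix.transpose_mul, hH.eq]
  unfold wd
  simp only [vf_bf]
  rw [bf_symm H hH u e, bf_symm (H * H) hHH u e, bf_symm H hH q e, bf_symm (H * H) hHH q e,
    bf_symm H hH g e, bf_symm (H * H) hHH g e, bf_symm H hH q u, bf_symm (H * H) hHH q u,
    bf_symm H hH g u, bf_symm (H * H) hHH g u, bf_symm H hH g q, bf_symm (H * H) hHH g q]
  ring

theorem vf_add {v b : ℕ} (N : Matrix (Fin v) (Fin b) ℕ) (g g' : Fin v → Fin b → ℝ) :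
    fs N (fun w l => g w l + g' w l) = fs N g + fs N g' := by
  unfold fs
  rw [← Finset.sum_add_distrib]
  refine Finset.sum_congr rfl (fun w _ => ?_)
  rw [← Finset.sum_add_distrib]
  refine Finset.sum_congr rfl (fun l _ => ?_)
  ring

theorem vf_mul {v b : ℕ} (N : Matrix (Fin v) (Fin b) ℕ) (t : ℝ) (g : Fin v → Fin b → ℝ) :
    fs N (fun w l => t * g w l) = t * fs N g := by
  unfold fs
  rw [Finset.mul_sum]
  refine Finset.sum_congr rfl (fun w _ => ?_)
  rw [Finset.mul_sum]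
  refine Finset.sum_congr rfl (fun l _ => ?_)
  ring

theorem vf_le {v b : ℕ} (N : Matrix (Fin v) (Fin b) ℕ)
    (g g' : Fin v → Fin b → ℝ) (hg : ∀ x j, 0 < N x j → g x j ≤ g' x j) :
    fs N g ≤ fs N g' := by
  unfold fs
  refine Finset.sum_le_sum (fun w _ => Finset.sum_le_sum (fun l _ => ?_))
  rcases Nat.eq_zero_or_pos (N w l) with h | h
  · rw [h]; simp
  · exact mul_le_mul_of_nonneg_left (hg w l h) (Nat.cast_nonneg _)

theorem vf_real (v r k c Fc D FD tH tHH R Sf e z a NZ Q Q2 t1 t2 t3 Fa FQ FQ2 : ℝ)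
    (hv : 0 < v) (hr : 0 < r)
    (hR : R = (k - 1) ^ 2 * e - 2 * (k - 1) * a + Q)
    (hS : Sf = (k - 1) ^ 2 * z - 2 * (k - 1) * c + Q2)
    (hFa : Fa = r * (k - 1) * tH - (v - 1)) (hFc : Fc = r * (k - 1) * tHH - tH)
    (hFQ : FQ = (k - 1) ^ 2 * r * tH - (k - 2) * (v - 1))
    (hFQ2 : FQ2 = (k - 1) ^ 2 * r * tHH - (k - 2) * tH)
    (h3 : 0 ≤ (k - 1) ^ 2 * t1 - 2 * (k - 1) * t2 + t3)
    (hI : 2 * (v * r * c + Fc) ≤ v * r * D + FD + 2 * 0 - 2 * 0 - 2 * 0 -
      2 * (-NZ + k * tHH / v) +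
      (e * FQ2 + z * FQ - 2 * ((k - 1) ^ 2 * r * t1 - (k - 2) * z)) +
      r * (tH * Q2 + tHH * Q - 2 * t3) +
      2 * (2 * (r * (k - 1) * t2 - c) - a * Fc - c * Fa)) :
    2 * c + 2 * (Fc / (v * r)) ≤ D + FD / (v * r) + tHH / v * R + tH / v * Sf -
      tH / v / r * ((k - 2) * e - 2 * a) - (1 - 1 / v) / r * ((k - 2) * z - 2 * c) +
      2 / (v * r) * ((k - 2) * z - 2 * c + NZ - k * (tHH / v)) := by
  have key : (D + FD / (v * r) + tHH / v * R + tH / v * Sf -
      tH / v / r * ((k - 2) * e - 2 * a) - (1 - 1 / v) / r * ((k - 2) * z - 2 * c) +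
      2 / (v * r) * ((k - 2) * z - 2 * c + NZ - k * (tHH / v))) -
      (2 * c + 2 * (Fc / (v * r))) =
      ((v * r * D + FD + 2 * 0 - 2 * 0 - 2 * 0 -
      2 * (-NZ + k * tHH / v) +
      (e * FQ2 + z * FQ - 2 * ((k - 1) ^ 2 * r * t1 - (k - 2) * z)) +
      r * (tH * Q2 + tHH * Q - 2 * t3) +
      2 * (2 * (r * (k - 1) * t2 - c) - a * Fc - c * Fa)) - 2 * (v * r * c + Fc) +
      2 * r * ((k - 1) ^ 2 * t1 - 2 * (k - 1) * t2 + t3)) / (v * r) := by
    rw [hR, hS, hFa, hFc, hFQ, hFQ2]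
    field_simp
    ring
  have h4 : 0 ≤ ((v * r * D + FD + 2 * 0 - 2 * 0 - 2 * 0 -
      2 * (-NZ + k * tHH / v) +
      (e * FQ2 + z * FQ - 2 * ((k - 1) ^ 2 * r * t1 - (k - 2) * z)) +
      r * (tH * Q2 + tHH * Q - 2 * t3) +
      2 * (2 * (r * (k - 1) * t2 - c) - a * Fc - c * Fa)) - 2 * (v * r * c + Fc) +
      2 * r * ((k - 1) ^ 2 * t1 - 2 * (k - 1) * t2 + t3)) / (v * r) := by
    apply div_nonneg _ (by positivity)
    have := mul_nonneg (by positivity : (0 : ℝ) ≤ 2 * r) h3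
    linarith
  linarith

/-- the averaged exchange inequality -/
theorem avg {v b k r : ℕ} {N : Matrix (Fin v) (Fin b) ℕ} {H : Matrix (Fin v) (Fin v) ℝ} (hv : 1 ≤ v) (hr : 1 ≤ r) (hk : 1 ≤ k) (h : SD k r N H)
    (x : Fin v) (j : Fin b) (hx : 0 < N x j) :
    2 * cf H N x j + 2 * (fs N (cf H N) / ((v : ℝ) * r)) ≤
      Df H N x j + fs N (Df H N) / ((v : ℝ) * r) +
        trace (H * H) / v * bf H (wf k N x j) (wf k N x j) +
        trace H / v * bf (H * H) (wf k N x j) (wf k N x j) -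
        trace H / v / r * (((k : ℝ) - 2) * H x x - 2 * af H N x j) -
        (1 - 1 / (v : ℝ)) / r * (((k : ℝ) - 2) * (H * H) x x - 2 * cf H N x j) +
        2 / ((v : ℝ) * r) * (((k : ℝ) - 2) * (H * H) x x - 2 * cf H N x j +
          (∑ y, (N y j : ℝ) * (H * H) y y) - k * (trace (H * H) / v)) := by
  have hHH : (H * H).IsSymm := by
    rw [Matrix.IsSymm, Matrix.transpose_mul, h.sym.eq]
  have hHHH : (H * H * H).IsSymm := by
    rw [Matrix.IsSymm, Matrix.transpose_mul, hHH.eq, h.sym.eq, Matrix.mul_assoc]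
  obtain ⟨e1, e2, e3, e4, e5⟩ := fs_e hv h (un x) (qf N x j)
  obtain ⟨a1, a2, a3⟩ := fs_a h (un x) (qf N x j)
  obtain ⟨d1, d2⟩ := fs_d hv h (un x) (qf N x j)
  have hb := fs_b hv h (un x) (qf N x j)
  have hc := fs_c hv h (un x)
  have hex : bf H (un x) (un x) = H x x := bf_un H x x
  have hzx : bf (H * H) (un x) (un x) = (H * H) x x := bf_un (H * H) x x
  have hNq : ∀ y, un x y + qf N x j y = (N y j : ℝ) := by
    intro y
    unfold un qf
    ring
  have hsum : ∑ y, (un x y + qf N x j y) = (k : ℝ) := by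
    rw [Finset.sum_congr rfl (fun y _ => hNq y)]
    exact_mod_cast h.des.1 j
  have hNZ : ∑ y, (H * H) y y * (un x y + qf N x j y) = ∑ y, (N y j : ℝ) * (H * H) y y := by
    refine Finset.sum_congr rfl (fun y _ => ?_)
    rw [hNq y, mul_comm]
  have htr : ∑ y, (H * H) y y = trace (H * H) := rfl
  rw [hNZ, hsum, htr] at hb
  -- the summed exchange inequality
  have hI : fs N (fun w l => 2 * bf (H * H) (un x - un w) (qf N x j - qf N w l)) ≤
      fs N (fun w l => wd H (un x - un w) (qf N x j - qf N w l) (un x - un w)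
        (qf N x j - qf N w l)) :=
    vf_le N _ _ (fun w l hw => h.opt x w j l hx hw)
  rw [vf_mul, e1] at hI
  have hexp : fs N (fun w l => wd H (un x - un w) (qf N x j - qf N w l) (un x - un w)
        (qf N x j - qf N w l)) = (v : ℝ) * r * Df H N x j + fs N (Df H N) +
      2 * fs N (fun w l => wd H (un x) (qf N x j) (un w) (qf N w l)) -
      2 * fs N (fun w l => wd H (un x) (qf N x j) (un x) (qf N w l)) -
      2 * fs N (fun w l => wd H (un x) (qf N x j) (un w) (qf N x j)) -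
      2 * fs N (fun w l => wd H (un w) (qf N w l) (un x) (qf N w l) +
        wd H (un w) (qf N w l) (un w) (qf N x j)) +
      fs N (fun w l => wd H (un x) (qf N w l) (un x) (qf N w l)) +
      fs N (fun w l => wd H (un w) (qf N x j) (un w) (qf N x j)) +
      2 * fs N (fun w l => wd H (un x) (qf N w l) (un w) (qf N x j)) := by
    have h1 : (fun w l => wd H (un x - un w) (qf N x j - qf N w l) (un x - un w)
        (qf N x j - qf N w l)) = (fun (w : Fin v) (l : Fin b) =>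
        (Df H N x j + Df H N w l) +
        (2 * wd H (un x) (qf N x j) (un w) (qf N w l) +
        (((-2) * wd H (un x) (qf N x j) (un x) (qf N w l)) +
        (((-2) * wd H (un x) (qf N x j) (un w) (qf N x j)) +
        (((-2) * (wd H (un w) (qf N w l) (un x) (qf N w l) +
          wd H (un w) (qf N w l) (un w) (qf N x j))) +
        (wd H (un x) (qf N w l) (un x) (qf N w l) +
        (wd H (un w) (qf N x j) (un w) (qf N x j) +
        2 * wd H (un x) (qf N w l) (un w) (qf N x j)))))))) := by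
      funext w l
      rw [vf_wd H h.sym]
      unfold Df
      ring
    rw [h1, vf_add, vf_add, vf_add, vf_add, vf_add, vf_add, vf_add, vf_add, vf_mul, vf_mul,
      vf_mul, vf_mul, vf_mul, fs_one h.des]
    ring
  rw [hexp, a1, a2, a3, hb, hc, d1, d2, hex, hzx] at hI
  have h3 : 0 ≤ ((k : ℝ) - 1) ^ 2 * bf (H * H * H) (un x) (un x) -
      2 * ((k : ℝ) - 1) * bf (H * H * H) (un x) (qf N x j) +
        bf (H * H * H) (qf N x j) (qf N x j) := by
    have h4 := Rf_eq k N (H * H * H) hHHH x j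
    have h5 : 0 ≤ bf (H * H * H) (wf k N x j) (wf k N x j) := by
      have h6 : bf (H * H * H) (wf k N x j) (wf k N x j) =
          bf H (H *ᵥ wf k N x j) (H *ᵥ wf k N x j) := by
        unfold bf
        rw [Matrix.mul_assoc, ← Matrix.mulVec_mulVec, Matrix.dotProduct_mulVec,
          ← Matrix.mulVec_transpose, h.sym.eq, ← Matrix.mulVec_mulVec]
      rw [h6]
      exact h.psd _
    rw [h4] at h5
    unfold Qf at h5
    rw [← bf_un (H * H * H) x x] at h5
    exact h5
  have hvR : (0 : ℝ) < v := by exact_mod_cast hv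
  have hrR : (0 : ℝ) < r := by exact_mod_cast hr
  refine vf_real v r k (cf H N x j) (fs N (cf H N)) (Df H N x j) (fs N (Df H N)) (trace H)
    (trace (H * H)) _ _ (H x x) ((H * H) x x) (af H N x j) (∑ y, (N y j : ℝ) * (H * H) y y)
    (Qf H N x j) (Qf (H * H) N x j) (bf (H * H * H) (un x) (un x))
    (bf (H * H * H) (un x) (qf N x j)) (bf (H * H * H) (qf N x j) (qf N x j))
    (fs N (af H N)) (fs N (Qf H N)) (fs N (Qf (H * H) N)) hvR hrR
    (Rf_eq k N H h.sym x j) (Rf_eq k N (H * H) hHH x j) e2 e3 e4 e5 h3 ?_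
  exact hI

end HCR
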