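import Mathlib
import Pool.Agent.Lib_helper88.HCR.Defs
import Pool.Agent.Lib_helper88.SPR.Defs
import Pool.Agent.Lib_helper88.SPR.bi
import Pool.Agent.Lib_helper88.SPR.rf
import Pool.Agent.Lib_helper88.SPR.vf
import Pool.Agent.Lib_helper88.SPR.ba
import Pool.Agent.Lib_helper88.SPR.bb
import Pool.Agent.Lib_helper88.SPR.bc
import Pool.Agent.Lib_helper88.SPR.bd
import Pool.Agent.Lib_helper88.SPR.tc
import Pool.Agent.Lib_helper88.SPR.ve

set_option autoImplicit false

namespace HCR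

open Finset Matrix

/-- the final numerical step -/
theorem s1_last (K m c E : ℝ) (hK : 1 ≤ K) (hm : 0 < m) (hu : K * m ≤ 1 / 10000)
    (h1 : c * (1 - 8 * (K * m)) ≤ 10 * K ^ 2 * E ^ 2 * m + 6 * K ^ 2 * E * m ^ 2 + K * m * E)
    (h2 : K * (E ^ 2 - E * m) ≤ c) : E ≤ 3 * m := by
  by_contra h
  push Not at h
  have hE : 0 < E := by linarith
  have hKm : 0 < K * m := by positivity
  have h3 : K * (E ^ 2 - E * m) * (1 - 8 * (K * m)) ≤
      10 * K ^ 2 * E ^ 2 * m + 6 * K ^ 2 * E * m ^ 2 + K * m * E :=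
    (mul_le_mul_of_nonneg_right h2 (by linarith)).trans h1
  have h4 : (K * E) * ((E - m) * (1 - 8 * (K * m))) ≤
      (K * E) * (10 * (K * m) * E + 6 * (K * m) * m + m) := by
    calc (K * E) * ((E - m) * (1 - 8 * (K * m))) = K * (E ^ 2 - E * m) * (1 - 8 * (K * m)) := by
          ring
      _ ≤ _ := h3
      _ = _ := by ring
  have h5 : (E - m) * (1 - 8 * (K * m)) ≤ 10 * (K * m) * E + 6 * (K * m) * m + m :=
    le_of_mul_le_mul_left h4 (by positivity)
  have h6 : (K * m) * E ≤ 1 / 10000 * E := mul_le_mul_of_nonneg_right hu hE.le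
  have h7 : 0 ≤ (K * m) * m := by positivity
  nlinarith

theorem stage1 {v b k r : ℕ} {N : Matrix (Fin v) (Fin b) ℕ} {H : Matrix (Fin v) (Fin v) ℝ} (hP : ParR (v : ℝ) k r ((k : ℝ) - 1) ((r : ℝ) * ((k : ℝ) - 1)))
    (h : SD k r N H) (x : Fin v) : H x x ≤ 3 / ((r : ℝ) * ((k : ℝ) - 1)) := by
  set K : ℝ := (k : ℝ) - 1 with hK
  set M : ℝ := (r : ℝ) * K with hM
  have hK1 : 1 ≤ K := hP.K1
  have hM0 : 0 < M := hP.M0
  have hr0 : (0 : ℝ) < r := hP.r0
  have hv0 : (0 : ℝ) < v := hP.v0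
  have hkK : (k : ℝ) = K + 1 := by rw [hK]; ring
  have hv1 : 1 ≤ v := by
    have : 0 < v := by exact_mod_cast hv0
    omega
  have hr1 : 1 ≤ r := by
    have : 0 < r := by exact_mod_cast hr0
    omega
  have hk1 : 1 ≤ k := by
    have : (1 : ℝ) ≤ k := by rw [hkK]; linarith
    exact_mod_cast this
  have hMbig : 10000 * K ^ 3 ≤ M := hP.hM
  have hvbig : 1000 * K * M ≤ v := hP.hv
  set m : ℝ := 1 / M with hm
  set n : ℝ := 1 / (v : ℝ) with hn
  have hm0 : 0 < m := by positivity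
  have hn0 : 0 < n := by positivity
  have hmM : m * M = 1 := by rw [hm]; field_simp
  have hnv : n * v = 1 := by rw [hn]; field_simp
  have hMr : M = r * K := hM
  have hu : K * m ≤ 1 / 10000 := by
    have h1 : 10000 * K ≤ M := by nlinarith [sq_nonneg (K - 1), pow_pos (show (0:ℝ) < K by linarith) 3]
    have h2 : 10000 * (K * m) ≤ 1 := by
      calc 10000 * (K * m) = (10000 * K) * m := by ring
        _ ≤ M * m := mul_le_mul_of_nonneg_right h1 hm0.le
        _ = 1 := by rw [mul_comm]; exact hmM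
    linarith
  have hn1 : n ≤ 1 / 1000 := by
    have h1 : (1000 : ℝ) ≤ v := by nlinarith
    rw [hn]
    exact one_div_le_one_div_of_le (by norm_num) h1
  have hrinv : ∀ t : ℝ, t / r = t * (K * m) := by
    intro t
    rw [hm, hM]
    field_simp
  have hvrinv : ∀ t : ℝ, t / ((v : ℝ) * r) = t * (n * (K * m)) := by
    intro t
    rw [hm, hn, hM]
    field_simp
  -- maximal flag and vertex
  obtain ⟨x₀, j₀, hx₀, hmax⟩ := max_flag hv1 hr1 h
  obtain ⟨w, hw⟩ := max_vertex hv1 H
  set c : ℝ := cf H N x₀ j₀ with hc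
  set E : ℝ := H w w with hE
  have hE0 : 0 ≤ E := (diag_facts h w).1
  -- Z
  set Z : ℝ := c / K + E * m with hZ
  have hKZ : K * Z = c + K * E * m := by
    rw [hZ]
    field_simp
  have hcM : r * c = M * (c / K) := by
    rw [hM]
    field_simp
  have hZb : ∀ y, (H * H) y y ≤ Z := by
    intro y
    have h1 := flag_avg h c hmax y
    rw [← hK, ← hM] at h1
    have h2 := hw y
    have h3 : M * (H * H) y y ≤ M * Z := by
      have e : M * Z = r * c + E := by
        rw [hZ, mul_add, hcM]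
        have : M * (E * m) = E * (m * M) := by ring
        rw [this, hmM, mul_one]
      rw [e]
      linarith
    exact le_of_mul_le_mul_left h3 hM0
  have hZ0 : 0 ≤ Z := by
    have h1 := (diag_facts h w).2.1
    exact (sq_nonneg _).trans (h1.trans (hZb w))
  -- averages
  have hce := (fs_e hv1 h 0 0).2.2.1
  rw [← hK, ← hM] at hce
  have hcl := cbar_lower hv1 h K M hP
  have hfs0 : 0 ≤ fs N (cf H N) := by
    refine le_trans ?_ hcl
    refine div_nonneg ?_ hM0.le
    rw [sub_nonneg, le_div_iff₀ hM0]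
    nlinarith
  have hfs1 : fs N (cf H N) ≤ (v : ℝ) * r * c := by
    rw [← fs_one h.des c]
    exact fs_le h.des _ _ hmax
  have hc0 : 0 ≤ c := by
    have h1 : 0 ≤ (v : ℝ) * r * c := hfs0.trans hfs1
    exact nonneg_of_mul_nonneg_right h1 (by positivity)
  set cb : ℝ := fs N (cf H N) * (n * (K * m)) with hcb
  have hcb0 : 0 ≤ cb := by positivity
  set s : ℝ := trace (H * H) / v with hs
  set h' : ℝ := trace H / v with hh
  have hs0 : 0 ≤ s := div_nonneg (diag_facts h w).2.2.2 hv0.le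
  have hh0 : 0 ≤ h' := div_nonneg (diag_facts h w).2.2.1 hv0.le
  have hKs : K * s = cb + K * m * h' := by
    have e1 : trace (H * H) = s * v := by rw [hs]; field_simp
    have e2 : trace H = h' * v := by rw [hh]; field_simp
    rw [hcb, hce, e1, e2]
    have e3 : (M * (s * v) - h' * v) * (n * (K * m)) =
        (m * M) * (n * v) * (K * s) - (n * v) * (K * m * h') := by ring
    rw [e3, hmM, hnv]
    ring
  -- local quantities
  obtain ⟨b1, b2, b3, b4, b5, b6, b7, b8⟩ := sup_facts hk1 h E Z hw hZb x₀ j₀ hx₀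
  rw [← hK] at b1 b3 b5
  obtain ⟨d1, d2, -, -⟩ := diag_facts h x₀
  have hHH : (H * H).IsSymm := by
    have := h.sym
    unfold Matrix.IsSymm at this ⊢
    rw [Matrix.transpose_mul, this]
  have hR := Rf_eq k N H h.sym x₀ j₀
  have hS := Rf_eq k N (H * H) hHH x₀ j₀
  have hD := (Df_eq k N H h.sym x₀ j₀).1
  have hRle := Rf_le hk1 h x₀ j₀ hx₀
  obtain ⟨hR0, hS0⟩ := Rf_nonneg h x₀ j₀
  rw [← hK] at hR hS hRle
  have hav := avg hv1 hr1 hk1 h x₀ j₀ hx₀
  have hDb := Dbar_le hv1 h E Z hw hZb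
  set a : ℝ := af H N x₀ j₀ with ha
  have ha' : bf H (un x₀) (qf N x₀ j₀) = a := rfl
  have hc' : bf (H * H) (un x₀) (qf N x₀ j₀) = c := rfl
  rw [ha'] at hR
  rw [hc'] at hS
  set e : ℝ := H x₀ x₀ with he
  set z : ℝ := (H * H) x₀ x₀ with hz
  set Q : ℝ := Qf H N x₀ j₀ with hQ
  set Q2 : ℝ := Qf (H * H) N x₀ j₀ with hQ2
  set R : ℝ := bf H (wf k N x₀ j₀) (wf k N x₀ j₀) with hRd
  set S : ℝ := bf (H * H) (wf k N x₀ j₀) (wf k N x₀ j₀) with hSd
  have heE : e ≤ E := hw x₀
  have hzZ : z ≤ Z := hZb x₀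
  have hz0 : 0 ≤ z := (sq_nonneg _).trans d2
  have hhE : h' ≤ E := by
    rw [hh, div_le_iff₀ hv0]
    linarith
  have hsZ : s ≤ Z := by
    rw [hs, div_le_iff₀ hv0]
    linarith
  rw [hvrinv, hvrinv, hrinv, hrinv, hvrinv, ← hcb, ← hn] at hav
  rw [hkK] at hav hDb b8
  have e1 : K + 1 - 2 = K - 1 := by ring
  rw [e1, ← hc, ← hs, ← hh] at hav
  -- the terms
  have T1 : Df H N x₀ j₀ ≤ c + 2 * K ^ 2 * E ^ 2 * m := by
    have h1 : Df H N x₀ j₀ ≤ Q * Z + e * (K ^ 2 * Z) - 2 * a * c := by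
      rw [hD]
      have := mul_le_mul_of_nonneg_left hzZ b2
      have := mul_le_mul_of_nonneg_left b5 d1
      linarith
    have h2 : K * (Q * Z + e * (K ^ 2 * Z) - 2 * a * c) ≤ K * (c + 2 * K ^ 2 * E ^ 2 * m) := by
      have e2 : K * (Q * Z + e * (K ^ 2 * Z) - 2 * a * c) =
          c * R + (Q + K ^ 2 * e) * (K * E * m) := by
        have : K * (Q * Z + e * (K ^ 2 * Z) - 2 * a * c) =
            (Q + e * K ^ 2) * (K * Z) - 2 * K * a * c := by ring
        rw [this, hKZ, hR]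
        ring
      rw [e2]
      have h3 : c * R ≤ c * K := mul_le_mul_of_nonneg_left hRle hc0
      have h4 : (Q + K ^ 2 * e) * (K * E * m) ≤ (K ^ 2 * E + K ^ 2 * E) * (K * E * m) := by
        refine mul_le_mul_of_nonneg_right ?_ (by positivity)
        have := mul_le_mul_of_nonneg_left heE (sq_nonneg K)
        linarith
      linarith
    exact h1.trans (le_of_mul_le_mul_left h2 (by linarith))
  have T2 : fs N (Df H N) * (n * (K * m)) ≤ 4 * K ^ 2 * m * (Z + E ^ 2) := by
    have h1 : fs N (Df H N) ≤ v * (2 * ((K + 1) * Z + (K + 1) * E * E)) := by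
      refine hDb.trans ?_
      have h2 : (K + 1) * ((v : ℝ) - 1) * Z ≤ v * ((K + 1) * Z) := by
        have : 0 ≤ (K + 1) * Z := mul_nonneg (by linarith) hZ0
        linarith
      have h3 : (K + 1) * trace H * E ≤ v * ((K + 1) * E * E) := by
        have : (K + 1) * E * trace H ≤ (K + 1) * E * (v * E) :=
          mul_le_mul_of_nonneg_left b6 (mul_nonneg (by linarith) hE0)
        linarith
      linarith
    have h2 : fs N (Df H N) * (n * (K * m)) ≤
        v * (2 * ((K + 1) * Z + (K + 1) * E * E)) * (n * (K * m)) :=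
      mul_le_mul_of_nonneg_right h1 (by positivity)
    have e2 : v * (2 * ((K + 1) * Z + (K + 1) * E * E)) * (n * (K * m)) =
        (n * v) * (2 * (K * m) * ((K + 1) * (Z + E ^ 2))) := by ring
    rw [e2, hnv, one_mul] at h2
    refine h2.trans ?_
    have h3 : (K + 1) * (Z + E ^ 2) ≤ (2 * K) * (Z + E ^ 2) :=
      mul_le_mul_of_nonneg_right (by linarith) (by positivity)
    have h4 : 2 * (K * m) * ((K + 1) * (Z + E ^ 2)) ≤ 2 * (K * m) * ((2 * K) * (Z + E ^ 2)) :=
      mul_le_mul_of_nonneg_left h3 (by positivity)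
    linarith
  have T3 : s * R ≤ cb + K * m * E := by
    have h1 : s * R ≤ s * K := mul_le_mul_of_nonneg_left hRle hs0
    have h2 : K * m * h' ≤ K * m * E := mul_le_mul_of_nonneg_left hhE (by positivity)
    linarith
  have T4 : h' * S ≤ 2 * K ^ 2 * E ^ 2 * m := by
    have h1 : S ≤ 2 * K * (K * E * m) := by
      rw [hS]
      have h2 : K ^ 2 * z ≤ K ^ 2 * Z := mul_le_mul_of_nonneg_left hzZ (sq_nonneg K)
      have e2 : 2 * K * (K * E * m) = 2 * K ^ 2 * Z - 2 * K * c := by
        have : 2 * K ^ 2 * Z = 2 * K * (K * Z) := by ring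
        rw [this, hKZ]
        ring
      rw [e2]
      linarith
    calc h' * S ≤ E * (2 * K * (K * E * m)) := mul_le_mul hhE h1 hS0 hE0
      _ = _ := by ring
  have T5 : -(h' * (K * m) * ((K - 1) * e - 2 * a)) ≤ 2 * K ^ 2 * E ^ 2 * m := by
    have h1 : 0 ≤ h' * (K * m) := by positivity
    have h2 : 0 ≤ (K - 1) * e := mul_nonneg (by linarith) d1
    have h3 : a ≤ K * E := (le_abs_self a).trans b1
    have h4 : h' * (K * m) * (2 * a - (K - 1) * e) ≤ h' * (K * m) * (2 * (K * E)) :=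
      mul_le_mul_of_nonneg_left (by linarith) h1
    have h5 : h' * (K * m) * (2 * (K * E)) ≤ E * (K * m) * (2 * (K * E)) := by
      refine mul_le_mul_of_nonneg_right ?_ (by positivity)
      exact mul_le_mul_of_nonneg_right hhE (by positivity)
    linarith
  have T6 : -((1 - n) * (K * m) * ((K - 1) * z - 2 * c)) ≤ 2 * K * m * c := by
    have h1 : 0 ≤ (1 - n) * (K * m) := mul_nonneg (by linarith) (by positivity)
    have h2 : 0 ≤ (1 - n) * (K * m) * ((K - 1) * z) :=
      mul_nonneg h1 (mul_nonneg (by linarith) hz0)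
    have h3 : (1 - n) * (K * m) * (2 * c) ≤ 1 * (K * m) * (2 * c) := by
      refine mul_le_mul_of_nonneg_right ?_ (by positivity)
      exact mul_le_mul_of_nonneg_right (by linarith) (by positivity)
    linarith
  have T7 : 2 * (n * (K * m)) * ((K - 1) * z - 2 * c + (∑ y, (N y j₀ : ℝ) * (H * H) y y) -
      (K + 1) * s) ≤ 4 * K ^ 2 * n * m * Z := by
    have h1 : (K - 1) * z ≤ (K - 1) * Z := mul_le_mul_of_nonneg_left hzZ (by linarith)
    have h2 : 0 ≤ (K + 1) * s := mul_nonneg (by linarith) hs0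
    have h3 : (K - 1) * z - 2 * c + (∑ y, (N y j₀ : ℝ) * (H * H) y y) - (K + 1) * s ≤
        2 * K * Z := by linarith
    have h4 := mul_le_mul_of_nonneg_left h3 (show 0 ≤ 2 * (n * (K * m)) by positivity)
    linarith
  have main : c * (1 - 8 * (K * m)) ≤
      10 * K ^ 2 * E ^ 2 * m + 6 * K ^ 2 * E * m ^ 2 + K * m * E := by
    have e2 : 4 * K ^ 2 * m * Z = 4 * (K * m) * c + 4 * K ^ 2 * E * m ^ 2 := by
      have : 4 * K ^ 2 * m * Z = 4 * K * m * (K * Z) := by ring
      rw [this, hKZ]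
      ring
    have e3 : 4 * K ^ 2 * n * m * Z = n * (4 * (K * m) * c + 4 * K ^ 2 * E * m ^ 2) := by
      rw [← e2]
      ring
    have h1 : n * (4 * (K * m) * c + 4 * K ^ 2 * E * m ^ 2) ≤
        1 / 1000 * (4 * (K * m) * c + 4 * K ^ 2 * E * m ^ 2) :=
      mul_le_mul_of_nonneg_right hn1 (by positivity)
    have h2 : 0 ≤ K * m * c := by positivity
    have h3 : 0 ≤ K ^ 2 * E * m ^ 2 := by positivity
    clear_value c E Z cb s h' a e z Q Q2 R S m n
    linarith
  have low : K * (E ^ 2 - E * m) ≤ c := by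
    have h1 := flag_avg h c hmax w
    rw [← hK, ← hM] at h1
    have h2 := (diag_facts h w).2.1
    rw [← hE] at h1 h2
    have h3 : M * E ^ 2 - E ≤ r * c := by
      have := mul_le_mul_of_nonneg_left h2 hM0.le
      linarith
    have h4 := mul_le_mul_of_nonneg_left h3 (show 0 ≤ K * m by positivity)
    have e2 : K * m * (M * E ^ 2 - E) = (m * M) * (K * E ^ 2) - K * m * E := by ring
    have e3 : K * m * (r * c) = (m * M) * c := by rw [hM]; ring
    rw [e2, e3, hmM] at h4
    linarith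
  have fin := s1_last K m c E hK1 hm0 hu main low
  calc H x x ≤ E := hw x
    _ ≤ 3 * m := fin
    _ = 3 / M := by rw [hm]; ring

end HCR
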