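import Pool.Agent.Lib_helper88.SPR.Defs
import Pool.Agent.Lib_helper88.SPR.bi
import Pool.Agent.Lib_helper88.SPR.rf
import Pool.Agent.Lib_helper88.SPR.vf
import Pool.Agent.Lib_helper88.SPR.ba
import Pool.Agent.Lib_helper88.SPR.bb
import Pool.Agent.Lib_helper88.SPR.bc
import Pool.Agent.Lib_helper88.SPR.bd
import Pool.Agent.Lib_helper88.SPR.tc
import Pool.Agent.Lib_helper88.SPR.ve
import Pool.Agent.Lib_helper88.SPR.s1

/-! SPR, block s2. -/

set_option autoImplicit false

namespace HCR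

open Finset Matrix

/-- the numbers of the second stage -/
theorem s2_num {v k r K M c a Q Q2 R S e z h s D Db cb Sg : ℝ} (kK : k = K + 1) (rM : r * K = M)
    (K1 : 1 ≤ K) (hM : 10000 * K ^ 3 ≤ M) (hv : 1000 * K * M ≤ v) (r0 : 0 < r) (M0 : 0 < M)
    (v0 : 0 < v) (c0 : 0 ≤ c)
    (hD : D = Q * z + e * Q2 - 2 * a * c) (hR : R = K ^ 2 * e - 2 * K * a + Q)
    (hS : S = K ^ 2 * z - 2 * K * c + Q2) (e0 : 0 ≤ e) (e3 : e ≤ 3 / M) (z0 : 0 ≤ z)
    (zZ : z ≤ c / K + 3 / M ^ 2) (ha : |a| ≤ K * (3 / M)) (Q0 : 0 ≤ Q) (hQ : Q ≤ K ^ 2 * (3 / M))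
    (Q20 : 0 ≤ Q2) (hQ2 : Q2 ≤ K ^ 2 * (c / K + 3 / M ^ 2)) (h0 : 0 ≤ h) (hE : h ≤ 3 / M)
    (s0 : 0 ≤ s) (sZ : s ≤ c / K + 3 / M ^ 2) (R0 : 0 ≤ R) (S0 : 0 ≤ S)
    (hDb : Db ≤ 2 * k / r * (c / K + 3 / M ^ 2 + (3 / M) * (3 / M))) (cb0 : 0 ≤ cb)
    (hSg : Sg ≤ k * (c / K + 3 / M ^ 2))
    (havg : 2 * c + 2 * cb ≤ D + Db + s * R + h * S - h / r * ((k - 2) * e - 2 * a) -
      (1 - 1 / v) / r * ((k - 2) * z - 2 * c) +
      2 / (v * r) * ((k - 2) * z - 2 * c + Sg - k * s)) :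
    c ≤ 100 * K ^ 2 / M ^ 3 := by
  have K0 : 0 < K := by linarith
  have hKM : K * 10000 ≤ M := by nlinarith [sq_nonneg (K - 1), mul_pos K0 K0]
  have ir : 1 / r = K / M := by
    rw [← rM]; field_simp
  have hr' : r = M / K := by rw [← rM]; field_simp
  set Z : ℝ := c / K + 3 / M ^ 2 with hZ
  have Z0 : 0 ≤ Z := by positivity
  set u : ℝ := K * c / M with hu
  set w0 : ℝ := K ^ 2 / M ^ 3 with hw0
  have u0 : 0 ≤ u := by positivity
  have w00 : 0 < w0 := by positivity
  have ha' := abs_le.1 ha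
  have v1 : 1000 ≤ v := by
    have : 1 ≤ K * M := by nlinarith
    nlinarith
  -- identities
  have i1 : K ^ 2 * (3 / M) * Z = 3 * u + 9 * w0 := by
    rw [hZ, hu, hw0]; field_simp; ring
  have i2 : K * (3 / M) * c = 3 * u := by rw [hu]; ring
  have p1 : D ≤ 12 * u + 18 * w0 := by
    have q1 : Q * z ≤ K ^ 2 * (3 / M) * Z := mul_le_mul hQ zZ z0 (by positivity)
    have q2 : e * Q2 ≤ 3 / M * (K ^ 2 * Z) := mul_le_mul e3 hQ2 Q20 (by positivity)
    have q3 : -(K * (3 / M)) * c ≤ a * c := mul_le_mul_of_nonneg_right ha'.1 c0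
    rw [hD]
    have q4 : 3 / M * (K ^ 2 * Z) = 3 * u + 9 * w0 := by rw [← i1]; ring
    linarith
  have p2 : Db ≤ 4 * u + 48 * w0 := by
    refine hDb.trans ?_
    have q1 : 2 * k / r ≤ 4 * K ^ 2 / M := by
      rw [hr', kK, div_div_eq_mul_div, div_le_div_iff_of_pos_right M0]
      nlinarith
    calc 2 * k / r * (Z + 3 / M * (3 / M)) ≤ 4 * K ^ 2 / M * (Z + 3 / M * (3 / M)) :=
          mul_le_mul_of_nonneg_right q1 (by positivity)
      _ = 4 * u + 48 * w0 := by rw [hZ, hu, hw0]; field_simp; ring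
  have p3 : s * R ≤ 12 * u + 36 * w0 := by
    have q1 : R ≤ 4 * (K ^ 2 * (3 / M)) := by
      rw [hR]
      have q2 : K ^ 2 * e ≤ K ^ 2 * (3 / M) := mul_le_mul_of_nonneg_left e3 (by positivity)
      have q3 : K * -a ≤ K * (K * (3 / M)) := mul_le_mul_of_nonneg_left (by linarith) K0.le
      nlinarith
    calc s * R ≤ Z * (4 * (K ^ 2 * (3 / M))) := mul_le_mul sZ q1 R0 Z0
      _ = 4 * (K ^ 2 * (3 / M) * Z) := by ring
      _ = 12 * u + 36 * w0 := by rw [i1]; ring
  have p4 : h * S ≤ 18 * w0 := by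
    have q1 : S ≤ 6 * K ^ 2 / M ^ 2 := by
      rw [hS]
      have q2 : K ^ 2 * z ≤ K ^ 2 * Z := mul_le_mul_of_nonneg_left zZ (by positivity)
      have q3 : K ^ 2 * Z + K ^ 2 * Z - 2 * K * c = 6 * K ^ 2 / M ^ 2 := by
        rw [hZ]; field_simp; ring
      linarith
    calc h * S ≤ 3 / M * (6 * K ^ 2 / M ^ 2) := mul_le_mul hE q1 S0 (by positivity)
      _ = 18 * w0 := by rw [hw0]; field_simp; ring
  have p5 : -(h / r * ((k - 2) * e - 2 * a)) ≤ 18 * w0 := by
    have q0 : 0 ≤ h / r := by positivity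
    have q1 : h / r ≤ 3 * K / M ^ 2 := by
      have : h / r = h * (1 / r) := by ring
      rw [this, ir]
      calc h * (K / M) ≤ 3 / M * (K / M) := mul_le_mul_of_nonneg_right hE (by positivity)
        _ = 3 * K / M ^ 2 := by field_simp
    have q2 : 0 ≤ (k - 2) * e := mul_nonneg (by linarith) e0
    have q3 : -(h / r * ((k - 2) * e - 2 * a)) ≤ h / r * (2 * (K * (3 / M))) := by
      have : -(h / r * ((k - 2) * e - 2 * a)) = h / r * (2 * a - (k - 2) * e) := by ring
      rw [this]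
      exact mul_le_mul_of_nonneg_left (by linarith) q0
    refine q3.trans ?_
    calc h / r * (2 * (K * (3 / M))) ≤ 3 * K / M ^ 2 * (2 * (K * (3 / M))) :=
          mul_le_mul_of_nonneg_right q1 (by positivity)
      _ = 18 * w0 := by rw [hw0]; field_simp; ring
  have p6 : -((1 - 1 / v) / r * ((k - 2) * z - 2 * c)) ≤ 2 * u := by
    have q0 : 0 ≤ (1 - 1 / v) / r := by
      have : 1 / v ≤ 1 := by rw [div_le_one v0]; linarith
      exact div_nonneg (by linarith) r0.le
    have q1 : (1 - 1 / v) / r ≤ K / M := by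
      rw [← ir]
      apply div_le_div_of_nonneg_right _ r0.le
      have : 0 ≤ 1 / v := by positivity
      linarith
    have q2 : 0 ≤ (k - 2) * z := mul_nonneg (by linarith) z0
    have q3 : -((1 - 1 / v) / r * ((k - 2) * z - 2 * c)) ≤ (1 - 1 / v) / r * (2 * c) := by
      have : -((1 - 1 / v) / r * ((k - 2) * z - 2 * c)) =
        (1 - 1 / v) / r * (2 * c - (k - 2) * z) := by ring
      rw [this]
      exact mul_le_mul_of_nonneg_left (by linarith) q0
    refine q3.trans ?_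
    calc (1 - 1 / v) / r * (2 * c) ≤ K / M * (2 * c) :=
          mul_le_mul_of_nonneg_right q1 (by positivity)
      _ = 2 * u := by rw [hu]; ring
  have p7 : 2 / (v * r) * ((k - 2) * z - 2 * c + Sg - k * s) ≤ u + 3 * w0 := by
    have q0 : 0 ≤ 2 / (v * r) := by positivity
    have q1 : (k - 2) * z ≤ (k - 2) * Z := mul_le_mul_of_nonneg_left zZ (by linarith)
    have q2 : 0 ≤ k * s := mul_nonneg (by linarith) s0
    have q3 : (k - 2) * z - 2 * c + Sg - k * s ≤ 2 * K * Z := by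
      have : (k - 2) * Z + k * Z = 2 * K * Z := by rw [kK]; ring
      linarith
    have q4 : 2 / (v * r) = 2 / v * (K / M) := by rw [← ir]; field_simp
    have q5 : 2 / v ≤ 1 / 4 := by
      rw [div_le_div_iff₀ v0 (by norm_num)]; linarith
    calc 2 / (v * r) * ((k - 2) * z - 2 * c + Sg - k * s) ≤ 2 / (v * r) * (2 * K * Z) :=
          mul_le_mul_of_nonneg_left q3 q0
      _ = 2 / v * (K / M * (2 * K * Z)) := by rw [q4]; ring
      _ ≤ 1 / 4 * (K / M * (2 * K * Z)) := mul_le_mul_of_nonneg_right q5 (by positivity)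
      _ = 1 / 6 * (K ^ 2 * (3 / M) * Z) := by ring
      _ ≤ u + 3 * w0 := by rw [i1]; linarith
  have hfin : 2 * c ≤ 31 * u + 141 * w0 := by linarith
  have huc : u * 10000 ≤ c := by
    rw [hu, div_mul_eq_mul_div, div_le_iff₀ M0]
    nlinarith
  have : c ≤ 100 * w0 := by linarith
  calc c ≤ 100 * w0 := this
    _ = 100 * K ^ 2 / M ^ 3 := by rw [hw0]; ring

theorem stage2 {v b k r : ℕ} {N : Matrix (Fin v) (Fin b) ℕ} {H : Matrix (Fin v) (Fin v) ℝ} (hP : ParR (v : ℝ) k r ((k : ℝ) - 1) ((r : ℝ) * ((k : ℝ) - 1)))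
    (h : SD k r N H) : St2 N H ((k : ℝ) - 1) ((r : ℝ) * ((k : ℝ) - 1)) := by
  have hs1 : ∀ x, H x x ≤ 3 / ((r : ℝ) * ((k : ℝ) - 1)) := fun x => stage1 hP h x
  obtain ⟨kK, rM, K1, hr, hM, hv, r0, M0, v0⟩ := id hP
  have hcb := cbar_lower (N := N) (H := H) (by
    have : (0 : ℝ) < v := v0
    have h2 : 0 < v := by exact_mod_cast this
    omega) h ((k : ℝ) - 1) ((r : ℝ) * ((k : ℝ) - 1)) hP
  set K : ℝ := (k : ℝ) - 1 with hK
  set M : ℝ := (r : ℝ) * K with hMdef
  have K0 : 0 < K := by linarith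
  have hv1 : 1 ≤ v := by
    have : 0 < v := by exact_mod_cast v0
    omega
  have hr1 : 1 ≤ r := by
    have : 0 < r := by exact_mod_cast r0
    omega
  have hk1 : 1 ≤ k := by
    have : (1 : ℝ) ≤ k := by linarith
    exact_mod_cast this
  obtain ⟨x, j, hxj, hmax⟩ := max_flag hv1 hr1 h
  set c : ℝ := cf H N x j with hc
  -- the bound for `c`
  have hcb' : c ≤ 100 * K ^ 2 / M ^ 3 := by
    by_cases hc0 : c < 0
    · have : 0 ≤ 100 * K ^ 2 / M ^ 3 := by positivity
      linarith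
    · push Not at hc0
      have hZ : ∀ y, (H * H) y y ≤ c / K + 3 / M ^ 2 := by
        intro y
        have h1 := flag_avg h c hmax y
        have h2 := hs1 y
        rw [← hK, ← hMdef] at h1
        have h3 : M * ((H * H) y y) ≤ r * c + 3 / M := by linarith
        have h4 : (H * H) y y ≤ (r * c + 3 / M) / M := by
          rw [le_div_iff₀ M0]; linarith
        refine h4.trans (le_of_eq ?_)
        rw [add_div]
        congr 1
        · rw [hMdef]; field_simp
        · rw [div_div]; congr 1; ring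
      obtain ⟨e0, ez, tr0, tr20⟩ := diag_facts h x
      obtain ⟨s1, s2, s3, s4, s5, s6, s7, s8⟩ := sup_facts hk1 h (3 / M) (c / K + 3 / M ^ 2)
        hs1 hZ x j hxj
      obtain ⟨R0, S0⟩ := Rf_nonneg h x j
      have hDb := Dbar_le hv1 h (3 / M) (c / K + 3 / M ^ 2) hs1 hZ
      have hav := avg hv1 hr1 hk1 h x j hxj
      have hZ0 : 0 ≤ c / K + 3 / M ^ 2 := by positivity
      have hHH : (H * H).IsSymm := by
        unfold Matrix.IsSymm
        rw [Matrix.transpose_mul, h.sym]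
      have hRe := Rf_eq k N H h.sym x j
      have hSe := Rf_eq k N (H * H) hHH x j
      have hDe := (Df_eq k N H h.sym x j).1
      refine s2_num (v := v) (k := k) (r := r) (K := K) (M := M) (c := c) (a := af H N x j)
        (Q := Qf H N x j) (Q2 := Qf (H * H) N x j) (R := bf H (wf k N x j) (wf k N x j))
        (S := bf (H * H) (wf k N x j) (wf k N x j)) (e := H x x) (z := (H * H) x x)
        (h := trace H / v) (s := trace (H * H) / v) (D := Df H N x j)
        (Db := fs N (Df H N) / ((v : ℝ) * r)) (cb := fs N (cf H N) / ((v : ℝ) * r))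
        (Sg := ∑ y, (N y j : ℝ) * (H * H) y y) (by rw [hK]; ring) rfl K1 hM hv r0 M0 v0 hc0
        hDe hRe hSe e0 (hs1 x) ((sq_nonneg _).trans ez) (hZ x) s1 s2 s3 s4 s5
        (div_nonneg tr0 v0.le) ?_ (div_nonneg tr20 v0.le) ?_ R0 S0 ?_ ?_ s8 hav
      · rw [div_le_iff₀ v0]; linarith
      · rw [div_le_iff₀ v0]; linarith
      · rw [div_le_iff₀ (by positivity)]
        refine hDb.trans ?_
        have e1 : 2 * (k : ℝ) / r * (c / K + 3 / M ^ 2 + 3 / M * (3 / M)) * ((v : ℝ) * r) =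
            2 * (k * v * (c / K + 3 / M ^ 2) + k * (v * (3 / M)) * (3 / M)) := by
          field_simp
        rw [e1]
        have k0 : (0 : ℝ) ≤ k := Nat.cast_nonneg k
        have e2 : (k : ℝ) * ((v : ℝ) - 1) * (c / K + 3 / M ^ 2) ≤
            k * v * (c / K + 3 / M ^ 2) :=
          mul_le_mul_of_nonneg_right (mul_le_mul_of_nonneg_left (by linarith) k0) hZ0
        have e3 : (k : ℝ) * trace H * (3 / M) ≤ k * (v * (3 / M)) * (3 / M) :=
          mul_le_mul_of_nonneg_right (mul_le_mul_of_nonneg_left s6 k0) (by positivity)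
        linarith
      · apply div_nonneg _ (by positivity)
        refine le_trans ?_ hcb
        apply div_nonneg _ M0.le
        have e1 : 2000 * K ≤ 2 * (v : ℝ) / M := by
          rw [le_div_iff₀ M0]; nlinarith
        nlinarith
  have hC : ∀ y l, 0 < N y l → cf H N y l ≤ 100 * K ^ 2 / M ^ 3 :=
    fun y l hyl => (hmax y l hyl).trans hcb'
  have hrC : (r : ℝ) * (100 * K ^ 2 / M ^ 3) = 100 * K / M ^ 2 := by
    rw [hMdef]; field_simp
  have hE : ∀ y, H y y ≤ 1 / M + 100 * K / M ^ 2 := by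
    intro y
    have h1 := flag_avg h _ hC y
    obtain ⟨e0, ez, -, -⟩ := diag_facts h y
    rw [← hK, ← hMdef, hrC] at h1
    by_contra hcon
    push Not at hcon
    have h2 : M * (1 / M + 100 * K / M ^ 2) = 1 + 100 * K / M := by field_simp
    have h3 : 1 + 100 * K / M < M * H y y := by
      rw [← h2]; exact mul_lt_mul_of_pos_left hcon M0
    have h4 : M * (H y y) ^ 2 - H y y ≤ 100 * K / M ^ 2 := by
      have := mul_le_mul_of_nonneg_left ez M0.le
      linarith
    have h5 : 0 < 100 * K / M := by positivity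
    have h6 : 0 < 100 * K / M ^ 2 := by positivity
    have h7 : 1 / M < H y y := by linarith
    have h8 : 100 * K / M ^ 2 = 1 / M * (100 * K / M) := by field_simp
    have h9 : 1 / M * (100 * K / M) < H y y * (M * H y y - 1) := by
      apply mul_lt_mul h7 (by linarith) h5 (by positivity)
    nlinarith
  refine ⟨hC, hE, fun y => ?_⟩
  have h1 := flag_avg h _ hC y
  rw [← hK, ← hMdef, hrC] at h1
  have h2 := hE y
  have h3 : M * (H * H) y y ≤ 1 / M + 200 * K / M ^ 2 := by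
    have : 200 * K / M ^ 2 = 100 * K / M ^ 2 + 100 * K / M ^ 2 := by ring
    linarith
  have h4 : (H * H) y y ≤ (1 / M + 200 * K / M ^ 2) / M := by
    rw [le_div_iff₀ M0]; linarith
  refine h4.trans (le_of_eq ?_)
  field_simp

end HCR
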