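import Mathlib
import Pool.Agent.Lib_helper88.HCR.Defs
import Pool.Agent.Lib_helper88.SPR.Defs
import Pool.Agent.Lib_helper88.SPR.bi
import Pool.Agent.Lib_helper88.SPR.lm

set_option autoImplicit false

namespace HCR

open Finset Matrix

theorem L_psd {v b k r : ℕ} {N : Matrix (Fin v) (Fin b) ℕ} (h : IsDes k r N) (z : Fin v → ℝ) :
    bf (Lm r N) z z ≤ (r : ℝ) * ((k : ℝ) - 1) * (z ⬝ᵥ z) := by
  have e1 : bf (Lm r N) z z = ∑ j, (∑ x, (N x j : ℝ) * z x) ^ 2 - (r : ℝ) * ∑ x, z x * z x := by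
    rw [bf_sum]
    have h1 : ∀ x y : Fin v, z x * Lm r N x y * z y =
        ∑ j, ((N x j : ℝ) * z x) * ((N y j : ℝ) * z y) - if x = y then (r : ℝ) * (z x * z x) else 0 := by
      intro x y
      rw [Lm_apply]
      by_cases hxy : x = y
      · rw [if_pos hxy, if_pos hxy, hxy, mul_sub, sub_mul, Finset.mul_sum, Finset.sum_mul]
        congr 1
        · exact Finset.sum_congr rfl fun j _ => by ring
        · ring
      · rw [if_neg hxy, if_neg hxy, sub_zero, sub_zero, Finset.mul_sum, Finset.sum_mul]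
        exact Finset.sum_congr rfl fun j _ => by ring
    simp_rw [h1, Finset.sum_sub_distrib]
    congr 1
    · have h2 : ∀ x : Fin v, ∑ y, ∑ j, ((N x j : ℝ) * z x) * ((N y j : ℝ) * z y) =
          ∑ j, ∑ y, ((N x j : ℝ) * z x) * ((N y j : ℝ) * z y) := fun x => Finset.sum_comm
      simp_rw [h2]
      rw [Finset.sum_comm]
      refine Finset.sum_congr rfl fun j _ => ?_
      rw [pow_two, Finset.sum_mul_sum]
    · rw [Finset.mul_sum]
      refine Finset.sum_congr rfl fun x _ => ?_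
      rw [Finset.sum_ite_eq univ x (fun _ => (r : ℝ) * (z x * z x)), if_pos (Finset.mem_univ x)]
  have e2 : ∀ j, (∑ x, (N x j : ℝ) * z x) ^ 2 ≤ (k : ℝ) * ∑ x, (N x j : ℝ) * (z x * z x) := by
    intro j
    have h2 : ∑ y, (N y j : ℝ) = (k : ℝ) := by exact_mod_cast h.1 j
    rw [← h2]
    refine Finset.sum_sq_le_sum_mul_sum_of_sq_le_mul univ (fun x _ => Nat.cast_nonneg _)
      (fun x _ => mul_nonneg (Nat.cast_nonneg _) (mul_self_nonneg _))
      (fun x _ => le_of_eq (by ring))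
  have e3 : ∑ j, (k : ℝ) * ∑ x, (N x j : ℝ) * (z x * z x) = (k : ℝ) * (r * ∑ x, z x * z x) := by
    rw [← Finset.mul_sum, Finset.sum_comm, Finset.mul_sum (a := (r : ℝ))]
    congr 1
    refine Finset.sum_congr rfl fun x _ => ?_
    rw [← Finset.sum_mul]
    have h2 : ∑ j, (N x j : ℝ) = (r : ℝ) := by exact_mod_cast h.2 x
    rw [h2]
  rw [e1]
  have e4 := Finset.sum_le_sum fun j (_ : j ∈ (univ : Finset (Fin b))) => e2 j
  rw [e3] at e4
  have e5 : z ⬝ᵥ z = ∑ x, z x * z x := rfl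
  rw [e5]
  linarith

theorem be_one {v : ℕ} (p q : Fin v → ℝ) : bf (1 : Matrix (Fin v) (Fin v) ℝ) p q = p ⬝ᵥ q := by
  unfold bf
  rw [Matrix.one_mulVec]

/-- expansion of the square -/
theorem be_exp {v : ℕ} (A : Matrix (Fin v) (Fin v) ℝ) (hA : A.IsSymm) (u a : Fin v → ℝ) (t : ℝ) :
    bf A (t • u - a) (t • u - a) = t ^ 2 * bf A u u - 2 * t * bf A u a + bf A a a := by
  have s1 : ∀ s : Fin v → ℝ, bf A (t • u - a) s = t * bf A u s - bf A a s := by
    intro s
    rw [(bf_lin A (t • u) a s t).2.1, (bf_lin A u a s t).2.2.2.2.1]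
  have s2 : ∀ s : Fin v → ℝ, bf A s (t • u - a) = t * bf A s u - bf A s a := by
    intro s
    rw [(bf_lin A (t • u) a s t).2.2.2.1, (bf_lin A u a s t).2.2.2.2.2]
  rw [s1, s2, s2, bf_symm A hA a u]
  ring

theorem diag_lower {v b k r : ℕ} {N : Matrix (Fin v) (Fin b) ℕ} {H : Matrix (Fin v) (Fin v) ℝ} (hv : 4 ≤ v) (h : SD k r N H) (K M : ℝ)
    (hP : ParR (v : ℝ) k r K M) (x : Fin v) :
    (1 - 2 / (v : ℝ)) / M ≤ H x x ∧ (1 - 4 / (v : ℝ)) / M ^ 2 ≤ (H * H) x x := by
  have hM0 := hP.M0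
  have hvR : (4 : ℝ) ≤ v := by exact_mod_cast hv
  have hM : (r : ℝ) * ((k : ℝ) - 1) = M := by
    rw [hP.kK, add_sub_cancel_right, hP.rM]
  obtain ⟨hLs, hLn, -⟩ := Lm_facts h.des
  have hsym : ∀ y z, H y z = H z y := by
    intro y z
    have := congrFun (congrFun h.sym z) y
    rwa [Matrix.transpose_apply] at this
  set a : Fin v → ℝ := fun y => H y x with ha
  set t : ℝ := 1 / M with ht
  have hinv : ∀ y, (Lm r N * H) y x = M * a y - ((if y = x then (1 : ℝ) else 0) - 1 / (v : ℝ)) := by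
    intro y
    have := h.inv y x
    rw [hM] at this
    rw [ha]
    linarith
  have b1 : bf (Lm r N) (un x) (un x) = Lm r N x x := bf_un _ x x
  have b2 : bf (Lm r N) (un x) a = (Lm r N * H) x x := by
    rw [bf_un_left, Matrix.mul_apply]
  have b3 : bf (Lm r N) a a = M * (a ⬝ᵥ a) - H x x := by
    have h1 : bf (Lm r N) a a = ∑ y, a y * (Lm r N * H) y x := by
      rw [bf_sum]
      refine Finset.sum_congr rfl fun y _ => ?_
      rw [Matrix.mul_apply, Finset.mul_sum]
      refine Finset.sum_congr rfl fun w _ => ?_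
      ring
    rw [h1]
    simp_rw [hinv]
    have h2 : ∀ y, a y * (M * a y - ((if y = x then (1 : ℝ) else 0) - 1 / (v : ℝ))) =
        M * (a y * a y) - (if y = x then a y else 0) + 1 / (v : ℝ) * a y := by
      intro y
      by_cases hy : y = x
      · rw [if_pos hy, if_pos hy]; ring
      · rw [if_neg hy, if_neg hy]; ring
    simp_rw [h2]
    rw [Finset.sum_add_distrib, Finset.sum_sub_distrib, ← Finset.mul_sum, ← Finset.mul_sum,
      Finset.sum_ite_eq' univ x a, if_pos (Finset.mem_univ x)]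
    have h3 : ∑ y, a y = 0 := by
      rw [← h.one x]
      exact Finset.sum_congr rfl fun y _ => hsym y x
    rw [h3]
    have h4 : a ⬝ᵥ a = ∑ y, a y * a y := rfl
    rw [h4]
    show _ - H x x + _ = _
    ring
  have c1 : bf (1 : Matrix (Fin v) (Fin v) ℝ) (un x) (un x) = 1 := by
    rw [bf_un, Matrix.one_apply_eq]
  have c2 : bf (1 : Matrix (Fin v) (Fin v) ℝ) (un x) a = H x x := by
    rw [bf_un_left]
    have : ∀ y, (1 : Matrix (Fin v) (Fin v) ℝ) x y * a y = if x = y then a y else 0 := by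
      intro y
      rw [Matrix.one_apply]
      by_cases hy : x = y
      · rw [if_pos hy, if_pos hy]; ring
      · rw [if_neg hy, if_neg hy]; ring
    simp_rw [this]
    rw [Finset.sum_ite_eq univ x a, if_pos (Finset.mem_univ x)]
  have hps := L_psd h.des (t • un x - a)
  rw [hM, ← be_one, be_exp _ hLs, be_exp _ Matrix.isSymm_one, b1, b2, b3, c1, c2, be_one,
    hinv x, if_pos rfl] at hps
  have hLx := hLn x x
  have htM : t * M = 1 := by rw [ht]; field_simp
  have hax : a x = H x x := rfl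
  rw [hax] at hps
  have key : (1 - 2 / (v : ℝ)) * t ≤ H x x := by
    have h1 : 0 ≤ t ^ 2 * Lm r N x x := by positivity
    have h2 : M * t ^ 2 = t := by
      calc M * t ^ 2 = (t * M) * t := by ring
        _ = t := by rw [htM, one_mul]
    have h3 : 2 / (v : ℝ) = 2 * (1 / v) := by ring
    rw [h3]
    nlinarith
  have key1 : (1 - 2 / (v : ℝ)) / M ≤ H x x := by
    rw [ht, mul_one_div] at key
    exact key
  refine ⟨key1, ?_⟩
  have h5 : (H x x) ^ 2 ≤ (H * H) x x := by
    rw [Matrix.mul_apply, pow_two]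
    have h3 : ∀ y ∈ (univ : Finset (Fin v)), 0 ≤ H x y * H y x := by
      intro y _
      rw [hsym y x]
      exact mul_self_nonneg _
    exact Finset.single_le_sum h3 (Finset.mem_univ x)
  refine le_trans ?_ h5
  have h6 : 0 ≤ 1 - 2 / (v : ℝ) := by
    have : 2 / (v : ℝ) ≤ 1 := by
      rw [div_le_one (by linarith)]
      linarith
    linarith
  have h7 : ((1 - 2 / (v : ℝ)) / M) ^ 2 ≤ (H x x) ^ 2 :=
    pow_le_pow_left₀ (div_nonneg h6 hM0.le) key1 2
  refine le_trans ?_ h7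
  rw [div_pow]
  refine div_le_div_of_nonneg_right ?_ (by positivity)
  have h8 : 4 / (v : ℝ) = 2 * (2 / v) := by ring
  rw [h8]
  nlinarith [sq_nonneg (2 / (v : ℝ))]

end HCR
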