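import Mathlib
import Pool.Agent.Lib_helper88.HCR.Defs
import Pool.Agent.Lib_helper88.SPR.Defs
import Pool.Agent.Lib_helper88.SPR.bi
import Pool.Agent.Lib_helper88.SPR.lm

set_option autoImplicit false

namespace HCR

open Finset Matrix

/-- the projection `1 - J / v` -/
noncomputable def ta_P (v : ℕ) : Matrix (Fin v) (Fin v) ℝ :=
  Matrix.of fun x y => (if x = y then (1 : ℝ) else 0) - 1 / (v : ℝ)

theorem ta_P_symm (v : ℕ) : (ta_P v)ᵀ = ta_P v := by
  ext x y
  simp only [ta_P, transpose_apply, of_apply, eq_comm]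

theorem ta_mul_P {v : ℕ} (B : Matrix (Fin v) (Fin v) ℝ) (x y : Fin v) :
    (B * ta_P v) x y = B x y - (∑ z, B x z) / v := by
  rw [Matrix.mul_apply]
  simp only [ta_P, of_apply, mul_sub, mul_ite, mul_one, mul_zero, Finset.sum_sub_distrib,
    Finset.sum_ite_eq', Finset.mem_univ, if_true]
  rw [← Finset.sum_mul, mul_one_div]

theorem ta_M {v b k r : ℕ} {N : Matrix (Fin v) (Fin b) ℕ} {H : Matrix (Fin v) (Fin v) ℝ}
    (h : SD k r N H) (K M : ℝ) (hP : ParR (v : ℝ) k r K M) : (r : ℝ) * ((k : ℝ) - 1) = M := by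
  rw [hP.kK, ← hP.rM]
  ring

theorem ta_F1 {v b k r : ℕ} {N : Matrix (Fin v) (Fin b) ℕ} {H : Matrix (Fin v) (Fin v) ℝ}
    (h : SD k r N H) (K M : ℝ) (hP : ParR (v : ℝ) k r K M) :
    M • H = ta_P v + Lm r N * H := by
  ext x y
  have h1 := h.inv x y
  rw [ta_M h K M hP] at h1
  simp only [Matrix.smul_apply, Matrix.add_apply, smul_eq_mul, ta_P, of_apply]
  linarith

theorem ta_F2 {v b k r : ℕ} {N : Matrix (Fin v) (Fin b) ℕ} {H : Matrix (Fin v) (Fin v) ℝ}
    (h : SD k r N H) (K M : ℝ) (hP : ParR (v : ℝ) k r K M) :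
    M • H = ta_P v + H * Lm r N := by
  have h1 := congrArg Matrix.transpose (ta_F1 h K M hP)
  have hA : (Lm r N)ᵀ = Lm r N := (Lm_facts h.des).1
  have hH : Hᵀ = H := h.sym
  rwa [Matrix.transpose_smul, Matrix.transpose_add, Matrix.transpose_mul, ta_P_symm, hA, hH] at h1

theorem ta_comm {v b k r : ℕ} {N : Matrix (Fin v) (Fin b) ℕ} {H : Matrix (Fin v) (Fin v) ℝ}
    (h : SD k r N H) (K M : ℝ) (hP : ParR (v : ℝ) k r K M) :
    Lm r N * H = H * Lm r N := by
  have h1 := ta_F1 h K M hP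
  rw [ta_F2 h K M hP] at h1
  exact (add_left_cancel h1).symm

theorem ta_HP {v b k r : ℕ} {N : Matrix (Fin v) (Fin b) ℕ} {H : Matrix (Fin v) (Fin v) ℝ}
    (h : SD k r N H) : H * ta_P v = H := by
  ext x y
  rw [ta_mul_P, h.one x]
  simp

theorem ta_PH {v b k r : ℕ} {N : Matrix (Fin v) (Fin b) ℕ} {H : Matrix (Fin v) (Fin v) ℝ}
    (h : SD k r N H) : ta_P v * H = H := by
  have h1 := congrArg Matrix.transpose (ta_HP h)
  have hH : Hᵀ = H := h.sym
  rwa [Matrix.transpose_mul, ta_P_symm, hH] at h1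

theorem ta_PP {v : ℕ} (hv : 1 ≤ v) : ta_P v * ta_P v = ta_P v := by
  have hv' : (v : ℝ) ≠ 0 := by positivity
  ext x y
  rw [ta_mul_P]
  have : ∑ z, ta_P v x z = 0 := by
    simp only [ta_P, of_apply, Finset.sum_sub_distrib, Finset.sum_ite_eq, Finset.mem_univ,
      if_true, Finset.sum_const, Finset.card_univ, Fintype.card_fin, nsmul_eq_mul]
    rw [mul_one_div, div_self hv', sub_self]
  rw [this]
  simp

theorem ta_bf_conj {v : ℕ} (B X : Matrix (Fin v) (Fin v) ℝ) (hB : Bᵀ = B) (p : Fin v → ℝ) :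
    bf (B * X * B) p p = bf X (B *ᵥ p) (B *ᵥ p) := by
  unfold bf
  rw [← Matrix.mulVec_mulVec, ← Matrix.mulVec_mulVec, Matrix.dotProduct_mulVec,
    ← Matrix.mulVec_transpose, hB]

theorem exp_two {v b k r : ℕ} {N : Matrix (Fin v) (Fin b) ℕ} {H : Matrix (Fin v) (Fin v) ℝ} (hv : 1 ≤ v) (h : SD k r N H) (K M : ℝ)
    (hP : ParR (v : ℝ) k r K M) (x y : Fin v) :
    M * H x y = (if x = y then (1 : ℝ) else 0) - 1 / (v : ℝ) + 1 / M * (Lm r N x y - M / v) +
        1 / M * (Lm r N * H * Lm r N) x y ∧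
      M ^ 2 * (H * H) x y = (if x = y then (1 : ℝ) else 0) - 1 / (v : ℝ) +
        2 / M * (Lm r N x y - M / v + (Lm r N * H * Lm r N) x y) +
        (Lm r N * (H * H) * Lm r N) x y := by
  have hM0 : M ≠ 0 := hP.M0.ne'
  have F1 := ta_F1 h K M hP
  have F2 := ta_F2 h K M hP
  have hsum : ∀ z, ∑ w, Lm r N z w = M := by
    intro z
    rw [(Lm_facts h.des).2.2.1 z, ta_M h K M hP]
  have e0 : M * H x y = ((if x = y then (1 : ℝ) else 0) - 1 / (v : ℝ)) + (Lm r N * H) x y := by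
    have := congrFun (congrFun F1 x) y
    simpa only [Matrix.smul_apply, Matrix.add_apply, smul_eq_mul, ta_P, of_apply] using this
  have e1 : M * (Lm r N * H) x y = (Lm r N x y - M / v) + (Lm r N * H * Lm r N) x y := by
    have h1 : M • (Lm r N * H) = Lm r N * ta_P v + Lm r N * H * Lm r N := by
      rw [← Matrix.mul_smul, F2, Matrix.mul_add, Matrix.mul_assoc]
    have h2 := congrFun (congrFun h1 x) y
    rw [Matrix.smul_apply, Matrix.add_apply, smul_eq_mul, ta_mul_P, hsum] at h2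
    exact h2
  have e2 : M ^ 2 * (H * H) x y = ((if x = y then (1 : ℝ) else 0) - 1 / (v : ℝ)) +
      2 * (Lm r N * H) x y + (Lm r N * (H * H) * Lm r N) x y := by
    have h1 : M ^ 2 • (H * H) = ta_P v + (H * Lm r N) + (Lm r N * H) +
        Lm r N * (H * H) * Lm r N := by
      have h3 : M ^ 2 • (H * H) = (M • H) * (M • H) := by
        rw [Matrix.smul_mul, Matrix.mul_smul, smul_smul, pow_two]
      rw [h3]
      nth_rewrite 1 [F1]
      rw [F2, Matrix.add_mul, Matrix.mul_add, Matrix.mul_add, ta_PP hv,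
        ← Matrix.mul_assoc (ta_P v) H, ta_PH h, Matrix.mul_assoc (Lm r N) H (ta_P v), ta_HP h]
      simp only [Matrix.mul_assoc]
      abel
    rw [← ta_comm h K M hP] at h1
    have h2 := congrFun (congrFun h1 x) y
    simp only [Matrix.smul_apply, Matrix.add_apply, smul_eq_mul] at h2
    rw [h2]
    simp only [ta_P, of_apply]
    ring
  have e3 : (Lm r N * H) x y = 1 / M * ((Lm r N x y - M / v) + (Lm r N * H * Lm r N) x y) := by
    rw [← e1]
    field_simp
  constructor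
  · rw [e0, e3]
    ring
  · rw [e2, e3]
    ring

theorem exp_psd {v b k r : ℕ} {N : Matrix (Fin v) (Fin b) ℕ} {H : Matrix (Fin v) (Fin v) ℝ} (h : SD k r N H) (p : Fin v → ℝ) :
    0 ≤ bf (Lm r N * H * Lm r N) p p ∧ 0 ≤ bf (Lm r N * (H * H) * Lm r N) p p := by
  have hA : (Lm r N)ᵀ = Lm r N := (Lm_facts h.des).1
  rw [ta_bf_conj _ _ hA, ta_bf_conj _ _ hA]
  refine ⟨h.psd _, ?_⟩
  rw [bf_sq H h.sym]
  exact Finset.sum_nonneg fun i _ => mul_self_nonneg _

end HCR
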