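import Mathlib
import Pool.Agent.Lib_helper88.HCR.Defs
import Pool.Agent.Lib_helper88.SPR.Defs
import Pool.Agent.Lib_helper88.SPR.bi
import Pool.Agent.Lib_helper88.SPR.lm
import Pool.Agent.Lib_helper88.SPR.be
import Pool.Agent.Lib_helper88.SPR.ta

set_option autoImplicit false

namespace HCR

open Finset Matrix

/-- entries of a positive semidefinite matrix are at least minus the bound of the diagonal -/
theorem s3_entry {v : ℕ} (T : Matrix (Fin v) (Fin v) ℝ) (hT : T.IsSymm)
    (hp : ∀ p : Fin v → ℝ, 0 ≤ bf T p p) (B : ℝ) (hB : ∀ x, T x x ≤ B) (x y : Fin v) :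
    -B ≤ T x y := by
  have h1 := bf_cs T hT hp (un x) (un y)
  have hx := hp (un x)
  have hy := hp (un y)
  rw [bf_un] at hx hy
  rw [bf_un, bf_un, bf_un] at h1
  have hB0 : 0 ≤ B := le_trans hx (hB x)
  have h2 : (T x y) ^ 2 ≤ B ^ 2 := by
    calc (T x y) ^ 2 ≤ T x x * T y y := h1
      _ ≤ B * B := mul_le_mul (hB x) (hB y) hy hB0
      _ = B ^ 2 := by ring
  exact (abs_le_of_sq_le_sq' h2 hB0).1

theorem entries {v b k r : ℕ} {N : Matrix (Fin v) (Fin b) ℕ} {H : Matrix (Fin v) (Fin v) ℝ} (hP : ParR (v : ℝ) k r ((k : ℝ) - 1) ((r : ℝ) * ((k : ℝ) - 1)))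
    (h : SD k r N H) (S : St2 N H ((k : ℝ) - 1) ((r : ℝ) * ((k : ℝ) - 1))) (K M : ℝ)
    (hK : K = (k : ℝ) - 1) (hM : M = (r : ℝ) * ((k : ℝ) - 1)) (x y : Fin v) (hxy : x ≠ y) :
    -(400 * K / M + 10 / v) / M ^ 2 ≤ (H * H) x y ∧ -(100 * K / M + 4 / v) / M ≤ H x y := by
  rw [← hM, ← hK] at hP S
  have hM0 : 0 < M := hP.M0
  have hv0 : (0 : ℝ) < v := hP.v0
  have hv1 : 1 ≤ v := by
    have : 0 < v := by exact_mod_cast hv0
    exact this
  obtain ⟨hLs, hL0, -, -, -, -⟩ := Lm_facts h.des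
  have hT1s : (Lm r N * H * Lm r N).IsSymm := by
    unfold Matrix.IsSymm
    rw [transpose_mul, transpose_mul, hLs.eq, h.sym.eq, Matrix.mul_assoc]
  have hT2s : (Lm r N * (H * H) * Lm r N).IsSymm := by
    unfold Matrix.IsSymm
    rw [transpose_mul, transpose_mul, transpose_mul, hLs.eq, h.sym.eq]
    simp only [Matrix.mul_assoc]
  have hT1p := fun p => (exp_psd h p).1
  have hT2p := fun p => (exp_psd h p).2
  have hT1d0 : ∀ x, 0 ≤ (Lm r N * H * Lm r N) x x := by
    intro x
    have := hT1p (un x)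
    rwa [bf_un] at this
  have hT1d : ∀ x, (Lm r N * H * Lm r N) x x ≤ 100 * K + 2 * M / v := by
    intro x
    have h1 := (exp_two hv1 h K M hP x x).1
    rw [if_pos rfl] at h1
    have h2 : (Lm r N * H * Lm r N) x x = M ^ 2 * H x x - M + 2 * M / v - Lm r N x x := by
      have h3 : M * (M * H x x) = M * (1 - 1 / (v : ℝ) + 1 / M * (Lm r N x x - M / v) +
        1 / M * (Lm r N * H * Lm r N) x x) := by rw [h1]
      have h4 : M * (1 - 1 / (v : ℝ) + 1 / M * (Lm r N x x - M / v) +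
        1 / M * (Lm r N * H * Lm r N) x x) = M - M / v + (Lm r N x x - M / v) +
        (Lm r N * H * Lm r N) x x := by
        field_simp
      rw [h4] at h3
      linear_combination (-1 : ℝ) * h3
    have h5 : M ^ 2 * H x x ≤ M + 100 * K := by
      calc M ^ 2 * H x x ≤ M ^ 2 * (1 / M + 100 * K / M ^ 2) :=
            mul_le_mul_of_nonneg_left (S.e x) (by positivity)
        _ = M + 100 * K := by field_simp
    rw [h2]
    linarith [hL0 x x]
  have hT2d : ∀ x, (Lm r N * (H * H) * Lm r N) x x ≤ 200 * K / M + 3 / v := by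
    intro x
    have h1 := (exp_two hv1 h K M hP x x).2
    rw [if_pos rfl] at h1
    have h2 : 2 / M * (Lm r N x x - M / v + (Lm r N * H * Lm r N) x x) =
        2 / M * Lm r N x x + 2 / M * (Lm r N * H * Lm r N) x x - 2 / v := by
      field_simp
      ring
    have h3 : M ^ 2 * (H * H) x x ≤ 1 + 200 * K / M := by
      calc M ^ 2 * (H * H) x x ≤ M ^ 2 * (1 / M ^ 2 + 200 * K / M ^ 3) :=
            mul_le_mul_of_nonneg_left (S.z x) (by positivity)
        _ = 1 + 200 * K / M := by field_simp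
    have h4 : 0 ≤ 2 / M * Lm r N x x := mul_nonneg (by positivity) (hL0 x x)
    have h5 : 0 ≤ 2 / M * (Lm r N * H * Lm r N) x x := mul_nonneg (by positivity) (hT1d0 x)
    have h6 : (3 : ℝ) / v = 1 / v + 2 / v := by ring
    rw [h6]
    linarith
  have h1 := s3_entry _ hT1s hT1p _ hT1d x y
  have h2 := s3_entry _ hT2s hT2p _ hT2d x y
  obtain ⟨h3, h4⟩ := exp_two hv1 h K M hP x y
  rw [if_neg hxy] at h3 h4
  have h5 := hL0 x y
  constructor
  · rw [div_le_iff₀ (by positivity), mul_comm ((H * H) x y), h4]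
    have h6 : 2 / M * (Lm r N x y - M / v + (Lm r N * H * Lm r N) x y) ≥
        2 / M * (0 - M / v + -(100 * K + 2 * M / v)) := by
      apply mul_le_mul_of_nonneg_left _ (by positivity)
      linarith
    have h7 : 2 / M * (0 - M / v + -(100 * K + 2 * M / v)) = -(200 * K / M + 6 / v) := by
      field_simp
      ring
    rw [h7] at h6
    have h8 : -(400 * K / M + 10 / (v : ℝ)) = 0 - 1 / (v : ℝ) + -(200 * K / M + 6 / v) +
        -(200 * K / M + 3 / v) := by ring
    rw [h8]
    linarith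
  · rw [div_le_iff₀ hM0, mul_comm (H x y), h3]
    have h6 : 1 / M * (Lm r N x y - M / v) ≥ 1 / M * (0 - M / v) := by
      apply mul_le_mul_of_nonneg_left _ (by positivity)
      linarith
    have h7 : 1 / M * (Lm r N * H * Lm r N) x y ≥ 1 / M * (-(100 * K + 2 * M / v)) :=
      mul_le_mul_of_nonneg_left h1 (by positivity)
    have h8 : 1 / M * (0 - M / v) = -(1 / (v : ℝ)) := by field_simp; ring
    have h9 : 1 / M * (-(100 * K + 2 * M / v)) = -(100 * K / M + 2 / v) := by
      field_simp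
    rw [h8] at h6
    rw [h9] at h7
    have h10 : -(100 * K / M + 4 / (v : ℝ)) = 0 - 1 / (v : ℝ) + -(1 / (v : ℝ)) +
        -(100 * K / M + 2 / v) := by ring
    rw [h10]
    linarith

end HCR
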