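import Mathlib
import Pool.Agent.Lib_helper88.HCR.Defs
import Pool.Agent.Lib_helper88.SPR.Defs
import Pool.Agent.Lib_helper88.SPR.bi
import Pool.Agent.Lib_helper88.SPR.be
import Pool.Agent.Lib_helper88.SPR.s3

set_option autoImplicit false

namespace HCR

open Finset Matrix

/-- the numerical contradiction -/
theorem s4_num {v K M c : ℝ} (K1 : 1 ≤ K) (hM : 10000 * K ^ 3 ≤ M) (hv : 1000 * K * M ≤ v)
    (h1 : (1 - 4 / v) / M ^ 2 - K * ((400 * K / M + 10 / v) / M ^ 2) ≤ c)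
    (h2 : c ≤ 100 * K ^ 2 / M ^ 3) : False := by
  have hK3 : K ^ 2 ≤ K ^ 3 := by nlinarith [sq_nonneg K, mul_nonneg (sq_nonneg K) (by linarith : (0:ℝ) ≤ K - 1)]
  have hK2 : K ≤ K ^ 2 := by nlinarith
  have M0 : 0 < M := by nlinarith
  have hM1 : 10000 ≤ M := by nlinarith
  have hv1 : 10000000 * K ≤ v := by nlinarith
  have v0 : 0 < v := by nlinarith
  have h3 : (1 - 4 / v) / M ^ 2 - K * ((400 * K / M + 10 / v) / M ^ 2) ≤ 100 * K ^ 2 / M ^ 3 :=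
    h1.trans h2
  have e1 : 100 * K ^ 2 / M ^ 3 = (100 * (K ^ 2 / M)) / M ^ 2 := by
    field_simp
  have e2 : (1 - 4 / v) / M ^ 2 - K * ((400 * K / M + 10 / v) / M ^ 2) =
      (1 - 4 / v - 400 * (K ^ 2 / M) - 10 * (K / v)) / M ^ 2 := by
    field_simp
    ring
  rw [e1, e2, div_le_div_iff_of_pos_right (by positivity)] at h3
  have a1 : K ^ 2 / M ≤ 1 / 10000 := by
    rw [div_le_div_iff₀ M0 (by norm_num)]
    nlinarith
  have a2 : K / v ≤ 1 / 10000000 := by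
    rw [div_le_div_iff₀ v0 (by norm_num)]
    linarith
  have a3 : 4 / v ≤ 4 / 10000000 := by
    rw [div_le_div_iff₀ v0 (by norm_num)]
    nlinarith
  linarith

theorem binary {v b k r : ℕ} {N : Matrix (Fin v) (Fin b) ℕ} {H : Matrix (Fin v) (Fin v) ℝ} (hP : ParR (v : ℝ) k r ((k : ℝ) - 1) ((r : ℝ) * ((k : ℝ) - 1)))
    (h : SD k r N H) (S : St2 N H ((k : ℝ) - 1) ((r : ℝ) * ((k : ℝ) - 1))) (x : Fin v) (j : Fin b) :
    N x j ≤ 1 := by
  by_contra hN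
  have hN2 : 2 ≤ N x j := by omega
  have hN2' : (2 : ℝ) ≤ (N x j : ℝ) := by exact_mod_cast hN2
  have hc := S.c x j (by omega)
  obtain ⟨K, hK⟩ : ∃ K : ℝ, K = (k : ℝ) - 1 := ⟨_, rfl⟩
  obtain ⟨M, hM⟩ : ∃ M : ℝ, M = (r : ℝ) * ((k : ℝ) - 1) := ⟨_, rfl⟩
  have hE := fun y hxy => (entries hP h S K M hK hM x y hxy).1
  rw [← hM, ← hK] at hP hc
  have K1 := hP.K1
  have hM3 := hP.hM
  have hv := hP.hv
  have M0 := hP.M0
  have v0 := hP.v0
  have hK2 : 1 ≤ K ^ 3 := one_le_pow₀ K1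
  have hM1 : 10000 ≤ M := by linarith
  have hvv : (4 : ℝ) ≤ (v : ℝ) := by nlinarith
  have hv4 : 4 ≤ v := by exact_mod_cast hvv
  have hz := (diag_lower hv4 h K M hP x).2
  obtain ⟨c, hcc⟩ : ∃ c : ℝ, c = (400 * K / M + 10 / v) / M ^ 2 := ⟨_, rfl⟩
  have hc0 : 0 ≤ c := by rw [hcc]; positivity
  have hz0 : 0 ≤ (1 - 4 / (v : ℝ)) / M ^ 2 := by
    apply div_nonneg _ (by positivity)
    rw [sub_nonneg, div_le_one v0]
    exact hvv
  refine s4_num K1 hM3 hv ?_ hc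
  unfold cf
  rw [bf_un_left]
  have hk : ∑ y, (N y j : ℝ) = (k : ℝ) := by
    rw [← h.des.1 j]
    push_cast
    rfl
  have hterm : ∀ y : Fin v, (if y = x then (1 - 4 / (v : ℝ)) / M ^ 2 + c * (N x j : ℝ) else 0)
      - c * (N y j : ℝ) ≤ (H * H) x y * qf N x j y := by
    intro y
    unfold qf
    by_cases hy : y = x
    · rw [if_pos hy, if_pos hy, hy]
      nlinarith [mul_nonneg (hz0.trans hz) (by linarith : (0 : ℝ) ≤ (N x j : ℝ) - 2)]
    · rw [if_neg hy, if_neg hy, zero_sub, sub_zero]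
      have h1 := hE y (fun e => hy e.symm)
      have h2 : -c ≤ (H * H) x y := by
        rw [hcc, ← neg_div]
        exact h1
      have h3 : (0 : ℝ) ≤ (N y j : ℝ) := Nat.cast_nonneg _
      nlinarith [mul_nonneg (by linarith : 0 ≤ (H * H) x y + c) h3]
  have hsum := Finset.sum_le_sum fun y (_ : y ∈ univ) => hterm y
  rw [Finset.sum_sub_distrib, ← Finset.mul_sum, hk, Finset.sum_ite_eq' univ x,
    if_pos (mem_univ x)] at hsum
  refine le_trans ?_ hsum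
  rw [← hcc]
  have h4 : (k : ℝ) = K + 1 := hP.kK
  rw [h4]
  nlinarith [mul_nonneg hc0 (by linarith : (0 : ℝ) ≤ (N x j : ℝ) - 1)]

end HCR
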