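import Mathlib
import Pool.Agent.Lib_helper88.HCR.Defs
import Pool.Agent.Lib_helper88.SPR.Defs
import Pool.Agent.Lib_helper88.SPR.bi
import Pool.Agent.Lib_helper88.SPR.lm
import Pool.Agent.Lib_helper88.SPR.be
import Pool.Agent.Lib_helper88.SPR.s3
import Pool.Agent.Lib_helper88.SPR.s4

set_option autoImplicit false

namespace HCR

open Finset Matrix

theorem s5_lower {v : ℕ} {q G : Fin v → ℝ} {c : ℝ} (hq : ∀ y, 0 ≤ q y)
    (hG : ∀ y, q y ≠ 0 → c ≤ G y) : c * ∑ y, q y ≤ ∑ y, G y * q y := by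
  rw [mul_sum]
  refine sum_le_sum fun y _ => ?_
  by_cases h : q y = 0
  · rw [h, mul_zero, mul_zero]
  · exact mul_le_mul_of_nonneg_right (hG y h) (hq y)

theorem s5_sum {v b k r : ℕ} {N : Matrix (Fin v) (Fin b) ℕ} (h : IsDes k r N) (x : Fin v)
    (j : Fin b) : ∑ y, qf N x j y = (k : ℝ) - 1 := by
  unfold qf
  rw [sum_sub_distrib, sum_ite_eq' univ x (fun _ => (1 : ℝ)), if_pos (mem_univ x), ← Nat.cast_sum,
    h.1 j]

theorem s5_q {v b : ℕ} {N : Matrix (Fin v) (Fin b) ℕ} {x : Fin v} {j : Fin b}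
    (hb : ∀ y, N y j ≤ 1) (hx : 0 < N x j) (y : Fin v) : 0 ≤ qf N x j y ∧
    (qf N x j y ≠ 0 → y ≠ x ∧ 0 < N y j) := by
  unfold qf
  by_cases h : y = x
  · subst h
    have h1 : N y j = 1 := le_antisymm (hb y) hx
    rw [h1, if_pos rfl]
    norm_num
  · rw [if_neg h, sub_zero]
    refine ⟨Nat.cast_nonneg _, fun h1 => ⟨h, ?_⟩⟩
    have h2 : N y j ≠ 0 := fun h3 => h1 (by rw [h3, Nat.cast_zero])
    omega

theorem s5_sq {v : ℕ} {H : Matrix (Fin v) (Fin v) ℝ} (hs : H.IsSymm) (w : Fin v) :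
    0 ≤ (H * H) w w := by
  rw [Matrix.mul_apply]
  refine sum_nonneg fun y _ => ?_
  rw [hs.apply y w]
  exact mul_self_nonneg _

/-- `H = M H² - Lm H²` -/
theorem s5_id {v b k r : ℕ} {N : Matrix (Fin v) (Fin b) ℕ} {H : Matrix (Fin v) (Fin v) ℝ}
    (h : SD k r N H) (x z : Fin v) :
    H x z = (r : ℝ) * ((k : ℝ) - 1) * (H * H) x z - ∑ w, Lm r N x w * (H * H) w z := by
  have h1 : ∑ y, ((r : ℝ) * ((k : ℝ) - 1) * H x y - (Lm r N * H) x y) * H y z =
      ∑ y, ((if x = y then (1 : ℝ) else 0) - 1 / (v : ℝ)) * H y z :=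
    sum_congr rfl fun y _ => by rw [h.inv x y]
  have h2 : ∑ y, ((if x = y then (1 : ℝ) else 0) - 1 / (v : ℝ)) * H y z = H x z := by
    have e1 : ∀ y, ((if x = y then (1 : ℝ) else 0) - 1 / (v : ℝ)) * H y z =
        (if x = y then H y z else 0) - 1 / (v : ℝ) * H z y := by
      intro y
      rw [h.sym.apply y z]
      split_ifs <;> ring
    rw [sum_congr rfl fun y _ => e1 y, sum_sub_distrib, sum_ite_eq univ x (fun y => H y z),
      if_pos (mem_univ x), ← mul_sum, h.one z, mul_zero, sub_zero]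
  have h3 : ∑ y, ((r : ℝ) * ((k : ℝ) - 1) * H x y - (Lm r N * H) x y) * H y z =
      (r : ℝ) * ((k : ℝ) - 1) * (H * H) x z - (Lm r N * H * H) x z := by
    rw [Matrix.mul_apply (M := H), Matrix.mul_apply (M := Lm r N * H), mul_sum,
      ← sum_sub_distrib]
    refine sum_congr rfl fun y _ => ?_
    ring
  have h4 : (Lm r N * H * H) x z = ∑ w, Lm r N x w * (H * H) w z := by
    rw [Matrix.mul_assoc, Matrix.mul_apply]
  rw [← h4, ← h3, h1, h2]

theorem a_bounds {v b k r : ℕ} {N : Matrix (Fin v) (Fin b) ℕ} {H : Matrix (Fin v) (Fin v) ℝ} (hP : ParR (v : ℝ) k r ((k : ℝ) - 1) ((r : ℝ) * ((k : ℝ) - 1)))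
    (h : SD k r N H) (S : St2 N H ((k : ℝ) - 1) ((r : ℝ) * ((k : ℝ) - 1))) (K M : ℝ)
    (hK : K = (k : ℝ) - 1) (hM : M = (r : ℝ) * ((k : ℝ) - 1)) (x : Fin v) (j : Fin b)
    (hx : 0 < N x j) :
    -(K / M * (100 * K / M + 4 / v)) ≤ af H N x j ∧
      af H N x j ≤ K / M * (500 * K / M + 10 / v) ∧
      -(K * (400 * K / M + 10 / v) / M ^ 2) ≤ cf H N x j := by
  have hbin := fun y => binary hP h S y j
  have hent := fun y z hyz => entries hP h S K M hK hM y z hyz
  obtain ⟨-, hL0, hL1, -⟩ := Lm_facts h.des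
  have hid := s5_id h
  rw [← hM] at hL1 hid
  rw [← hM, ← hK] at hP S
  have hM0 := hP.M0
  have hv0 := hP.v0
  have hK1 := hP.K1
  have hK0 : 0 ≤ K := by linarith
  have hsum : ∑ y, qf N x j y = K := by rw [s5_sum h.des, hK]
  have hq := fun y => s5_q hbin hx y
  have hS := S.c x j hx
  have hcf : cf H N x j = ∑ y, (H * H) x y * qf N x j y := bf_un_left _ _ _
  have haf : af H N x j = ∑ y, H x y * qf N x j y := bf_un_left _ _ _
  have hlow : ∀ w : Fin v, -(K * (400 * K / M + 10 / v) / M ^ 2) ≤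
      ∑ y, (H * H) w y * qf N x j y := by
    intro w
    have h1 := s5_lower (c := -(400 * K / M + 10 / v) / M ^ 2) (q := qf N x j)
      (G := fun y => (H * H) w y) (fun y => (hq y).1) (fun y hy => by
        by_cases hwy : w = y
        · subst hwy
          refine le_trans ?_ (s5_sq h.sym w)
          rw [neg_div]
          have : 0 ≤ (400 * K / M + 10 / v) / M ^ 2 := by positivity
          linarith
        · exact (hent w y hwy).1)
    rw [hsum] at h1
    refine le_trans (le_of_eq ?_) h1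
    ring
  refine ⟨?_, ?_, ?_⟩
  · rw [haf]
    have h1 := s5_lower (c := -(100 * K / M + 4 / v) / M) (q := qf N x j)
      (G := fun y => H x y) (fun y => (hq y).1)
      (fun y hy => (hent x y ((hq y).2 hy).1.symm).2)
    rw [hsum] at h1
    refine le_trans (le_of_eq ?_) h1
    ring
  · have h1 : af H N x j = M * cf H N x j -
        ∑ w, Lm r N x w * ∑ y, (H * H) w y * qf N x j y := by
      rw [haf, hcf, mul_sum]
      have e1 : ∑ w, Lm r N x w * ∑ y, (H * H) w y * qf N x j y =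
          ∑ y, (∑ w, Lm r N x w * (H * H) w y) * qf N x j y := by
        rw [sum_congr rfl fun w _ => mul_sum univ (fun y => (H * H) w y * qf N x j y)
          (Lm r N x w), sum_comm]
        refine sum_congr rfl fun y _ => ?_
        rw [sum_mul]
        refine sum_congr rfl fun w _ => ?_
        ring
      rw [e1, ← sum_sub_distrib]
      refine sum_congr rfl fun y _ => ?_
      rw [hid x y]
      ring
    have h2 : -(K * (400 * K / M + 10 / v) / M ^ 2) * M ≤
        ∑ w, Lm r N x w * ∑ y, (H * H) w y * qf N x j y := by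
      rw [← hL1 x, mul_sum]
      refine sum_le_sum fun w _ => ?_
      rw [mul_comm]
      exact mul_le_mul_of_nonneg_left (by rw [hL1 x]; exact hlow w) (hL0 x w)
    rw [h1]
    have h3 : M * cf H N x j ≤ M * (100 * K ^ 2 / M ^ 3) := mul_le_mul_of_nonneg_left hS hM0.le
    have h4 : M * (100 * K ^ 2 / M ^ 3) + K * (400 * K / M + 10 / v) / M ^ 2 * M =
        K / M * (500 * K / M + 10 / v) := by
      field_simp
      ring
    linarith
  · rw [hcf]
    exact hlow x

end HCR
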