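import Mathlib
import Pool.Agent.Lib_helper88.HCR.Defs
import Pool.Agent.Lib_helper88.SPR.Defs
import Pool.Agent.Lib_helper88.SPR.bi
import Pool.Agent.Lib_helper88.SPR.rf
import Pool.Agent.Lib_helper88.SPR.ve
import Pool.Agent.Lib_helper88.SPR.bc
import Pool.Agent.Lib_helper88.SPR.bd
import Pool.Agent.Lib_helper88.SPR.be
import Pool.Agent.Lib_helper88.SPR.s5

set_option autoImplicit false

namespace HCR

open Finset Matrix

/-- numbers: `a = 1/M`, `t = K/M`, `w = 1/v` -/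
theorem s7_num {K a t w q q2 A C : ℝ} (hK : 1 ≤ K) (ha : 0 < a) (ht : 0 ≤ t)
    (ht1 : t ≤ 1 / 10000) (hw : 0 ≤ w) (hw1 : w ≤ 1 / 1000)
    (hq : q ≤ a * (K + 100 * K ^ 2 * t + K ^ 2 * w))
    (hq2 : q2 ≤ a ^ 2 * (K + 200 * K ^ 2 * t + 2 * K ^ 2 * w))
    (hA : A = K * a * (500 * t + 10 * w)) (hC : C = K * (400 * t + 10 * w) * a ^ 2) :
    a ^ 2 * (1 + 200 * t) * q + a * (1 + 100 * t) * q2 + 2 * (A * C) ≤
      a ^ 3 * (2 * K + K ^ 2 * (1040 * t + 404 * w)) := by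
  have h1 : a ^ 2 * (1 + 200 * t) * q ≤
      a ^ 2 * (1 + 200 * t) * (a * (K + 100 * K ^ 2 * t + K ^ 2 * w)) :=
    mul_le_mul_of_nonneg_left hq (by positivity)
  have h2 : a * (1 + 100 * t) * q2 ≤
      a * (1 + 100 * t) * (a ^ 2 * (K + 200 * K ^ 2 * t + 2 * K ^ 2 * w)) :=
    mul_le_mul_of_nonneg_left hq2 (by positivity)
  have h3 : a ^ 2 * (1 + 200 * t) * (a * (K + 100 * K ^ 2 * t + K ^ 2 * w)) +
      a * (1 + 100 * t) * (a ^ 2 * (K + 200 * K ^ 2 * t + 2 * K ^ 2 * w)) + 2 * (A * C) =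
      a ^ 3 * (2 * K + 300 * (K * t) + K ^ 2 * (300 * t + 3 * w + 40000 * t ^ 2 + 400 * (t * w) +
        2 * ((500 * t + 10 * w) * (400 * t + 10 * w)))) := by
    rw [hA, hC]
    ring
  have h4 : K * t ≤ K ^ 2 * t := by
    have : K ≤ K ^ 2 := by nlinarith
    exact mul_le_mul_of_nonneg_right this ht
  have h5 : t ^ 2 ≤ 1 / 10000 * t := by nlinarith
  have h6 : t * w ≤ 1 / 10000 * w := mul_le_mul_of_nonneg_right ht1 hw
  have h7 : w ^ 2 ≤ 1 / 1000 * w := by nlinarith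
  have h8 : 300 * t + 3 * w + 40000 * t ^ 2 + 400 * (t * w) +
        2 * ((500 * t + 10 * w) * (400 * t + 10 * w)) ≤ 740 * t + 404 * w := by
    have : 2 * ((500 * t + 10 * w) * (400 * t + 10 * w)) =
        400000 * t ^ 2 + 18000 * (t * w) + 200 * w ^ 2 := by ring
    rw [this]
    linarith
  have h9 : K ^ 2 * (300 * t + 3 * w + 40000 * t ^ 2 + 400 * (t * w) +
        2 * ((500 * t + 10 * w) * (400 * t + 10 * w))) ≤ K ^ 2 * (740 * t + 404 * w) :=
    mul_le_mul_of_nonneg_left h8 (by positivity)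
  calc _ ≤ a ^ 2 * (1 + 200 * t) * (a * (K + 100 * K ^ 2 * t + K ^ 2 * w)) +
      a * (1 + 100 * t) * (a ^ 2 * (K + 200 * K ^ 2 * t + 2 * K ^ 2 * w)) + 2 * (A * C) := by
        linarith
    _ = _ := h3
    _ ≤ _ := by
        refine mul_le_mul_of_nonneg_left ?_ (by positivity)
        have h10 : K ^ 2 * (1040 * t + 404 * w) = 300 * (K ^ 2 * t) + K ^ 2 * (740 * t + 404 * w) := by
          ring
        rw [h10]
        linarith

theorem Dbar_sharp {v b k r : ℕ} {N : Matrix (Fin v) (Fin b) ℕ} {H : Matrix (Fin v) (Fin v) ℝ} (hP : ParR (v : ℝ) k r ((k : ℝ) - 1) ((r : ℝ) * ((k : ℝ) - 1)))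
    (h : SD k r N H) (S : St2 N H ((k : ℝ) - 1) ((r : ℝ) * ((k : ℝ) - 1))) (K M : ℝ)
    (hK : K = (k : ℝ) - 1) (hM : M = (r : ℝ) * ((k : ℝ) - 1)) :
    fs N (Df H N) / ((v : ℝ) * r) ≤ 1 / M ^ 3 * (2 * K + K ^ 2 * (1040 * K / M + 404 / v)) := by
  have hP' : ParR (v : ℝ) k r K M := by rw [hK, hM]; exact hP
  have S' : St2 N H K M := by rw [hK, hM]; exact S
  obtain ⟨p1, p2, p3, p4, p5, p6, p7, p8, p9⟩ := hP'
  have hM1 : 10000 ≤ M := by
    have : (1 : ℝ) ≤ K ^ 3 := one_le_pow₀ p3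
    linarith
  have hv1 : (1000 : ℝ) * 10000 ≤ v := by
    have h1 : 1 * 10000 ≤ K * M := mul_le_mul p3 hM1 (by norm_num) (by linarith)
    linarith
  have hv4 : 4 ≤ v := by
    have : (4 : ℝ) ≤ v := by linarith
    exact_mod_cast this
  have hr1 : 1 ≤ r := by
    have : (0 : ℝ) < r := p7
    exact_mod_cast this
  have hk1 : 1 ≤ k := by
    have : (1 : ℝ) ≤ k := by linarith
    exact_mod_cast this
  obtain ⟨E, hE⟩ : ∃ E : ℝ, E = 1 / M + 100 * K / M ^ 2 := ⟨_, rfl⟩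
  obtain ⟨Z, hZ⟩ : ∃ Z : ℝ, Z = 1 / M ^ 2 + 200 * K / M ^ 3 := ⟨_, rfl⟩
  obtain ⟨A, hA⟩ : ∃ A : ℝ, A = K / M * (500 * K / M + 10 / v) := ⟨_, rfl⟩
  obtain ⟨C, hC⟩ : ∃ C : ℝ, C = K * (400 * K / M + 10 / v) / M ^ 2 := ⟨_, rfl⟩
  have hK0 : 0 < K := by linarith
  have hE0 : 0 < E := by rw [hE]; positivity
  have hZ0 : 0 < Z := by rw [hZ]; positivity
  have hA0 : 0 ≤ A := by rw [hA]; positivity
  have hC0 : 0 ≤ C := by rw [hC]; positivity
  have hSE : ∀ x, H x x ≤ E := fun x => by rw [hE]; exact S'.e x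
  have hSZ : ∀ x, (H * H) x x ≤ Z := fun x => by rw [hZ]; exact S'.z x
  -- every flag
  have h1 : ∀ x j, 0 < N x j →
      Df H N x j ≤ Z * Qf H N x j + E * Qf (H * H) N x j + 2 * (A * C) := by
    intro x j hx
    obtain ⟨-, s2, -, s4, -, -, -, -⟩ := sup_facts hk1 h E Z hSE hSZ x j hx
    obtain ⟨a1, a2, a3⟩ := a_bounds hP h S K M hK hM x j hx
    have hc := S'.c x j hx
    rw [(Df_eq k N H h.sym x j).1]
    have e1 : Qf H N x j * (H * H) x x ≤ Z * Qf H N x j := by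
      rw [mul_comm Z]
      exact mul_le_mul_of_nonneg_left (hSZ x) s2
    have e2 : H x x * Qf (H * H) N x j ≤ E * Qf (H * H) N x j :=
      mul_le_mul_of_nonneg_right (hSE x) s4
    have e3 : |af H N x j| ≤ A := by
      rw [abs_le, hA]
      refine ⟨le_trans ?_ a1, a2⟩
      apply neg_le_neg
      refine mul_le_mul_of_nonneg_left ?_ (by positivity)
      have : 100 * K / M ≤ 500 * K / M := by
        apply div_le_div_of_nonneg_right _ p8.le
        linarith
      have : 4 / (v : ℝ) ≤ 10 / v := by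
        apply div_le_div_of_nonneg_right _ p9.le
        norm_num
      linarith
    have e4 : |cf H N x j| ≤ C := by
      rw [abs_le, hC]
      refine ⟨a3, hc.trans ?_⟩
      have : 100 * K ^ 2 / M ^ 3 = K * (100 * K / M) / M ^ 2 := by
        field_simp
      rw [this]
      apply div_le_div_of_nonneg_right _ (by positivity)
      refine mul_le_mul_of_nonneg_left ?_ hK0.le
      have h5 : 100 * K / M ≤ 400 * K / M := by
        apply div_le_div_of_nonneg_right _ p8.le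
        linarith
      have h6 : 0 ≤ 10 / (v : ℝ) := by positivity
      linarith
    have e5 : -(2 * af H N x j * cf H N x j) ≤ 2 * (A * C) := by
      have h7 : |af H N x j * cf H N x j| ≤ A * C := by
        rw [abs_mul]
        exact mul_le_mul e3 e4 (abs_nonneg _) hA0
      have h8 := neg_abs_le (af H N x j * cf H N x j)
      have h9 : -(2 * af H N x j * cf H N x j) = 2 * -(af H N x j * cf H N x j) := by ring
      rw [h9]
      linarith
    linarith
  have h2 := fs_le h.des (Df H N)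
    (fun x j => Z * Qf H N x j + E * Qf (H * H) N x j + 2 * (A * C)) h1
  have h3 : fs N (fun x j => Z * Qf H N x j + E * Qf (H * H) N x j + 2 * (A * C)) =
      Z * fs N (Qf H N) + E * fs N (Qf (H * H) N) + (v : ℝ) * r * (2 * (A * C)) := by
    rw [← fs_one h.des (2 * (A * C))]
    unfold fs
    rw [Finset.mul_sum, Finset.mul_sum, ← Finset.sum_add_distrib, ← Finset.sum_add_distrib]
    refine Finset.sum_congr rfl fun w _ => ?_
    rw [Finset.mul_sum, Finset.mul_sum, ← Finset.sum_add_distrib, ← Finset.sum_add_distrib]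
    refine Finset.sum_congr rfl fun l _ => ?_
    ring
  rw [h3] at h2
  -- the averages
  obtain ⟨-, -, -, f4, f5⟩ := fs_e (by omega : 1 ≤ v) h (fun _ => 0) (fun _ => 0)
  rw [← hK] at f4 f5
  have hk2 : (k : ℝ) - 2 = K - 1 := by linarith
  rw [hk2] at f4 f5
  have hvr : 0 < (v : ℝ) * r := mul_pos p9 p7
  have htr : trace H ≤ v * E := by
    unfold Matrix.trace
    calc ∑ i, H.diag i ≤ ∑ _i : Fin v, E := Finset.sum_le_sum fun i _ => hSE i
      _ = v * E := by simp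
  have htr2 : trace (H * H) ≤ v * Z := by
    unfold Matrix.trace
    calc ∑ i, (H * H).diag i ≤ ∑ _i : Fin v, Z := Finset.sum_le_sum fun i _ => hSZ i
      _ = v * Z := by simp
  have htl : (v : ℝ) * ((1 - 2 / (v : ℝ)) / M) ≤ trace H := by
    unfold Matrix.trace
    calc (v : ℝ) * ((1 - 2 / (v : ℝ)) / M) = ∑ _i : Fin v, (1 - 2 / (v : ℝ)) / M := by simp
      _ ≤ ∑ i, H.diag i := Finset.sum_le_sum fun i _ =>
        (diag_lower hv4 h K M ⟨p1, p2, p3, p4, p5, p6, p7, p8, p9⟩ i).1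
  obtain ⟨a, ha⟩ : ∃ a : ℝ, a = 1 / M := ⟨_, rfl⟩
  obtain ⟨t, ht⟩ : ∃ t : ℝ, t = K / M := ⟨_, rfl⟩
  obtain ⟨w, hw⟩ : ∃ w : ℝ, w = 1 / (v : ℝ) := ⟨_, rfl⟩
  have ha0 : 0 < a := by rw [ha]; positivity
  have hw0 : 0 < w := by rw [hw]; positivity
  have ht0 : 0 < t := by rw [ht]; positivity
  have hta : t = K * a := by rw [ht, ha]; ring
  have hMa : M * a = 1 := by rw [ha]; field_simp
  have hvw : (v : ℝ) * w = 1 := by rw [hw]; field_simp
  have hEa : E = a * (1 + 100 * t) := by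
    rw [hE, ht, ha]
    field_simp
  have hZa : Z = a ^ 2 * (1 + 200 * t) := by
    rw [hZ, ht, ha]
    field_simp
  have hra : K = M * K * a := by
    calc K = K * (M * a) := by rw [hMa, mul_one]
      _ = _ := by ring
  have q1 : fs N (Qf H N) ≤ (v : ℝ) * r * (a * (K + 100 * K ^ 2 * t + K ^ 2 * w)) := by
    rw [f4]
    have g1 : K ^ 2 * r * trace H ≤ K ^ 2 * r * (v * E) :=
      mul_le_mul_of_nonneg_left htr (by positivity)
    have g2 : (K - 1) * ((v : ℝ) - 1) = (v : ℝ) * r * (a * (K * (K - 1) - K * (K - 1) * w)) := by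
      have : (v : ℝ) * r * (a * (K * (K - 1) - K * (K - 1) * w)) =
          (r * K * a) * ((K - 1) * ((v : ℝ) - v * w)) := by ring
      rw [this, p2, hMa, hvw, one_mul]
    rw [g2]
    have g3 : K ^ 2 * r * (v * E) = (v : ℝ) * r * (a * (K ^ 2 + 100 * K ^ 2 * t)) := by
      rw [hEa]; ring
    have g4 : K ^ 2 * r * trace H - (v : ℝ) * r * (a * (K * (K - 1) - K * (K - 1) * w)) ≤
        (v : ℝ) * r * (a * (K ^ 2 + 100 * K ^ 2 * t)) -
          (v : ℝ) * r * (a * (K * (K - 1) - K * (K - 1) * w)) := by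
      rw [← g3]
      linarith
    refine g4.trans ?_
    rw [← mul_sub, ← mul_sub]
    refine mul_le_mul_of_nonneg_left (mul_le_mul_of_nonneg_left ?_ ha0.le) hvr.le
    have g6 : 0 ≤ K * w := by positivity
    have g7 : K ^ 2 + 100 * K ^ 2 * t - (K * (K - 1) - K * (K - 1) * w) =
        K + 100 * K ^ 2 * t + K ^ 2 * w - K * w := by ring
    rw [g7]
    linarith
  have q2 : fs N (Qf (H * H) N) ≤
      (v : ℝ) * r * (a ^ 2 * (K + 200 * K ^ 2 * t + 2 * K ^ 2 * w)) := by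
    rw [f5]
    have g1 : K ^ 2 * r * trace (H * H) ≤ K ^ 2 * r * (v * Z) :=
      mul_le_mul_of_nonneg_left htr2 (by positivity)
    have g2 : (K - 1) * (v * ((1 - 2 / (v : ℝ)) / M)) ≤ (K - 1) * trace H :=
      mul_le_mul_of_nonneg_left htl (by linarith)
    have g3 : (K - 1) * (v * ((1 - 2 / (v : ℝ)) / M)) =
        (v : ℝ) * r * (a ^ 2 * (K * (K - 1) * (1 - 2 * w))) := by
      have : (v : ℝ) * r * (a ^ 2 * (K * (K - 1) * (1 - 2 * w))) =
          (r * K * a) * ((K - 1) * (v * ((1 - 2 * w) * a))) := by ring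
      rw [this, p2, hMa, one_mul, hw, ha]
      ring
    have g4 : K ^ 2 * r * (v * Z) = (v : ℝ) * r * (a ^ 2 * (K ^ 2 + 200 * K ^ 2 * t)) := by
      rw [hZa]; ring
    have g5 : K ^ 2 * r * trace (H * H) - (K - 1) * trace H ≤
        (v : ℝ) * r * (a ^ 2 * (K ^ 2 + 200 * K ^ 2 * t)) -
          (v : ℝ) * r * (a ^ 2 * (K * (K - 1) * (1 - 2 * w))) := by
      rw [← g4, ← g3]
      linarith
    refine g5.trans ?_
    rw [← mul_sub, ← mul_sub]
    refine mul_le_mul_of_nonneg_left (mul_le_mul_of_nonneg_left ?_ (by positivity)) hvr.le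
    have g6 : 0 ≤ K * w := by positivity
    have g7 : K ^ 2 + 200 * K ^ 2 * t - K * (K - 1) * (1 - 2 * w) =
        K + 200 * K ^ 2 * t + 2 * K ^ 2 * w - 2 * (K * w) := by ring
    rw [g7]
    linarith
  have hfin := s7_num (K := K) (a := a) (t := t) (w := w) (q := fs N (Qf H N) / ((v : ℝ) * r))
    (q2 := fs N (Qf (H * H) N) / ((v : ℝ) * r)) (A := A) (C := C) p3 ha0 ht0.le
    (by
      rw [ht, div_le_iff₀ p8]
      have : K ≤ K ^ 3 := by
        have h1 : K * 1 ≤ K * K ^ 2 := mul_le_mul_of_nonneg_left (one_le_pow₀ p3) hK0.le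
        calc K = K * 1 := (mul_one K).symm
          _ ≤ K * K ^ 2 := h1
          _ = K ^ 3 := by ring
      linarith) hw0.le
    (by
      rw [hw, div_le_iff₀ p9]
      linarith)
    (by
      rw [div_le_iff₀ hvr]
      linarith [q1])
    (by
      rw [div_le_iff₀ hvr]
      linarith [q2])
    (by rw [hA, ht, ha, hw]; ring) (by rw [hC, ht, ha, hw]; field_simp)
  rw [div_le_iff₀ hvr]
  have e1 : 1 / M ^ 3 * (2 * K + K ^ 2 * (1040 * K / M + 404 / v)) =
      a ^ 3 * (2 * K + K ^ 2 * (1040 * t + 404 * w)) := by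
    rw [ha, ht, hw]
    ring
  rw [e1]
  refine h2.trans ?_
  have e2 : Z * fs N (Qf H N) + E * fs N (Qf (H * H) N) + (v : ℝ) * r * (2 * (A * C)) =
      (a ^ 2 * (1 + 200 * t) * (fs N (Qf H N) / ((v : ℝ) * r)) +
        a * (1 + 100 * t) * (fs N (Qf (H * H) N) / ((v : ℝ) * r)) + 2 * (A * C)) *
          ((v : ℝ) * r) := by
    rw [hZa, hEa]
    field_simp
  rw [e2]
  exact mul_le_mul_of_nonneg_right hfin hvr.le

end HCR
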