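import Mathlib
import Pool.Agent.Lib_helper88.HCR.Defs
import Pool.Agent.Lib_helper88.SPR.Defs
import Pool.Agent.Lib_helper88.SPR.bi
import Pool.Agent.Lib_helper88.SPR.rf
import Pool.Agent.Lib_helper88.SPR.vf
import Pool.Agent.Lib_helper88.SPR.bc
import Pool.Agent.Lib_helper88.SPR.bd
import Pool.Agent.Lib_helper88.SPR.be
import Pool.Agent.Lib_helper88.SPR.tc
import Pool.Agent.Lib_helper88.SPR.ve
import Pool.Agent.Lib_helper88.SPR.s5
import Pool.Agent.Lib_helper88.SPR.s6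
import Pool.Agent.Lib_helper88.SPR.s7

set_option autoImplicit false

namespace HCR

open Finset Matrix

/-! Numbers: `m = 1/M`, `n = 1/v`, `u = K m`. -/

/-- `R` -/
theorem s8_R (K m u n e a Q : ℝ) (hK : 1 ≤ K)
    (he : e ≤ m * (1 + 100 * u)) (ha : -(K * m * (100 * u + 4 * n)) ≤ a)
    (hQ : Q ≤ m * (K + K ^ 2 * (700 * u + 14 * n))) :
    K ^ 2 * e - 2 * K * a + Q ≤ m * (K ^ 2 + K + K ^ 2 * (1000 * u + 22 * n)) := by
  have h1 : K ^ 2 * e ≤ K ^ 2 * (m * (1 + 100 * u)) :=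
    mul_le_mul_of_nonneg_left he (sq_nonneg K)
  have h2 : (2 * K) * (-a) ≤ (2 * K) * (K * m * (100 * u + 4 * n)) :=
    mul_le_mul_of_nonneg_left (by linarith) (by linarith)
  linarith

/-- `S` -/
theorem s8_S (K m u c z Q2 : ℝ) (hK : 1 ≤ K) (hc : 0 ≤ c)
    (hz : z ≤ m ^ 2 * (1 + 200 * u)) (hQ2 : Q2 ≤ m ^ 2 * (K + 300 * K ^ 2 * u) - c) :
    K ^ 2 * z - 2 * K * c + Q2 ≤ m ^ 2 * (K ^ 2 + K + 500 * K ^ 2 * u) := by
  have h1 : K ^ 2 * z ≤ K ^ 2 * (m ^ 2 * (1 + 200 * u)) :=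
    mul_le_mul_of_nonneg_left hz (sq_nonneg K)
  have h2 : 0 ≤ K * c := by positivity
  linarith

/-- `D_f` -/
theorem s8_D (K m u n e z a c Q Q2 : ℝ) (hK : 1 ≤ K) (hm : 0 < m) (hu : 0 ≤ u) (hn : 0 ≤ n)
    (hu1 : u ≤ 1 / 10000) (hKu : K * u ≤ 1 / 10000) (hKn : K * n ≤ 1 / 1000) (hc : 0 ≤ c)
    (he : e ≤ m * (1 + 100 * u)) (hz : z ≤ m ^ 2 * (1 + 200 * u))
    (ha : -(K * m * (100 * u + 4 * n)) ≤ a) (hQ0 : 0 ≤ Q)
    (hQ : Q ≤ m * (K + K ^ 2 * (700 * u + 14 * n))) (hQ20 : 0 ≤ Q2)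
    (hQ2 : Q2 ≤ m ^ 2 * (K + 300 * K ^ 2 * u) - c) :
    Q * z + e * Q2 - 2 * a * c ≤ m ^ 3 * (2 * K + K ^ 2 * (1500 * u + 18 * n)) := by
  have hm2 : 0 < m ^ 2 := by positivity
  have hm3 : 0 < m ^ 3 := by positivity
  have h1 : Q * z ≤ m ^ 3 * ((K + K ^ 2 * (700 * u + 14 * n)) * (1 + 200 * u)) := by
    calc Q * z ≤ Q * (m ^ 2 * (1 + 200 * u)) := mul_le_mul_of_nonneg_left hz hQ0
      _ ≤ m * (K + K ^ 2 * (700 * u + 14 * n)) * (m ^ 2 * (1 + 200 * u)) :=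
          mul_le_mul_of_nonneg_right hQ (by positivity)
      _ = _ := by ring
  have h2 : e * Q2 ≤ m ^ 3 * ((1 + 100 * u) * (K + 300 * K ^ 2 * u)) - m * (1 + 100 * u) * c := by
    calc e * Q2 ≤ m * (1 + 100 * u) * Q2 := mul_le_mul_of_nonneg_right he hQ20
      _ ≤ m * (1 + 100 * u) * (m ^ 2 * (K + 300 * K ^ 2 * u) - c) :=
          mul_le_mul_of_nonneg_left hQ2 (by positivity)
      _ = _ := by ring
  have h3 : -(2 * a * c) ≤ m * c := by
    have h4 : -a * (2 * c) ≤ K * m * (100 * u + 4 * n) * (2 * c) :=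
      mul_le_mul_of_nonneg_right (by linarith) (by linarith)
    have h5 : K * m * (100 * u + 4 * n) * (2 * c) = m * c * (200 * (K * u) + 8 * (K * n)) := by
      ring
    have h6 : m * c * (200 * (K * u) + 8 * (K * n)) ≤ m * c * 1 :=
      mul_le_mul_of_nonneg_left (by linarith) (by positivity)
    linarith
  have h4 : 0 ≤ m * c * u := by positivity
  have hKK : K ≤ K ^ 2 := by nlinarith
  have h5 : (K + K ^ 2 * (700 * u + 14 * n)) * (1 + 200 * u) +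
      (1 + 100 * u) * (K + 300 * K ^ 2 * u) ≤ 2 * K + K ^ 2 * (1500 * u + 18 * n) := by
    have a1 : K * u ≤ K ^ 2 * u := mul_le_mul_of_nonneg_right hKK hu
    have a2 : (K ^ 2 * u) * u ≤ (K ^ 2 * u) * (1 / 10000) :=
      mul_le_mul_of_nonneg_left hu1 (by positivity)
    have a3 : (K ^ 2 * n) * u ≤ (K ^ 2 * n) * (1 / 10000) :=
      mul_le_mul_of_nonneg_left hu1 (by positivity)
    have a4 : 0 ≤ K ^ 2 * u := by positivity
    have a5 : 0 ≤ K ^ 2 * n := by positivity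
    nlinarith
  have h6 := mul_le_mul_of_nonneg_left h5 hm3.le
  linarith

/-- `s R` -/
theorem s8_sR (K m u n s R : ℝ) (hK : 1 ≤ K) (hm : 0 < m) (hu : 0 ≤ u) (hn : 0 ≤ n)
    (hu1 : u ≤ 1 / 10000) (hs : s ≤ m ^ 2 * (1 + 200 * u)) (hR0 : 0 ≤ R)
    (hR : R ≤ m * (K ^ 2 + K + K ^ 2 * (1000 * u + 22 * n))) :
    s * R ≤ m ^ 3 * (K ^ 2 + K + K ^ 2 * (1600 * u + 27 * n)) := by
  have hm3 : 0 < m ^ 3 := by positivity
  have h1 : s * R ≤ m ^ 3 * ((1 + 200 * u) * (K ^ 2 + K + K ^ 2 * (1000 * u + 22 * n))) := by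
    calc s * R ≤ m ^ 2 * (1 + 200 * u) * R := mul_le_mul_of_nonneg_right hs hR0
      _ ≤ m ^ 2 * (1 + 200 * u) * (m * (K ^ 2 + K + K ^ 2 * (1000 * u + 22 * n))) :=
          mul_le_mul_of_nonneg_left hR (by positivity)
      _ = _ := by ring
  have hKK : K ≤ K ^ 2 := by nlinarith
  have h5 : (1 + 200 * u) * (K ^ 2 + K + K ^ 2 * (1000 * u + 22 * n)) ≤
      K ^ 2 + K + K ^ 2 * (1600 * u + 27 * n) := by
    have a1 : K * u ≤ K ^ 2 * u := mul_le_mul_of_nonneg_right hKK hu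
    have a2 : (K ^ 2 * u) * u ≤ (K ^ 2 * u) * (1 / 10000) :=
      mul_le_mul_of_nonneg_left hu1 (by positivity)
    have a3 : (K ^ 2 * n) * u ≤ (K ^ 2 * n) * (1 / 10000) :=
      mul_le_mul_of_nonneg_left hu1 (by positivity)
    have a4 : 0 ≤ K ^ 2 * u := by positivity
    have a5 : 0 ≤ K ^ 2 * n := by positivity
    nlinarith
  exact h1.trans (mul_le_mul_of_nonneg_left h5 hm3.le)

/-- `h S` -/
theorem s8_hS (K m u h S : ℝ) (hK : 1 ≤ K) (hm : 0 < m) (hu : 0 ≤ u)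
    (hu1 : u ≤ 1 / 10000) (hh : h ≤ m * (1 + 100 * u)) (hS0 : 0 ≤ S)
    (hS : S ≤ m ^ 2 * (K ^ 2 + K + 500 * K ^ 2 * u)) :
    h * S ≤ m ^ 3 * (K ^ 2 + K + 750 * K ^ 2 * u) := by
  have hm3 : 0 < m ^ 3 := by positivity
  have h1 : h * S ≤ m ^ 3 * ((1 + 100 * u) * (K ^ 2 + K + 500 * K ^ 2 * u)) := by
    calc h * S ≤ m * (1 + 100 * u) * S := mul_le_mul_of_nonneg_right hh hS0
      _ ≤ m * (1 + 100 * u) * (m ^ 2 * (K ^ 2 + K + 500 * K ^ 2 * u)) :=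
          mul_le_mul_of_nonneg_left hS (by positivity)
      _ = _ := by ring
  have hKK : K ≤ K ^ 2 := by nlinarith
  have h5 : (1 + 100 * u) * (K ^ 2 + K + 500 * K ^ 2 * u) ≤ K ^ 2 + K + 750 * K ^ 2 * u := by
    have a1 : K * u ≤ K ^ 2 * u := mul_le_mul_of_nonneg_right hKK hu
    have a2 : (K ^ 2 * u) * u ≤ (K ^ 2 * u) * (1 / 10000) :=
      mul_le_mul_of_nonneg_left hu1 (by positivity)
    have a4 : 0 ≤ K ^ 2 * u := by positivity
    nlinarith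
  exact h1.trans (mul_le_mul_of_nonneg_left h5 hm3.le)

/-- the term with `a` -/
theorem s8_a (K m u n h e a : ℝ) (hK : 1 ≤ K) (hm : 0 < m) (hu : 0 ≤ u) (hn : 0 ≤ n)
    (hu1 : u ≤ 1 / 10000) (hn1 : n ≤ 1 / 1000) (hh0 : 0 ≤ h) (hh : h ≤ m * (1 + 100 * u))
    (hhl : (1 - 2 * n) * m ≤ h) (hel : (1 - 2 * n) * m ≤ e)
    (ha : a ≤ K * m * (500 * u + 10 * n)) :
    -(h * (K * m) * ((K - 1) * e - 2 * a)) ≤
      m ^ 3 * (-(K * (K - 1)) + K ^ 2 * (1100 * u + 26 * n)) := by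
  have hm3 : 0 < m ^ 3 := by positivity
  have hl0 : 0 ≤ (1 - 2 * n) * m := mul_nonneg (by linarith) hm.le
  have h1 : (1 - 2 * n) * m * ((1 - 2 * n) * m) ≤ h * e := mul_le_mul hhl hel hl0 hh0
  have h2 : (K * m) * (K - 1) * ((1 - 2 * n) * m * ((1 - 2 * n) * m)) ≤
      (K * m) * (K - 1) * (h * e) :=
    mul_le_mul_of_nonneg_left h1 (mul_nonneg (by positivity) (by linarith))
  have h3 : h * a ≤ m * (1 + 100 * u) * (K * m * (500 * u + 10 * n)) := by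
    calc h * a ≤ h * (K * m * (500 * u + 10 * n)) := mul_le_mul_of_nonneg_left ha hh0
      _ ≤ _ := mul_le_mul_of_nonneg_right hh (by positivity)
  have h4 : (2 * (K * m)) * (h * a) ≤
      (2 * (K * m)) * (m * (1 + 100 * u) * (K * m * (500 * u + 10 * n))) :=
    mul_le_mul_of_nonneg_left h3 (by positivity)
  have e1 : (K * m) * (K - 1) * ((1 - 2 * n) * m * ((1 - 2 * n) * m)) =
      m ^ 3 * (K * (K - 1) * (1 - 2 * n) ^ 2) := by ring
  have e2 : (2 * (K * m)) * (m * (1 + 100 * u) * (K * m * (500 * u + 10 * n))) =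
      m ^ 3 * (2 * K ^ 2 * (1 + 100 * u) * (500 * u + 10 * n)) := by ring
  rw [e1] at h2
  rw [e2] at h4
  have h5 : -(K * (K - 1) * (1 - 2 * n) ^ 2) + 2 * K ^ 2 * (1 + 100 * u) * (500 * u + 10 * n) ≤
      -(K * (K - 1)) + K ^ 2 * (1100 * u + 26 * n) := by
    have a2 : (K ^ 2 * u) * u ≤ (K ^ 2 * u) * (1 / 10000) :=
      mul_le_mul_of_nonneg_left hu1 (by positivity)
    have a3 : (K ^ 2 * n) * u ≤ (K ^ 2 * n) * (1 / 10000) :=
      mul_le_mul_of_nonneg_left hu1 (by positivity)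
    have a4 : 0 ≤ K ^ 2 * u := by positivity
    have a5 : 0 ≤ K ^ 2 * n := by positivity
    have a6 : 0 ≤ K * n := by positivity
    have a7 : 0 ≤ K * (K - 1) * n ^ 2 :=
      mul_nonneg (mul_nonneg (by linarith) (by linarith)) (sq_nonneg n)
    nlinarith
  have h6 := mul_le_mul_of_nonneg_left h5 hm3.le
  linarith

/-- the term with `c` -/
theorem s8_c (K m u n z c : ℝ) (hK : 1 ≤ K) (hm : 0 < m) (hu : u = K * m) (hn : 0 ≤ n)
    (hn1 : n ≤ 1 / 1000) (hzl : (1 - 4 * n) * m ^ 2 ≤ z) (hc0 : 0 ≤ c)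
    (hc : c ≤ 100 * K ^ 2 * m ^ 3) :
    -((1 - n) * (K * m) * ((K - 1) * z - 2 * c)) ≤
      m ^ 3 * (-(K * (K - 1)) + 5 * K ^ 2 * n + 200 * K ^ 2 * u) := by
  have hm3 : 0 < m ^ 3 := by positivity
  have h1 : (1 - n) * (K * m) * (K - 1) * ((1 - 4 * n) * m ^ 2) ≤
      (1 - n) * (K * m) * (K - 1) * z :=
    mul_le_mul_of_nonneg_left hzl (mul_nonneg (mul_nonneg (by linarith) (by positivity))
      (by linarith))
  have h2 : (1 - n) * (K * m) * (2 * c) ≤ 1 * (K * m) * (2 * (100 * K ^ 2 * m ^ 3)) := by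
    refine mul_le_mul ?_ (by linarith) (by linarith) (by positivity)
    exact mul_le_mul_of_nonneg_right (by linarith) (by positivity)
  have e1 : (1 - n) * (K * m) * (K - 1) * ((1 - 4 * n) * m ^ 2) =
      m ^ 3 * (K * (K - 1) * ((1 - n) * (1 - 4 * n))) := by ring
  have e2 : 1 * (K * m) * (2 * (100 * K ^ 2 * m ^ 3)) = m ^ 3 * (200 * K ^ 2 * u) := by
    rw [hu]
    ring
  rw [e1] at h1
  rw [e2] at h2
  have h5 : -(K * (K - 1) * ((1 - n) * (1 - 4 * n))) ≤ -(K * (K - 1)) + 5 * K ^ 2 * n := by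
    have a6 : 0 ≤ K * n := by positivity
    have a7 : 0 ≤ K * (K - 1) * n ^ 2 :=
      mul_nonneg (mul_nonneg (by linarith) (by linarith)) (sq_nonneg n)
    nlinarith
  have h6 := mul_le_mul_of_nonneg_left h5 hm3.le
  linarith

/-- the last term -/
theorem s8_last (K m u n z c s T : ℝ) (hK : 1 ≤ K) (hm : 0 < m) (hn : 0 ≤ n)
    (hu1 : u ≤ 1 / 10000) (hz : z ≤ m ^ 2 * (1 + 200 * u)) (hc : 0 ≤ c) (hs : 0 ≤ s)
    (hT : T ≤ (K + 1) * (m ^ 2 * (1 + 200 * u))) :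
    2 * (n * (K * m)) * ((K - 1) * z - 2 * c + T - (K + 1) * s) ≤ m ^ 3 * (5 * K ^ 2 * n) := by
  have hm3 : 0 < m ^ 3 := by positivity
  have h1 : (K - 1) * z ≤ (K - 1) * (m ^ 2 * (1 + 200 * u)) :=
    mul_le_mul_of_nonneg_left hz (by linarith)
  have h2 : 0 ≤ (K + 1) * s := mul_nonneg (by linarith) hs
  have h3 : (K - 1) * z - 2 * c + T - (K + 1) * s ≤ 2 * K * (m ^ 2 * (1 + 200 * u)) := by
    linarith
  have h4 := mul_le_mul_of_nonneg_left h3 (show 0 ≤ 2 * (n * (K * m)) by positivity)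
  refine h4.trans ?_
  have e : 2 * (n * (K * m)) * (2 * K * (m ^ 2 * (1 + 200 * u))) =
      m ^ 3 * (4 * K ^ 2 * n * (1 + 200 * u)) := by ring
  rw [e]
  refine mul_le_mul_of_nonneg_left ?_ hm3.le
  have a3 : (K ^ 2 * n) * u ≤ (K ^ 2 * n) * (1 / 10000) :=
    mul_le_mul_of_nonneg_left hu1 (by positivity)
  have a5 : 0 ≤ K ^ 2 * n := by positivity
  nlinarith

theorem stage3 {v b k r : ℕ} {N : Matrix (Fin v) (Fin b) ℕ} {H : Matrix (Fin v) (Fin v) ℝ} (hP : ParR (v : ℝ) k r ((k : ℝ) - 1) ((r : ℝ) * ((k : ℝ) - 1)))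
    (h : SD k r N H) (S : St2 N H ((k : ℝ) - 1) ((r : ℝ) * ((k : ℝ) - 1))) (K M : ℝ)
    (hK : K = (k : ℝ) - 1) (hM : M = (r : ℝ) * ((k : ℝ) - 1)) (x : Fin v) (j : Fin b)
    (hx : 0 < N x j) :
    cf H N x j ≤ 1 / M ^ 3 * (2 * K + 3100 * K ^ 3 / M + 251 * K * M / v) := by
  have hP' := hP
  have St := S
  rw [← hK] at hP'
  have hMK : M = (r : ℝ) * K := by rw [hM, hK]
  rw [← hMK] at hP'
  have hStc : ∀ x j, 0 < N x j → cf H N x j ≤ 100 * K ^ 2 / M ^ 3 := by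
    intro x j hx
    have := St.c x j hx
    rwa [← hK, ← hMK] at this
  have hSte : ∀ x, H x x ≤ 1 / M + 100 * K / M ^ 2 := by
    intro x
    have := St.e x
    rwa [← hK, ← hMK] at this
  have hStz : ∀ x, (H * H) x x ≤ 1 / M ^ 2 + 200 * K / M ^ 3 := by
    intro x
    have := St.z x
    rwa [← hK, ← hMK] at this
  have hK1 : 1 ≤ K := hP'.K1
  have hM0 : 0 < M := hP'.M0
  have hr0 : (0 : ℝ) < r := hP'.r0
  have hv0 : (0 : ℝ) < v := hP'.v0
  have hkK : (k : ℝ) = K + 1 := hP'.kK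
  have hv1 : 1 ≤ v := by
    have : 0 < v := by exact_mod_cast hv0
    omega
  have hr1 : 1 ≤ r := by
    have : 0 < r := by exact_mod_cast hr0
    omega
  have hk1 : 1 ≤ k := by
    have : (1 : ℝ) ≤ k := by rw [hkK]; linarith
    exact_mod_cast this
  have hMbig : 10000 * K ^ 3 ≤ M := hP'.hM
  have hvbig : 1000 * K * M ≤ v := hP'.hv
  have hK3 : K ^ 2 ≤ K ^ 3 := by nlinarith [sq_nonneg K]
  have hK2 : K ≤ K ^ 2 := by nlinarith
  have hv4 : 4 ≤ v := by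
    have : (4 : ℝ) ≤ v := by nlinarith
    exact_mod_cast this
  set m : ℝ := 1 / M with hm
  set n : ℝ := 1 / (v : ℝ) with hn
  have hm0 : 0 < m := by positivity
  have hn0 : 0 < n := by positivity
  have hmM : m * M = 1 := by rw [hm]; field_simp
  have hnv : n * v = 1 := by rw [hn]; field_simp
  have hKu : K * (K * m) ≤ 1 / 10000 := by
    have h2 : 10000 * (K * (K * m)) ≤ 1 := by
      calc 10000 * (K * (K * m)) = (10000 * K ^ 2) * m := by ring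
        _ ≤ M * m := mul_le_mul_of_nonneg_right (by linarith) hm0.le
        _ = 1 := by rw [mul_comm]; exact hmM
    linarith
  have hu : K * m ≤ 1 / 10000 := by
    have : 0 < K * m := by positivity
    nlinarith
  have hu0 : 0 < K * m := by positivity
  have hKn : K * n ≤ 1 / 1000 := by
    have h2 : 1000 * (K * n) ≤ 1 := by
      calc 1000 * (K * n) = (1000 * K) * n := by ring
        _ ≤ v * n := mul_le_mul_of_nonneg_right (by nlinarith) hn0.le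
        _ = 1 := by rw [mul_comm]; exact hnv
    linarith
  have hn1 : n ≤ 1 / 1000 := by nlinarith
  have hrinv : ∀ t : ℝ, t / r = t * (K * m) := by
    intro t
    rw [hm, hMK]
    field_simp
  have hvrinv : ∀ t : ℝ, t / ((v : ℝ) * r) = t * (n * (K * m)) := by
    intro t
    rw [hm, hn, hMK]
    field_simp
  -- the bounds in terms of `m`, `n`
  have hE' : ∀ x, H x x ≤ m * (1 + 100 * (K * m)) := by
    intro x
    refine (hSte x).trans (le_of_eq ?_)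
    rw [hm]
    field_simp
  have hZ' : ∀ x, (H * H) x x ≤ m ^ 2 * (1 + 200 * (K * m)) := by
    intro x
    refine (hStz x).trans (le_of_eq ?_)
    rw [hm]
    field_simp
  obtain ⟨x₀, j₀, hx₀, hmax⟩ := max_flag hv1 hr1 h
  set c : ℝ := cf H N x₀ j₀ with hc
  suffices hgoal : c ≤ m ^ 3 * (2 * K + 3100 * K ^ 2 * (K * m) + 251 * K * M * n) by
    refine (hmax x j hx).trans (hgoal.trans (le_of_eq ?_))
    rw [hm, hn]
    field_simp
  have hc100 : c ≤ 100 * K ^ 2 * m ^ 3 := by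
    refine (hStc x₀ j₀ hx₀).trans (le_of_eq ?_)
    rw [hm]
    field_simp
  obtain ⟨a1, a2, -⟩ := a_bounds hP h S K M hK hM x₀ j₀ hx₀
  obtain ⟨q1, q2⟩ := Q_bounds hP h S K M hK hM x₀ j₀ hx₀
  have hDb := Dbar_sharp hP h S K M hK hM
  rw [← hc] at q2
  have hfs := cbar_lower hv1 h K M hP'
  obtain ⟨d1, -⟩ := diag_facts h x₀
  have hlow := diag_lower hv4 h K M hP'
  have hrw1 : ∀ t : ℝ, 100 * K / M = 100 * (K * m) := fun _ => by rw [hm]; ring
  have a1' : -(K * m * (100 * (K * m) + 4 * n)) ≤ af H N x₀ j₀ := by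
    refine le_trans (le_of_eq ?_) a1
    rw [hm, hn]
    ring
  have a2' : af H N x₀ j₀ ≤ K * m * (500 * (K * m) + 10 * n) := by
    refine a2.trans (le_of_eq ?_)
    rw [hm, hn]
    ring
  have q1' : Qf H N x₀ j₀ ≤ m * (K + K ^ 2 * (700 * (K * m) + 14 * n)) := by
    refine q1.trans (le_of_eq ?_)
    rw [hm, hn]
    ring
  have q2' : Qf (H * H) N x₀ j₀ ≤ m ^ 2 * (K + 300 * K ^ 2 * (K * m)) - c := by
    refine q2.trans (le_of_eq ?_)
    rw [hm]
    ring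
  have hDb' : fs N (Df H N) / ((v : ℝ) * r) ≤
      m ^ 3 * (2 * K + K ^ 2 * (1040 * (K * m) + 404 * n)) := by
    refine hDb.trans (le_of_eq ?_)
    rw [hm, hn]
    ring
  have hfs' : m ^ 3 * (2 * K - 6 * K * M * n) ≤ fs N (cf H N) / ((v : ℝ) * r) := by
    rw [hvrinv]
    have h1 := mul_le_mul_of_nonneg_right hfs (show 0 ≤ n * (K * m) by positivity)
    refine le_trans (le_of_eq ?_) h1
    have e1 : (2 * (v : ℝ) / M - 6) / M * (n * (K * m)) =
        (2 * ((n * v)) * m - 6 * n) * m * (K * m) := by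
      rw [hm]
      ring
    rw [e1, hnv]
    have e2 : m ^ 3 * (2 * K - 6 * K * M * n) = m ^ 3 * (2 * K) - m ^ 2 * (m * M) * (6 * K * n) := by
      ring
    rw [e2, hmM]
    ring
  have hKMn : K * M * n ≤ 1 / 1000 := by
    have h2 : 1000 * (K * M * n) ≤ 1 := by
      calc 1000 * (K * M * n) = (1000 * K * M) * n := by ring
        _ ≤ v * n := mul_le_mul_of_nonneg_right hvbig hn0.le
        _ = 1 := by rw [mul_comm]; exact hnv
    linarith
  have hc0 : 0 ≤ c := by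
    have h1 : 0 ≤ fs N (cf H N) / ((v : ℝ) * r) := by
      refine le_trans ?_ hfs'
      refine mul_nonneg (by positivity) ?_
      nlinarith
    have h2 : fs N (cf H N) ≤ (v : ℝ) * r * c := by
      rw [← fs_one h.des c]
      exact fs_le h.des _ _ hmax
    have h3 : 0 ≤ fs N (cf H N) := by
      by_contra h4
      push Not at h4
      have := div_neg_of_neg_of_pos h4 (show (0 : ℝ) < v * r by positivity)
      linarith
    exact nonneg_of_mul_nonneg_right (h3.trans h2) (by positivity)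
  -- averages
  set s : ℝ := trace (H * H) / v with hs
  set h' : ℝ := trace H / v with hh
  have hs0 : 0 ≤ s := div_nonneg (diag_facts h x₀).2.2.2 hv0.le
  have hh0 : 0 ≤ h' := div_nonneg (diag_facts h x₀).2.2.1 hv0.le
  obtain ⟨-, b2, -, b4, -, b6, b7, b8⟩ := sup_facts hk1 h _ _ hE' hZ' x₀ j₀ hx₀
  have hhE : h' ≤ m * (1 + 100 * (K * m)) := by
    rw [hh, div_le_iff₀ hv0]
    linarith
  have hsZ : s ≤ m ^ 2 * (1 + 200 * (K * m)) := by
    rw [hs, div_le_iff₀ hv0]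
    linarith
  have hlowE : ∀ x, (1 - 2 * n) * m ≤ H x x := by
    intro x
    refine le_trans (le_of_eq ?_) (hlow x).1
    rw [hm, hn]
    ring
  have hlowZ : ∀ x, (1 - 4 * n) * m ^ 2 ≤ (H * H) x x := by
    intro x
    refine le_trans (le_of_eq ?_) (hlow x).2
    rw [hm, hn]
    ring
  have hhl : (1 - 2 * n) * m ≤ h' := by
    rw [hh, le_div_iff₀ hv0]
    unfold Matrix.trace
    have h1 : ∑ _i : Fin v, (1 - 2 * n) * m ≤ ∑ i : Fin v, H.diag i :=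
      Finset.sum_le_sum fun i _ => hlowE i
    rw [Finset.sum_const, Finset.card_univ, Fintype.card_fin, nsmul_eq_mul] at h1
    linarith
  have hHH : (H * H).IsSymm := by
    have := h.sym
    unfold Matrix.IsSymm at this ⊢
    rw [Matrix.transpose_mul, this]
  have hR := Rf_eq k N H h.sym x₀ j₀
  have hS := Rf_eq k N (H * H) hHH x₀ j₀
  have hD := (Df_eq k N H h.sym x₀ j₀).1
  have hR0 : 0 ≤ bf H (wf k N x₀ j₀) (wf k N x₀ j₀) := h.psd _
  have hS0 : 0 ≤ bf (H * H) (wf k N x₀ j₀) (wf k N x₀ j₀) := by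
    rw [bf_sq H h.sym]
    exact Finset.sum_nonneg fun i _ => mul_self_nonneg _
  rw [← hK] at hR hS
  have hav := avg hv1 hr1 hk1 h x₀ j₀ hx₀
  have ha' : bf H (un x₀) (qf N x₀ j₀) = af H N x₀ j₀ := rfl
  have hc' : bf (H * H) (un x₀) (qf N x₀ j₀) = c := rfl
  rw [ha'] at hR
  rw [hc'] at hS
  rw [hrinv, hrinv, hvrinv 2] at hav
  rw [hkK] at hav b8
  have e1 : K + 1 - 2 = K - 1 := by ring
  have e2 : 1 / (v : ℝ) = n := hn.symm
  rw [e1, e2, ← hc, ← hs, ← hh] at hav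
  rw [← hc] at hD
  have T0 := s8_R K m (K * m) n (H x₀ x₀) (af H N x₀ j₀) (Qf H N x₀ j₀) hK1 (hE' x₀) a1' q1'
  rw [← hR] at T0
  have T0' := s8_S K m (K * m) c ((H * H) x₀ x₀) (Qf (H * H) N x₀ j₀) hK1 hc0 (hZ' x₀) q2'
  rw [← hS] at T0'
  have T1 := s8_D K m (K * m) n (H x₀ x₀) ((H * H) x₀ x₀) (af H N x₀ j₀) c (Qf H N x₀ j₀)
    (Qf (H * H) N x₀ j₀) hK1 hm0 hu0.le hn0.le hu hKu hKn hc0 (hE' x₀) (hZ' x₀) a1' b2 q1'
    b4 q2'
  rw [← hD] at T1
  have T3 := s8_sR K m (K * m) n s _ hK1 hm0 hu0.le hn0.le hu hsZ hR0 T0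
  have T4 := s8_hS K m (K * m) h' _ hK1 hm0 hu0.le hu hhE hS0 T0'
  have T5 := s8_a K m (K * m) n h' (H x₀ x₀) (af H N x₀ j₀) hK1 hm0 hu0.le hn0.le hu hn1 hh0
    hhE hhl (hlowE x₀) a2'
  have T6 := s8_c K m (K * m) n ((H * H) x₀ x₀) c hK1 hm0 rfl hn0.le hn1 (hlowZ x₀) hc0 hc100
  have T7 := s8_last K m (K * m) n ((H * H) x₀ x₀) c s (∑ y, (N y j₀ : ℝ) * (H * H) y y) hK1
    hm0 hn0.le hu (hZ' x₀) hc0 hs0 b8
  have sum1 : 2 * c + 2 * (fs N (cf H N) / ((v : ℝ) * r)) ≤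
      m ^ 3 * (8 * K + 6190 * K ^ 2 * (K * m) + 485 * K ^ 2 * n) := by
    linarith
  have h2 : K ^ 2 * n ≤ K * M * n := by
    refine mul_le_mul_of_nonneg_right ?_ hn0.le
    rw [pow_two]
    exact mul_le_mul_of_nonneg_left (by linarith) (by linarith)
  have h3 : 0 ≤ K ^ 2 * (K * m) := by positivity
  have h4 : 0 ≤ K * M * n := by positivity
  have h5 : m ^ 3 * (4 * K + 6190 * K ^ 2 * (K * m) + 485 * K ^ 2 * n + 12 * K * M * n) ≤
      m ^ 3 * (2 * (2 * K + 3100 * K ^ 2 * (K * m) + 251 * K * M * n)) := by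
    refine mul_le_mul_of_nonneg_left ?_ (by positivity)
    linarith
  linarith

end HCR
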