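import Mathlib
import Pool.Agent.Lib_helper88.HCR.Defs
import Pool.Agent.Lib_helper88.SPR.Defs
import Pool.Agent.Lib_helper88.SPR.bi
import Pool.Agent.Lib_helper88.SPR.lm
import Pool.Agent.Lib_helper88.SPR.bd
import Pool.Agent.Lib_helper88.SPR.tb
import Pool.Agent.Lib_helper88.SPR.s8

set_option autoImplicit false

namespace HCR

open Finset Matrix

/-- the diagonal of the remainder `T3` -/
theorem s9_diag {K M r v E1 z e l1 l2 l3 t3 : ℝ} (hK : 1 ≤ K) (hrM : r * K = M) (hM : 0 < M)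
    (hv : 0 < v) (h1 : M * z - e ≤ r * (1 / M ^ 3 * (2 * K + E1)))
    (h2 : M ^ 2 * z - M * e = 1 / M * (l1 - M / v) + 2 / M ^ 2 * (l2 - M ^ 2 / v) +
      3 / M ^ 3 * (l3 - M ^ 3 / v) + t3) (hl1 : 0 ≤ l1) (hl2 : M ≤ l2) (hl3 : 0 ≤ l3) :
    t3 ≤ E1 / (K * M) + 6 / v := by
  have hK0 : 0 < K := by linarith
  have h3 : M ^ 2 * z - M * e ≤ 2 / M + E1 / (K * M) := by
    have h4 : M * (M * z - e) ≤ M * (r * (1 / M ^ 3 * (2 * K + E1))) :=
      mul_le_mul_of_nonneg_left h1 hM.le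
    have h5 : M * (r * (1 / M ^ 3 * (2 * K + E1))) = 2 / M + E1 / (K * M) := by
      have hr : r = M / K := by field_simp; linarith
      rw [hr]
      field_simp
    linarith
  have h6 : 1 / M * (l1 - M / v) ≥ -(1 / v) := by
    have : 1 / M * (l1 - M / v) = 1 / M * l1 - 1 / v := by field_simp
    have h7 : 0 ≤ 1 / M * l1 := by positivity
    linarith
  have h8 : 2 / M ^ 2 * (l2 - M ^ 2 / v) ≥ 2 / M - 2 / v := by
    have : 2 / M ^ 2 * (l2 - M ^ 2 / v) = 2 / M ^ 2 * l2 - 2 / v := by field_simp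
    have h7 : 2 / M ^ 2 * M ≤ 2 / M ^ 2 * l2 := mul_le_mul_of_nonneg_left hl2 (by positivity)
    have h9 : 2 / M ^ 2 * M = 2 / M := by field_simp
    linarith
  have h10 : 3 / M ^ 3 * (l3 - M ^ 3 / v) ≥ -(3 / v) := by
    have : 3 / M ^ 3 * (l3 - M ^ 3 / v) = 3 / M ^ 3 * l3 - 3 / v := by field_simp
    have h7 : 0 ≤ 3 / M ^ 3 * l3 := by positivity
    linarith
  have h11 : 6 / v = 1 / v + 2 / v + 3 / v := by ring
  linarith

/-- the final numerical contradiction -/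
theorem s9_num {K M v E1 m c τ L : ℝ} (hK : 1 ≤ K) (hM : 10000 * K ^ 3 ≤ M) (hM0 : 0 < M)
    (hv0 : 0 < v) (hv : 1000 * K * M ≤ v) (hE : E1 = 3100 * K ^ 3 / M + 251 * K * M / v)
    (hc : c ≤ 1 / M ^ 3 * (2 * K + E1)) (hτ : τ = 4 / 3 * (E1 / (K * M) + 6 / v))
    (hL : K + 1 ≤ L) (hm : m = 2 / M * L - 10 * K / v - K * τ) (hmc : m ≤ M ^ 2 * c) : False := by
  have hK0 : 0 < K := by linarith
  have h1 : M ^ 2 * c ≤ 1 / M * (2 * K + E1) := by
    have := mul_le_mul_of_nonneg_left hc (by positivity : 0 ≤ M ^ 2)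
    have h2 : M ^ 2 * (1 / M ^ 3 * (2 * K + E1)) = 1 / M * (2 * K + E1) := by field_simp
    linarith
  have h3 : 2 / M * (K + 1) ≤ 2 / M * L := mul_le_mul_of_nonneg_left hL (by positivity)
  have h4 : 2 / M * (K + 1) - 10 * K / v - K * τ ≤ 1 / M * (2 * K + E1) := by linarith
  -- multiply by `M`
  have h5 := mul_le_mul_of_nonneg_left h4 hM0.le
  have h6 : M * (2 / M * (K + 1) - 10 * K / v - K * τ) =
      2 * (K + 1) - 10 * (K * M / v) - 4 / 3 * E1 - 8 * (K * M / v) := by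
    rw [hτ]
    field_simp
    ring
  have h7 : M * (1 / M * (2 * K + E1)) = 2 * K + E1 := by field_simp
  rw [h6, h7] at h5
  have h8 : K ^ 3 / M ≤ 1 / 10000 := by
    rw [div_le_div_iff₀ hM0 (by norm_num)]
    linarith
  have h9 : K * M / v ≤ 1 / 1000 := by
    rw [div_le_div_iff₀ hv0 (by norm_num)]
    linarith
  have h10 : E1 = 3100 * (K ^ 3 / M) + 251 * (K * M / v) := by
    rw [hE]
    ring
  linarith

theorem no_excess {v b k r : ℕ} {N : Matrix (Fin v) (Fin b) ℕ} {H : Matrix (Fin v) (Fin v) ℝ} (hP : ParR (v : ℝ) k r ((k : ℝ) - 1) ((r : ℝ) * ((k : ℝ) - 1)))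
    (h : SD k r N H) (hb : ∀ x j, N x j ≤ 1)
    (h3 : ∀ x j, 0 < N x j → cf H N x j ≤ 1 / ((r : ℝ) * ((k : ℝ) - 1)) ^ 3 *
      (2 * ((k : ℝ) - 1) + 3100 * ((k : ℝ) - 1) ^ 3 / ((r : ℝ) * ((k : ℝ) - 1)) +
        251 * ((k : ℝ) - 1) * ((r : ℝ) * ((k : ℝ) - 1)) / v)) (x y : Fin v) (hxy : x ≠ y) :
    ∑ j, N x j * N y j ≤ 1 := by
  by_contra hcon
  push Not at hcon
  have hv1 : 1 ≤ v := lt_of_le_of_lt (Nat.zero_le _) x.2
  obtain ⟨T3, T4, hs3, hs4, hp4, hp3, h43, hE3, hE4⟩ := exp_four hv1 h _ _ hP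
  obtain ⟨hLs, hL0, hLr, hLL, hLLL, hLd⟩ := Lm_facts h.des
  have hfa := flag_avg h _ h3
  set K : ℝ := (k : ℝ) - 1 with hK
  set M : ℝ := (r : ℝ) * K with hM
  have hK1 := hP.K1
  have hM0 := hP.M0
  have hv0 := hP.v0
  set E1 : ℝ := 3100 * K ^ 3 / M + 251 * K * M / v with hE1
  have hCE : 2 * K + 3100 * K ^ 3 / M + 251 * K * M / v = 2 * K + E1 := by rw [hE1]; ring
  rw [hCE] at h3 hfa
  set τ : ℝ := 4 / 3 * (E1 / (K * M) + 6 / v) with hτ
  -- the remainders
  have hT4d : ∀ z : Fin v, T4 z z ≤ τ := by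
    intro z
    have h4 : T3 z z ≤ E1 / (K * M) + 6 / v := by
      have h5 := hE3 z z
      exact s9_diag hK1 hP.rM hM0 hv0 (hfa z) h5 (hL0 z z) (hLd z) (hLLL z z)
    have h6 := h43 (un z)
    rw [bf_un, bf_un] at h6
    rw [hτ]
    linarith
  have hT4n : ∀ z : Fin v, 0 ≤ T4 z z := by
    intro z
    have h6 := hp4 (un z)
    rwa [bf_un] at h6
  have hT4 : ∀ z w : Fin v, -τ ≤ T4 z w := by
    intro z w
    have h4 := bf_cs T4 hs4 hp4 (un z) (un w)
    rw [bf_un, bf_un, bf_un] at h4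
    have hτ0 : 0 ≤ τ := (hT4n z).trans (hT4d z)
    have h5 : T4 z z * T4 w w ≤ τ * τ := mul_le_mul (hT4d z) (hT4d w) (hT4n w) hτ0
    have h6 : T4 z w ^ 2 ≤ τ ^ 2 := by nlinarith
    exact (abs_le.mp (abs_le_of_sq_le_sq h6 hτ0)).1
  -- a common block
  obtain ⟨j, -, hj⟩ : ∃ j ∈ Finset.univ, 0 < N x j * N y j := by
    by_contra hno
    push Not at hno
    have : ∑ j, N x j * N y j = 0 := Finset.sum_eq_zero fun j hj => Nat.le_zero.mp (hno j hj)
    omega
  have hxj : N x j = 1 := le_antisymm (hb x j) (Nat.pos_of_ne_zero fun h0 => by simp [h0] at hj)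
  have hyj : N y j = 1 := le_antisymm (hb y j) (Nat.pos_of_ne_zero fun h0 => by simp [h0] at hj)
  set q : Fin v → ℝ := qf N x j with hq
  have hqx : q x = 0 := by simp [hq, qf, hxj]
  have hqz : ∀ z, z ≠ x → q z = (N z j : ℝ) := fun z hz => by simp [hq, qf, hz]
  have hq0 : ∀ z, 0 ≤ q z := by
    intro z
    by_cases hz : z = x
    · rw [hz, hqx]
    · rw [hqz z hz]
      positivity
  have hqs : ∑ z, q z = K := by
    have h4 : ∑ z, q z = ∑ z, (N z j : ℝ) - ∑ z : Fin v, (if z = x then (1 : ℝ) else 0) := by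
      rw [← Finset.sum_sub_distrib]
      rfl
    have h5 : ∑ z, (N z j : ℝ) = k := by exact_mod_cast h.des.1 j
    rw [h4, h5, Finset.sum_ite_eq']
    simp [hK]
  -- the sum of the multiplicities
  have hLz : ∀ z, z ≠ x → q z * 1 ≤ q z * Lm r N x z := by
    intro z hz
    by_cases hz0 : N z j = 0
    · rw [hqz z hz, hz0]
      simp
    · apply mul_le_mul_of_nonneg_left _ (hq0 z)
      rw [Lm_apply, if_neg (Ne.symm hz), sub_zero]
      have h5 : (1 : ℝ) ≤ (N x j : ℝ) * (N z j : ℝ) := by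
        have : 1 ≤ N z j := Nat.pos_of_ne_zero hz0
        rw [hxj]
        push_cast
        rw [one_mul]
        exact_mod_cast this
      refine h5.trans ?_
      exact Finset.single_le_sum (f := fun l => (N x l : ℝ) * (N z l : ℝ))
        (fun l _ => by positivity) (Finset.mem_univ j)
  have hLy : (2 : ℝ) ≤ Lm r N x y := by
    rw [Lm_apply, if_neg hxy, sub_zero]
    have : 2 ≤ ∑ j, N x j * N y j := hcon
    exact_mod_cast this
  have hqy : q y = 1 := by rw [hqz y (Ne.symm hxy), hyj]; norm_num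
  have hL : K + 1 ≤ ∑ z, q z * Lm r N x z := by
    have h4 : ∀ z, q z + (if z = y then 1 else 0) ≤ q z * Lm r N x z := by
      intro z
      by_cases hzy : z = y
      · rw [hzy, if_pos rfl, hqy, one_mul]
        linarith
      · rw [if_neg hzy, add_zero]
        by_cases hz : z = x
        · rw [hz, hqx, zero_mul]
        · have := hLz z hz
          rwa [mul_one] at this
    have h5 := Finset.sum_le_sum (s := Finset.univ) fun z _ => h4 z
    rw [Finset.sum_add_distrib, hqs, Finset.sum_ite_eq'] at h5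
    simpa using h5
  -- the lower bound for the value of the flag
  have hcf : cf H N x j = ∑ z, (H * H) x z * q z := by
    unfold cf
    rw [bf_un_left]
  have hlow : ∀ z, 2 / M * (q z * Lm r N x z) - q z * (10 / v) - q z * τ ≤
      M ^ 2 * ((H * H) x z * q z) := by
    intro z
    by_cases hz : z = x
    · rw [hz, hqx]
      simp
    · have h4 := hE4 x z
      rw [if_neg (Ne.symm hz)] at h4
      have h5 := hT4 x z
      have h6 : 0 ≤ 3 / M ^ 2 * (Lm r N * Lm r N) x z := mul_nonneg (by positivity) (hLL x z)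
      have h7 : 0 ≤ 4 / M ^ 3 * (Lm r N * Lm r N * Lm r N) x z :=
        mul_nonneg (by positivity) (hLLL x z)
      have h8 : 0 - 1 / (v : ℝ) + 2 / M * (Lm r N x z - M / v) +
          3 / M ^ 2 * ((Lm r N * Lm r N) x z - M ^ 2 / v) +
          4 / M ^ 3 * ((Lm r N * Lm r N * Lm r N) x z - M ^ 3 / v) =
          2 / M * Lm r N x z + 3 / M ^ 2 * (Lm r N * Lm r N) x z +
          4 / M ^ 3 * (Lm r N * Lm r N * Lm r N) x z - 10 / v := by
        field_simp
        ring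
      have h9 : 2 / M * Lm r N x z - 10 / v - τ ≤ M ^ 2 * (H * H) x z := by
        rw [h4, h8]
        linarith
      have h10 := mul_le_mul_of_nonneg_left h9 (hq0 z)
      linarith
  have hsum := Finset.sum_le_sum (s := Finset.univ) fun z _ => hlow z
  rw [Finset.sum_sub_distrib, Finset.sum_sub_distrib, ← Finset.mul_sum, ← Finset.sum_mul,
    ← Finset.sum_mul, hqs, ← Finset.mul_sum, ← hcf] at hsum
  have hk := h3 x j (by rw [hxj]; norm_num)
  exact s9_num (c := cf H N x j) (L := ∑ z, q z * Lm r N x z) hK1 hP.hM hM0 hv0 hP.hv hE1 hk hτ hL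
    (m := 2 / M * ∑ z, q z * Lm r N x z - 10 * K / v - K * τ) rfl (by
      have h4 : K * (10 / (v : ℝ)) = 10 * K / v := by ring
      linarith)

end HCR
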