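import Mathlib
import Pool.Agent.Lib_helper88.HCR.Defs
import Pool.Agent.Lib_helper88.SPR.Defs
import Pool.Agent.Lib_helper88.SPR.bi

set_option autoImplicit false

namespace HCR

open Finset Matrix

/-- `z · (p qᵀ + q pᵀ) z` -/
theorem ua_form {v : ℕ} (X : Matrix (Fin v) (Fin v) ℝ) (p q z : Fin v → ℝ) :
    z ⬝ᵥ ((X + (vecMulVec p q + vecMulVec q p)) *ᵥ z) =
      z ⬝ᵥ (X *ᵥ z) + 2 * (p ⬝ᵥ z) * (q ⬝ᵥ z) := by
  have h1 : (X + (vecMulVec p q + vecMulVec q p)) *ᵥ z =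
      X *ᵥ z + ((q ⬝ᵥ z) • p + (p ⬝ᵥ z) • q) := by
    rw [add_mulVec, add_mulVec, vecMulVec_mulVec, vecMulVec_mulVec]
    ext i
    simp [mul_comm]
  rw [h1, dotProduct_add, dotProduct_add, dotProduct_smul, dotProduct_smul, smul_eq_mul,
    smul_eq_mul, dotProduct_comm z p, dotProduct_comm z q]
  ring

/-- the quadratic form on `s Y p + t Y q` -/
theorem ua_quad {v : ℕ} (X Y : Matrix (Fin v) (Fin v) ℝ) (hY : Y.IsSymm)
    (hXY : X * Y = 1) (p q : Fin v → ℝ)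
    (hpsd : ∀ z : Fin v → ℝ, 0 ≤ z ⬝ᵥ ((X + (vecMulVec p q + vecMulVec q p)) *ᵥ z)) (s t : ℝ) :
    0 ≤ s ^ 2 * bf Y p p + 2 * s * t * bf Y p q + t ^ 2 * bf Y q q +
      2 * (s * bf Y p p + t * bf Y p q) * (s * bf Y p q + t * bf Y q q) := by
  have h := hpsd (s • (Y *ᵥ p) + t • (Y *ᵥ q))
  rw [ua_form] at h
  have hXp : X *ᵥ (Y *ᵥ p) = p := by rw [mulVec_mulVec, hXY, one_mulVec]
  have hXq : X *ᵥ (Y *ᵥ q) = q := by rw [mulVec_mulVec, hXY, one_mulVec]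
  have hqp : q ⬝ᵥ (Y *ᵥ p) = bf Y p q := bf_symm Y hY q p
  have hpp : p ⬝ᵥ (Y *ᵥ p) = bf Y p p := rfl
  have hpq : p ⬝ᵥ (Y *ᵥ q) = bf Y p q := rfl
  have hqq : q ⬝ᵥ (Y *ᵥ q) = bf Y q q := rfl
  rw [mulVec_add, mulVec_smul, mulVec_smul, hXp, hXq] at h
  simp only [dotProduct_add, add_dotProduct, dotProduct_smul, smul_dotProduct, smul_eq_mul] at h
  rw [dotProduct_comm (Y *ᵥ p) p, dotProduct_comm (Y *ᵥ q) p, dotProduct_comm (Y *ᵥ p) q,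
    dotProduct_comm (Y *ᵥ q) q, hqp, hpp, hpq, hqq] at h
  linarith [h]

/-- `P Q ≤ (1 + a)²` -/
theorem ua_disc (P Q a : ℝ) (hP : 0 ≤ P) (hQ : 0 ≤ Q) (ha : a ^ 2 ≤ P * Q)
    (h : ∀ s t : ℝ, 0 ≤ s ^ 2 * P + 2 * s * t * a + t ^ 2 * Q +
      2 * (s * P + t * a) * (s * a + t * Q)) :
    P * Q ≤ (1 + a) ^ 2 := by
  obtain ⟨x, hx0, hx⟩ : ∃ x : ℝ, 0 ≤ x ∧ x ^ 2 = P := ⟨√P, Real.sqrt_nonneg _, Real.sq_sqrt hP⟩
  obtain ⟨y, hy0, hy⟩ : ∃ y : ℝ, 0 ≤ y ∧ y ^ 2 = Q := ⟨√Q, Real.sqrt_nonneg _, Real.sq_sqrt hQ⟩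
  have h1 := h y (-x)
  rw [← hx, ← hy] at h1 ha ⊢
  have h2 : 0 ≤ 2 * (x * y) * ((x * y - a) * (1 + a - x * y)) := by nlinarith [h1]
  have hR0 : 0 ≤ x * y := mul_nonneg hx0 hy0
  rcases eq_or_lt_of_le hR0 with h3 | h3
  · have : x ^ 2 * y ^ 2 = 0 := by rw [← mul_pow, ← h3]; ring
    rw [this]; positivity
  · have h4 : a ≤ x * y := by
      apply le_of_sq_le_sq _ hR0
      calc a ^ 2 ≤ x ^ 2 * y ^ 2 := ha
        _ = (x * y) ^ 2 := by ring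
    have h5 : 0 ≤ (x * y - a) * (1 + a - x * y) := by
      by_contra h6
      push Not at h6
      have := mul_neg_of_pos_of_neg (mul_pos two_pos h3) h6
      linarith
    have h6 : x * y ≤ 1 + a := by
      rcases eq_or_lt_of_le h4 with h7 | h7
      · linarith
      · have := nonneg_of_mul_nonneg_right h5 (sub_pos.mpr h7)
        linarith
    calc x ^ 2 * y ^ 2 = (x * y) ^ 2 := by ring
      _ ≤ (1 + a) ^ 2 := by gcongr

/-- the updated inverse -/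
theorem ua_inv {v : ℕ} (X Y : Matrix (Fin v) (Fin v) ℝ) (hY : Y.IsSymm)
    (hXY : X * Y = 1) (p q : Fin v → ℝ) (P Q a D : ℝ) (hP : p ⬝ᵥ (Y *ᵥ p) = P)
    (hQ : q ⬝ᵥ (Y *ᵥ q) = Q) (ha : p ⬝ᵥ (Y *ᵥ q) = a) (ha' : q ⬝ᵥ (Y *ᵥ p) = a)
    (hD : D = (1 + a) ^ 2 - P * Q) (hD0 : D ≠ 0) :
    (X + (vecMulVec p q + vecMulVec q p)) *
      (Y + (1 / D) • (Q • vecMulVec (Y *ᵥ p) (Y *ᵥ p) -
        (1 + a) • (vecMulVec (Y *ᵥ p) (Y *ᵥ q) + vecMulVec (Y *ᵥ q) (Y *ᵥ p)) +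
        P • vecMulVec (Y *ᵥ q) (Y *ᵥ q))) = 1 := by
  have hXp : X *ᵥ (Y *ᵥ p) = p := by rw [mulVec_mulVec, hXY, one_mulVec]
  have hXq : X *ᵥ (Y *ᵥ q) = q := by rw [mulVec_mulVec, hXY, one_mulVec]
  have hpY : ∀ u : Fin v → ℝ, u ᵥ* Y = Y *ᵥ u := by
    intro u
    rw [← mulVec_transpose, hY.eq]
  simp only [add_mul, mul_add, mul_sub, Matrix.mul_smul, mul_vecMulVec, vecMulVec_mul, hXY, hXp,
    hXq, hpY, vecMulVec_mulVec, hP, hQ, ha, ha']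
  ext i j
  simp only [Matrix.add_apply, Matrix.sub_apply, Matrix.smul_apply, vecMulVec_apply, smul_eq_mul,
    Pi.smul_apply, MulOpposite.smul_eq_mul_unop, MulOpposite.unop_op]
  field_simp
  rw [hD]
  ring

/-- rank two update of the inverse -/
theorem upd_two {v : ℕ} (X Y : Matrix (Fin v) (Fin v) ℝ) (hX : X.IsSymm) (hY : Y.IsSymm)
    (hXY : X * Y = 1) (hpos : ∀ z : Fin v → ℝ, 0 ≤ z ⬝ᵥ (X *ᵥ z)) (p q : Fin v → ℝ)
    (hpsd : ∀ z : Fin v → ℝ, 0 ≤ z ⬝ᵥ ((X + (vecMulVec p q + vecMulVec q p)) *ᵥ z))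
    (hopt : (X + (vecMulVec p q + vecMulVec q p)).det ≠ 0 →
      trace Y ≤ trace (X + (vecMulVec p q + vecMulVec q p))⁻¹) :
    2 * bf (Y * Y) p q ≤ wd Y p q p q := by
  have hYpos : ∀ z : Fin v → ℝ, 0 ≤ bf Y z z := by
    intro z
    have h := hpos (Y *ᵥ z)
    rw [mulVec_mulVec, hXY, one_mulVec, dotProduct_comm] at h
    exact h
  have hYY : (Y * Y).IsSymm := by
    unfold Matrix.IsSymm
    rw [transpose_mul, hY.eq]
  have hYYpos : ∀ z : Fin v → ℝ, 0 ≤ bf (Y * Y) z z := by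
    intro z
    rw [bf_sq Y hY]
    unfold dotProduct
    exact Finset.sum_nonneg fun i _ => mul_self_nonneg _
  have hqp : q ⬝ᵥ (Y *ᵥ p) = bf Y p q := bf_symm Y hY q p
  have hqp2 : bf (Y * Y) q p = bf (Y * Y) p q := bf_symm _ hYY q p
  have hac := bf_cs Y hY hYpos p q
  have hcc := bf_cs (Y * Y) hYY hYYpos p q
  have hdisc := ua_disc (bf Y p p) (bf Y q q) (bf Y p q) (hYpos p) (hYpos q) hac
    (ua_quad X Y hY hXY p q hpsd)
  have hwd : wd Y p q p q = bf Y p p * bf (Y * Y) q q + bf (Y * Y) p p * bf Y q q -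
      2 * bf Y p q * bf (Y * Y) p q := by
    unfold wd
    rw [bf_symm Y hY q p, hqp2]
    ring
  rw [hwd]
  have hP := hYpos p
  have hQ := hYpos q
  have hP2 := hYYpos p
  have hQ2 := hYYpos q
  rcases eq_or_lt_of_le hdisc with h0 | h0
  · have h1 : (2 * (1 + bf Y p q) * bf (Y * Y) p q) ^ 2 ≤
        (bf Y q q * bf (Y * Y) p p + bf Y p p * bf (Y * Y) q q) ^ 2 := by
      have h2 : (2 * (1 + bf Y p q) * bf (Y * Y) p q) ^ 2 =
          4 * (bf Y p p * bf Y q q) * (bf (Y * Y) p q) ^ 2 := by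
        rw [h0]; ring
      have h3 : (bf Y p p * bf Y q q) * (bf (Y * Y) p q) ^ 2 ≤
          (bf Y p p * bf Y q q) * (bf (Y * Y) p p * bf (Y * Y) q q) :=
        mul_le_mul_of_nonneg_left hcc (mul_nonneg hP hQ)
      rw [h2]
      nlinarith [sq_nonneg (bf Y q q * bf (Y * Y) p p - bf Y p p * bf (Y * Y) q q), h3]
    have h4 : 2 * (1 + bf Y p q) * bf (Y * Y) p q ≤
        bf Y q q * bf (Y * Y) p p + bf Y p p * bf (Y * Y) q q :=
      le_of_sq_le_sq h1 (by positivity)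
    linarith [h4]
  · obtain ⟨D, hD⟩ : ∃ D : ℝ, D = (1 + bf Y p q) ^ 2 - bf Y p p * bf Y q q := ⟨_, rfl⟩
    have hDpos : 0 < D := by rw [hD]; linarith
    have hinv := ua_inv X Y hY hXY p q (bf Y p p) (bf Y q q) (bf Y p q) D rfl rfl rfl hqp hD
      hDpos.ne'
    have hdet : (X + (vecMulVec p q + vecMulVec q p)).det ≠ 0 := by
      intro h2
      have h3 := congrArg Matrix.det hinv
      rw [det_mul, h2, zero_mul, det_one] at h3
      exact zero_ne_one h3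
    have h5 := hopt hdet
    rw [Matrix.inv_eq_right_inv hinv, trace_add, trace_smul, trace_add, trace_sub, trace_smul,
      trace_smul, trace_smul, trace_add, trace_vecMulVec, trace_vecMulVec, trace_vecMulVec,
      trace_vecMulVec, ← bf_sq Y hY, ← bf_sq Y hY, ← bf_sq Y hY, ← bf_sq Y hY, hqp2,
      smul_eq_mul, smul_eq_mul, smul_eq_mul, smul_eq_mul] at h5
    have h6 : 0 ≤ 1 / D * (bf Y q q * bf (Y * Y) p p -
        (1 + bf Y p q) * (bf (Y * Y) p q + bf (Y * Y) p q) + bf Y p p * bf (Y * Y) q q) := by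
      linarith
    have h7 := nonneg_of_mul_nonneg_right h6 (by positivity : 0 < 1 / D)
    linarith [h7]

end HCR
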