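import Mathlib
import Pool.Agent.Lib_helper88.HCR.Defs
import Pool.Agent.Lib_helper88.SPR.Defs

set_option autoImplicit false

namespace HCR

open Finset Matrix

/-- the new design -/
def ub_N {v b : ℕ} (N : Matrix (Fin v) (Fin b) ℕ) (x w : Fin v) (j l : Fin b) :
    Matrix (Fin v) (Fin b) ℕ :=
  fun y m => (N y m + (if y = w ∧ m = j then 1 else 0) + (if y = x ∧ m = l then 1 else 0)) -
    ((if y = x ∧ m = j then 1 else 0) + (if y = w ∧ m = l then 1 else 0))

/-- the difference of two block indicators -/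
def ub_f {b : ℕ} (j l : Fin b) : Fin b → ℝ :=
  fun m => (if m = j then 1 else 0) - (if m = l then 1 else 0)

theorem ub_ite (P Q : Prop) [Decidable P] [Decidable Q] :
    (if P ∧ Q then (1 : ℝ) else 0) = (if P then 1 else 0) * (if Q then 1 else 0) := by
  by_cases hP : P <;> by_cases hQ : Q <;> simp [hP, hQ]

theorem ub_cast {v b : ℕ} (N : Matrix (Fin v) (Fin b) ℕ)
    (x w : Fin v) (j l : Fin b) (hxw : x ≠ w) (hjl : j ≠ l) (hx : 0 < N x j) (hw : 0 < N w l)
    (y : Fin v) (m : Fin b) :
    ((ub_N N x w j l y m : ℕ) : ℝ) = (N y m : ℝ) - (un x - un w) y * ub_f j l m := by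
  have hle : ((if y = x ∧ m = j then 1 else 0) + (if y = w ∧ m = l then 1 else 0) : ℕ) ≤
      N y m + (if y = w ∧ m = j then 1 else 0) + (if y = x ∧ m = l then 1 else 0) := by
    by_cases h1 : y = x ∧ m = j
    · obtain ⟨rfl, rfl⟩ := h1
      have h2 : ¬ (y = w ∧ m = l) := fun h => hxw h.1
      rw [if_neg h2]
      simp only [and_self, if_true]
      omega
    · by_cases h2 : y = w ∧ m = l
      · obtain ⟨rfl, rfl⟩ := h2
        rw [if_neg h1]
        simp only [and_self, if_true]
        omega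
      · rw [if_neg h1, if_neg h2]
        omega
  rw [ub_N, Nat.cast_sub hle]
  simp only [Pi.sub_apply, un, ub_f]
  push_cast
  rw [ub_ite, ub_ite, ub_ite, ub_ite]
  ring

theorem ub_fsum {b : ℕ} (j l : Fin b) : ∑ m, ub_f j l m = 0 := by
  simp [ub_f, Finset.sum_sub_distrib]

theorem ub_psum {v : ℕ} (x w : Fin v) : ∑ y, (un x - un w) y = 0 := by
  simp [un, Finset.sum_sub_distrib]

theorem ub_fsq {b : ℕ} (j l : Fin b) (hjl : j ≠ l) : ∑ m, ub_f j l m * ub_f j l m = 2 := by
  have h : ∀ m, ub_f j l m * ub_f j l m = (if m = j then 1 else 0) + (if m = l then 1 else 0) := by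
    intro m
    rw [ub_f]
    by_cases a3 : m = j <;> by_cases a4 : m = l
    · exact absurd (a3.symm.trans a4) hjl
    · simp [a3, hjl]
    · simp [a4, hjl.symm]
    · simp [a3, a4]
  rw [Finset.sum_congr rfl (fun m _ => h m), Finset.sum_add_distrib]
  simp
  norm_num

theorem ub_Nf {v b : ℕ} (N : Matrix (Fin v) (Fin b) ℕ) (j l : Fin b) (y : Fin v) :
    ∑ m, (N y m : ℝ) * ub_f j l m = (N y j : ℝ) - N y l := by
  simp [ub_f, mul_sub, Finset.sum_sub_distrib]

/-- exchange of two plots -/
theorem exch {v b k r : ℕ} (N : Matrix (Fin v) (Fin b) ℕ) (hN : IsDes k r N)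
    (x w : Fin v) (j l : Fin b) (hxw : x ≠ w) (hjl : j ≠ l) (hx : 0 < N x j) (hw : 0 < N w l) :
    ∃ N' : Matrix (Fin v) (Fin b) ℕ, IsDes k r N' ∧ InfoJ k r N' = InfoJ k r N +
      (1 / (k : ℝ)) • (vecMulVec (un x - un w) (qf N x j - qf N w l) +
        vecMulVec (qf N x j - qf N w l) (un x - un w)) := by
  have hc := ub_cast N x w j l hxw hjl hx hw
  refine ⟨ub_N N x w j l, ⟨?_, ?_⟩, ?_⟩
  · intro m
    have h1 : ((∑ i, ub_N N x w j l i m : ℕ) : ℝ) = k := by
      push_cast
      rw [Finset.sum_congr rfl (fun i _ => hc i m), Finset.sum_sub_distrib, ← Finset.sum_mul,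
        ub_psum, zero_mul, sub_zero, ← hN.1 m]
      push_cast
      rfl
    exact_mod_cast h1
  · intro i
    have h1 : ((∑ m, ub_N N x w j l i m : ℕ) : ℝ) = r := by
      push_cast
      rw [Finset.sum_congr rfl (fun m _ => hc i m), Finset.sum_sub_distrib, ← Finset.mul_sum,
        ub_fsum, mul_zero, sub_zero, ← hN.2 i]
      push_cast
      rfl
    exact_mod_cast h1
  · have hNN : ∀ y z, (((ub_N N x w j l).map (fun x : ℕ => (x : ℝ))) *
        Matrix.transpose ((ub_N N x w j l).map (fun x : ℕ => (x : ℝ)))) y z =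
        ((N.map (fun x : ℕ => (x : ℝ))) * Matrix.transpose (N.map (fun x : ℕ => (x : ℝ)))) y z
        - ((un x - un w) y * (qf N x j - qf N w l) z +
          (qf N x j - qf N w l) y * (un x - un w) z) := by
      intro y z
      simp only [Matrix.mul_apply, Matrix.transpose_apply, Matrix.map_apply]
      have h2 : ∀ m, ((ub_N N x w j l y m : ℕ) : ℝ) * ((ub_N N x w j l z m : ℕ) : ℝ) =
          (N y m : ℝ) * N z m - (un x - un w) z * ((N y m : ℝ) * ub_f j l m) -
            (un x - un w) y * ((N z m : ℝ) * ub_f j l m) +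
            (un x - un w) y * (un x - un w) z * (ub_f j l m * ub_f j l m) := by
        intro m
        rw [hc y m, hc z m]
        ring
      rw [Finset.sum_congr rfl (fun m _ => h2 m), Finset.sum_add_distrib, Finset.sum_sub_distrib,
        Finset.sum_sub_distrib, ← Finset.mul_sum, ← Finset.mul_sum, ← Finset.mul_sum, ub_fsq j l hjl,
        ub_Nf, ub_Nf]
      have h3 : ∀ y : Fin v, (qf N x j - qf N w l) y = (N y j : ℝ) - N y l - (un x - un w) y := by
        intro y
        simp only [Pi.sub_apply, qf, un]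
        ring
      rw [h3 y, h3 z]
      ring
    ext y z
    simp only [InfoJ, Info, Matrix.add_apply, Matrix.sub_apply, Matrix.smul_apply, smul_eq_mul,
      vecMulVec_apply]
    rw [hNN y z]
    ring

end HCR
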