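import Mathlib
import Pool.Agent.Lib_helper88.HCR.Defs
import Pool.Agent.Lib_helper88.HCR.dc
import Pool.Agent.Lib_helper88.SPR.Defs
import Pool.Agent.Lib_helper88.SPR.bi
import Pool.Agent.Lib_helper88.SPR.ua
import Pool.Agent.Lib_helper88.SPR.ub
import Pool.Agent.Lib_helper88.SPR.lm

set_option autoImplicit false

namespace HCR

open Finset Matrix

/-- all ones -/
def uc_J (v : ℕ) : Matrix (Fin v) (Fin v) ℝ :=
  Matrix.of (fun (_ : Fin v) (_ : Fin v) => (1 : ℝ))

theorem uc_Jmul {v : ℕ} (z : Fin v → ℝ) (i : Fin v) : (uc_J v *ᵥ z) i = ∑ y, z y := by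
  simp [uc_J, Matrix.mulVec, dotProduct]

theorem uc_Jsymm (v : ℕ) : (uc_J v).IsSymm := by
  ext i j
  simp [uc_J]

theorem uc_Jquad {v : ℕ} (z : Fin v → ℝ) : z ⬝ᵥ (uc_J v *ᵥ z) = (∑ y, z y) ^ 2 := by
  simp only [dotProduct, uc_Jmul]
  rw [← Finset.sum_mul, _root_.sq]

theorem uc_kInfo {v b k r : ℕ} (hk : 1 ≤ k) (N : Matrix (Fin v) (Fin b) ℕ) :
    (k : ℝ) • Info k r N = ((r : ℝ) * ((k : ℝ) - 1)) • (1 : Matrix (Fin v) (Fin v) ℝ) - Lm r N := by
  have hk0 : (k : ℝ) ≠ 0 := by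
    have : k ≠ 0 := by omega
    exact_mod_cast this
  unfold Info Lm NR
  rw [smul_sub, smul_smul, smul_smul, mul_one_div, div_self hk0, one_smul]
  rw [show (r : ℝ) * ((k : ℝ) - 1) = (k : ℝ) * r - r by ring, sub_smul]
  abel

theorem uc_symm {v b k r : ℕ} (N : Matrix (Fin v) (Fin b) ℕ) : (Info k r N).IsSymm := by
  unfold Matrix.IsSymm Info
  rw [Matrix.transpose_sub, Matrix.transpose_smul, Matrix.transpose_smul, Matrix.transpose_one,
    Matrix.transpose_mul, Matrix.transpose_transpose]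

theorem uc_Jdef {v b k r : ℕ} (N : Matrix (Fin v) (Fin b) ℕ) :
    InfoJ k r N = Info k r N + (1 / (v : ℝ)) • uc_J v := rfl

theorem uc_symmJ {v b k r : ℕ} (N : Matrix (Fin v) (Fin b) ℕ) : (InfoJ k r N).IsSymm := by
  unfold Matrix.IsSymm
  rw [uc_Jdef, Matrix.transpose_add, Matrix.transpose_smul, (uc_symm N).eq, (uc_Jsymm v).eq]

theorem uc_rowI {v b k r : ℕ} (hk : 1 ≤ k) {N : Matrix (Fin v) (Fin b) ℕ} (hN : IsDes k r N) :
    Info k r N * uc_J v = 0 := by
  have hk0 : (k : ℝ) ≠ 0 := by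
    have : k ≠ 0 := by omega
    exact_mod_cast this
  have h1 : (k : ℝ) • Info k r N * uc_J v = 0 := by
    rw [uc_kInfo hk, Matrix.sub_mul]
    ext x y
    have h2 := (Lm_facts hN).2.2.1 x
    simp only [Matrix.sub_apply, Matrix.smul_mul, Matrix.one_mul, Matrix.smul_apply,
      Matrix.mul_apply, uc_J, Matrix.of_apply, mul_one, smul_eq_mul, Matrix.zero_apply]
    linarith
  rw [Matrix.smul_mul] at h1
  rcases smul_eq_zero.1 h1 with h | h
  · exact absurd h hk0
  · exact h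

theorem uc_JJ (v : ℕ) (hv : 1 ≤ v) : ((1 / (v : ℝ)) • uc_J v) * uc_J v = uc_J v := by
  have hv0 : (v : ℝ) ≠ 0 := by
    have : v ≠ 0 := by omega
    exact_mod_cast this
  ext x y
  simp [uc_J, Matrix.mul_apply, hv0]

theorem uc_InfoJ_J {v b k r : ℕ} (hv : 1 ≤ v) (hk : 1 ≤ k) {N : Matrix (Fin v) (Fin b) ℕ}
    (hN : IsDes k r N) : InfoJ k r N * uc_J v = uc_J v := by
  rw [uc_Jdef, Matrix.add_mul, uc_rowI hk hN, zero_add, uc_JJ v hv]

theorem uc_psdJ {v b k r : ℕ} (hk : 1 ≤ k) {N : Matrix (Fin v) (Fin b) ℕ}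
    (hN : IsDes k r N) (z : Fin v → ℝ) : 0 ≤ z ⬝ᵥ (InfoJ k r N *ᵥ z) := by
  rw [uc_Jdef, Matrix.add_mulVec, dotProduct_add, Matrix.smul_mulVec, dotProduct_smul, uc_Jquad,
    smul_eq_mul]
  have h1 := Info_psd hk N hN z
  have h2 : 0 ≤ 1 / (v : ℝ) * (∑ y, z y) ^ 2 := by positivity
  linarith

theorem SD_of_Aopt {v b k r : ℕ} (hv : 1 ≤ v) (hk : 1 ≤ k) (N : Matrix (Fin v) (Fin b) ℕ)
    (h : Aopt k r N) : SD k r N ((1 / (k : ℝ)) • ((InfoJ k r N)⁻¹ -
      (1 / (v : ℝ)) • Matrix.of (fun (_ : Fin v) (_ : Fin v) => (1 : ℝ)))) := by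
  obtain ⟨hN, hC, hA⟩ := h
  have hk0 : (k : ℝ) ≠ 0 := by
    have : k ≠ 0 := by omega
    exact_mod_cast this
  have hkp : (0 : ℝ) < k := by exact_mod_cast hk
  have hv0 : (v : ℝ) ≠ 0 := by
    have : v ≠ 0 := by omega
    exact_mod_cast this
  have hu : IsUnit (InfoJ k r N).det := isUnit_iff_ne_zero.2 hC
  set A := InfoJ k r N with hAdef
  set B := A⁻¹ with hBdef
  have hAB : A * B = 1 := Matrix.mul_nonsing_inv _ hu
  have hBA : B * A = 1 := Matrix.nonsing_inv_mul _ hu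
  have hAs : A.IsSymm := uc_symmJ N
  have hBs : B.IsSymm := by
    unfold Matrix.IsSymm
    rw [hBdef, Matrix.transpose_nonsing_inv, hAs.eq]
  have hAJ : A * uc_J v = uc_J v := uc_InfoJ_J hv hk hN
  have hBJ : B * uc_J v = uc_J v := by
    calc B * uc_J v = B * (A * uc_J v) := by rw [hAJ]
      _ = uc_J v := by rw [← Matrix.mul_assoc, hBA, Matrix.one_mul]
  have hJB : uc_J v * B = uc_J v := by
    have h1 := congrArg Matrix.transpose hBJ
    rw [Matrix.transpose_mul, (uc_Jsymm v).eq, hBs.eq] at h1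
    exact h1
  change SD k r N ((1 / (k : ℝ)) • (B - (1 / (v : ℝ)) • uc_J v))
  set H := (1 / (k : ℝ)) • (B - (1 / (v : ℝ)) • uc_J v) with hH
  have hHs : H.IsSymm := by
    unfold Matrix.IsSymm
    rw [hH, Matrix.transpose_smul, Matrix.transpose_sub, Matrix.transpose_smul, hBs.eq,
      (uc_Jsymm v).eq]
  have hHJ : H * uc_J v = 0 := by
    rw [hH, Matrix.smul_mul, Matrix.sub_mul, hBJ, uc_JJ v hv, sub_self, smul_zero]
  have hIH : ((k : ℝ) • Info k r N) * H = 1 - (1 / (v : ℝ)) • uc_J v := by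
    rw [hH, Matrix.smul_mul, Matrix.mul_smul, smul_smul, mul_one_div, div_self hk0, one_smul,
      Matrix.mul_sub, Matrix.mul_smul, uc_rowI hk hN, smul_zero, sub_zero]
    have h1 : Info k r N = A - (1 / (v : ℝ)) • uc_J v := by
      rw [hAdef, uc_Jdef]; abel
    rw [h1, Matrix.sub_mul, hAB, Matrix.smul_mul, hJB]
  have hJH : uc_J v * H = 0 := by
    have h1 := congrArg Matrix.transpose hHJ
    rw [Matrix.transpose_mul, (uc_Jsymm v).eq, hHs.eq, Matrix.transpose_zero] at h1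
    exact h1
  have hHIH : H * (((k : ℝ) • Info k r N) * H) = H := by
    rw [hIH, Matrix.mul_sub, Matrix.mul_one, Matrix.mul_smul, hHJ, smul_zero, sub_zero]
  -- `Y` and `H`
  have hYH : (1 / (k : ℝ)) • B = H + (1 / (k : ℝ) * (1 / (v : ℝ))) • uc_J v := by
    rw [hH, smul_sub, smul_smul]; abel
  clear_value H
  have hYz : ∀ z : Fin v → ℝ, ∑ i, z i = 0 → ((1 / (k : ℝ)) • B) *ᵥ z = H *ᵥ z := by
    intro z hz
    rw [hYH, Matrix.add_mulVec, Matrix.smul_mulVec]
    have : uc_J v *ᵥ z = 0 := by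
      ext i
      rw [uc_Jmul, hz]; rfl
    rw [this, smul_zero, add_zero]
  have hYs : ((1 / (k : ℝ)) • B).IsSymm := by
    unfold Matrix.IsSymm
    rw [Matrix.transpose_smul, hBs.eq]
  have hb1 : ∀ s t : Fin v → ℝ, ∑ i, t i = 0 → bf ((1 / (k : ℝ)) • B) s t = bf H s t := by
    intro s t ht
    unfold bf
    rw [hYz t ht]
  have hb2 : ∀ s t : Fin v → ℝ, ∑ i, s i = 0 → ∑ i, t i = 0 →
      bf (((1 / (k : ℝ)) • B) * ((1 / (k : ℝ)) • B)) s t = bf (H * H) s t := by
    intro s t hs ht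
    rw [bf_sq _ hYs, bf_sq _ hHs, hYz s hs, hYz t ht]
  have hneg : ∀ (G : Matrix (Fin v) (Fin v) ℝ) (p q : Fin v → ℝ), bf G p (-q) = - bf G p q ∧
      bf G (-p) q = - bf G p q := by
    intro G p q
    unfold bf
    constructor
    · rw [Matrix.mulVec_neg, dotProduct_neg]
    · rw [neg_dotProduct]
  refine ⟨hN, hHs, ?_, ?_, ?_, ?_⟩
  · intro x
    have h1 := congrFun (congrFun hHJ x) x
    simpa [Matrix.mul_apply, uc_J] using h1
  · intro x y
    have h1 := congrFun (congrFun hIH x) y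
    rw [uc_kInfo hk, Matrix.sub_mul, Matrix.sub_apply, Matrix.smul_mul, Matrix.smul_apply,
      Matrix.one_mul, smul_eq_mul, Matrix.sub_apply, Matrix.smul_apply, Matrix.one_apply] at h1
    rw [h1]
    simp [uc_J]
  · intro p
    have h1 : bf H p p = (H *ᵥ p) ⬝ᵥ (((k : ℝ) • Info k r N) *ᵥ (H *ᵥ p)) := by
      unfold bf
      conv_lhs => rw [← hHIH]
      rw [← Matrix.mulVec_mulVec, ← Matrix.mulVec_mulVec, Matrix.dotProduct_mulVec,
        ← Matrix.mulVec_transpose, hHs.eq]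
    rw [h1, Matrix.smul_mulVec (k : ℝ) (Info k r N), dotProduct_smul, smul_eq_mul]
    exact mul_nonneg hkp.le (Info_psd hk N hN _)
  · intro x w j l hx hw
    set p := un x - un w with hp
    set q := qf N x j - qf N w l with hq
    have hsun : ∀ x : Fin v, ∑ i, un x i = 1 := by
      intro x
      simp [un]
    have hsp : ∑ i, p i = 0 := by
      rw [hp]
      simp only [Pi.sub_apply, Finset.sum_sub_distrib, hsun, sub_self]
    have hsqf : ∀ (x : Fin v) (j : Fin b), ∑ i, qf N x j i = (k : ℝ) - 1 := by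
      intro x j
      have h1 : ∑ i, (N i j : ℝ) = (k : ℝ) := by exact_mod_cast hN.1 j
      unfold qf
      rw [Finset.sum_sub_distrib, h1]
      simp
    have hsq : ∑ i, q i = 0 := by
      rw [hq]
      simp only [Pi.sub_apply, Finset.sum_sub_distrib, hsqf, sub_self]
    by_cases hxw : x = w
    · have hp0 : p = 0 := by rw [hp, hxw, sub_self]
      have h0 : ∀ (G : Matrix (Fin v) (Fin v) ℝ) (s : Fin v → ℝ), bf G 0 s = 0 := by
        intro G s
        unfold bf
        rw [zero_dotProduct]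
      have h0' : ∀ (G : Matrix (Fin v) (Fin v) ℝ) (s : Fin v → ℝ), bf G s 0 = 0 := by
        intro G s
        unfold bf
        rw [Matrix.mulVec_zero, dotProduct_zero]
      rw [hp0]
      unfold wd
      simp only [h0, h0']
      simp
    by_cases hjl : j = l
    · have hqp : q = -p := by
        rw [hq, hp, hjl]
        ext y
        simp only [Pi.sub_apply, Pi.neg_apply, qf, un]
        ring
      rw [hqp]
      unfold wd
      simp only [(hneg _ _ _).1, (hneg _ _ _).2]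
      have h1 : 0 ≤ bf (H * H) p p := by
        rw [bf_sq _ hHs]
        exact Finset.sum_nonneg (fun i _ => mul_self_nonneg _)
      nlinarith [h1]
    obtain ⟨N', hN', hE⟩ := exch N hN x w j l hxw hjl hx hw
    rw [← hp, ← hq, ← hAdef] at hE
    have hX' : (k : ℝ) • A + (vecMulVec p q + vecMulVec q p) = (k : ℝ) • InfoJ k r N' := by
      rw [hE, smul_add, smul_smul, mul_one_div, div_self hk0, one_smul]
    have hXs : ((k : ℝ) • A).IsSymm := by
      unfold Matrix.IsSymm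
      rw [Matrix.transpose_smul, hAs.eq]
    have hXY : ((k : ℝ) • A) * ((1 / (k : ℝ)) • B) = 1 := by
      rw [Matrix.smul_mul, Matrix.mul_smul, smul_smul, mul_one_div, div_self hk0, one_smul, hAB]
    have hpos : ∀ z : Fin v → ℝ, 0 ≤ z ⬝ᵥ (((k : ℝ) • A) *ᵥ z) := by
      intro z
      rw [Matrix.smul_mulVec, dotProduct_smul, smul_eq_mul]
      exact mul_nonneg hkp.le (uc_psdJ hk hN z)
    have hpos' : ∀ z : Fin v → ℝ,
        0 ≤ z ⬝ᵥ (((k : ℝ) • A + (vecMulVec p q + vecMulVec q p)) *ᵥ z) := by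
      intro z
      rw [hX', Matrix.smul_mulVec, dotProduct_smul, smul_eq_mul]
      exact mul_nonneg hkp.le (uc_psdJ hk hN' z)
    have hopt : ((k : ℝ) • A + (vecMulVec p q + vecMulVec q p)).det ≠ 0 →
        trace ((1 / (k : ℝ)) • B) ≤
          trace ((k : ℝ) • A + (vecMulVec p q + vecMulVec q p))⁻¹ := by
      intro hdet
      rw [hX', Matrix.det_smul] at hdet
      have hC' : Conn k r N' := (mul_ne_zero_iff.1 hdet).2
      have h1 := hA N' hN' hC'
      unfold PhiA at h1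
      have h2 : ((k : ℝ) • A + (vecMulVec p q + vecMulVec q p))⁻¹ =
          (1 / (k : ℝ)) • (InfoJ k r N')⁻¹ := by
        rw [hX']
        apply Matrix.inv_eq_right_inv
        rw [Matrix.smul_mul, Matrix.mul_smul, smul_smul, mul_one_div, div_self hk0, one_smul,
          Matrix.mul_nonsing_inv _ (isUnit_iff_ne_zero.2 hC')]
      rw [h2, Matrix.trace_smul, Matrix.trace_smul, smul_eq_mul, smul_eq_mul]
      exact mul_le_mul_of_nonneg_left h1 (by positivity)
    have hres := upd_two _ _ hXs hYs hXY hpos p q hpos' hopt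
    rw [hb2 p q hsp hsq] at hres
    unfold wd at hres ⊢
    simp only [hb1 _ _ hsp, hb1 _ _ hsq, hb2 _ _ hsp hsp, hb2 _ _ hsp hsq, hb2 _ _ hsq hsp,
      hb2 _ _ hsq hsq] at hres
    exact hres

end HCR
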