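import Mathlib
import Pool.Agent.Lib_helper88.HCR.Defs
import Pool.Agent.Lib_helper88.HCR.FIN
import Pool.Agent.Lib_helper88.SPR.Defs
import Pool.Agent.Lib_helper88.SPR.pr
import Pool.Agent.Lib_helper88.SPR.uc
import Pool.Agent.Lib_helper88.SPR.s2
import Pool.Agent.Lib_helper88.SPR.s4
import Pool.Agent.Lib_helper88.SPR.s8
import Pool.Agent.Lib_helper88.SPR.s9
import Pool.Agent.Lib_helper88.SPR.fa

set_option autoImplicit false

namespace HCR

open Finset Matrix

/-- `N` is linear: binary, and two treatments meet at most once -/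
def Linear {v b : ℕ} (N : Matrix (Fin v) (Fin b) ℕ) : Prop :=
  (∀ x j, N x j ≤ 1) ∧ ∀ x y, x ≠ y → ∑ j, N x j * N y j ≤ 1

theorem par_v {v b k r : ℕ} (hP : Par v b k r) : 1 ≤ v ∧ 1 ≤ r := by
  have hk := hP.hk
  have h1 : 1 ≤ (k - 1) ^ 2 := Nat.one_le_pow _ _ (by omega)
  have h2 : 1 ≤ r := by
    have := hP.hr
    omega
  refine ⟨?_, h2⟩
  have h3 : 1 ≤ 1000 * (k - 1) ^ 2 * r := by
    have : 1 ≤ 1000 * (k - 1) ^ 2 := by omega
    exact Nat.mul_le_mul this h2
  exact h3.trans hP.hv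

/-- the core -/
theorem spr_core {v b k r : ℕ} (hP : Par v b k r) (N : Matrix (Fin v) (Fin b) ℕ)
    (h : Aopt k r N) : Linear N := by
  obtain ⟨hv, hr⟩ := par_v hP
  have hS := SD_of_Aopt hv (by have := hP.hk; omega) N h
  have hR := parR hP
  have h2 := stage2 hR hS
  refine ⟨fun x j => binary hR hS h2 x j, fun x y hxy => ?_⟩
  exact no_excess hR hS (fun x j => binary hR hS h2 x j)
    (fun x j hx => stage3 hR hS h2 _ _ rfl rfl x j hx) x y hxy

/-- the sparse range -/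
theorem spr_range (v b k r : ℕ) (hk : 2 ≤ k) (hr : 10000 * (k - 1) ^ 2 ≤ r)
    (hv : 1000 * (k - 1) ^ 2 * r ≤ v) :
    Q1 v b k r ∧ ∀ N : Matrix (Fin v) (Fin b) ℕ, Aopt k r N → MSopt k r N ∧ Linear N := by
  by_cases hc : v * r = b * k
  · have hP : Par v b k r := ⟨hc, hk, hr, hv⟩
    have hA : ∀ N : Matrix (Fin v) (Fin b) ℕ, Aopt k r N → MSopt k r N ∧ Linear N := by
      intro N hN
      have hl := spr_core hP N hN
      exact ⟨linear_ms (by omega) N hN.1 hl.1 hl.2, hl⟩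
    refine ⟨?_, hA⟩
    intro N hMS hC hmin N' hN' hC'
    obtain ⟨N₁, hN₁⟩ := exists_Aopt N hMS.1 hC
    exact (hmin N₁ (hA N₁ hN₁).1 hN₁.2.1).trans (hN₁.2.2 N' hN' hC')
  · exact ⟨fun N hN => absurd (des_count N hN.1) hc, fun N hN => absurd (des_count N hN.1) hc⟩

theorem linear_transpose {v b : ℕ} (N : Matrix (Fin v) (Fin b) ℕ) (h : Linear (Nᵀ)) : Linear N := by
  refine ⟨fun x j => h.1 j x, ?_⟩
  intro x y hxy
  by_contra hcon
  have h1 : ∀ j, N x j * N y j ≤ 1 := by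
    intro j
    have a1 := h.1 j x
    have a2 := h.1 j y
    simp only [transpose_apply] at a1 a2
    exact (Nat.mul_le_mul a1 a2)
  -- two different blocks contain both
  have h2 : 2 ≤ (univ.filter (fun j => N x j * N y j = 1)).card := by
    have h3 : ∑ j, N x j * N y j = (univ.filter (fun j => N x j * N y j = 1)).card := by
      rw [Finset.card_filter]
      refine Finset.sum_congr rfl (fun j _ => ?_)
      have := h1 j
      split_ifs with h4
      · exact h4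
      · omega
    omega
  obtain ⟨j, hj, l, hl, hjl⟩ := Finset.one_lt_card.1 (by omega : 1 < (univ.filter
    (fun j => N x j * N y j = 1)).card)
  have hj' := (Finset.mem_filter.1 hj).2
  have hl' := (Finset.mem_filter.1 hl).2
  have h5 := h.2 j l hjl
  simp only [transpose_apply] at h5
  have h6 : N x j = 1 ∧ N y j = 1 := by
    exact ⟨Nat.eq_one_of_mul_eq_one_right hj', Nat.eq_one_of_mul_eq_one_left hj'⟩
  have h7 : N x l = 1 ∧ N y l = 1 := ⟨Nat.eq_one_of_mul_eq_one_right hl', Nat.eq_one_of_mul_eq_one_left hl'⟩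
  have h8 : ∑ i ∈ ({x, y} : Finset (Fin v)), N i j * N i l ≤ ∑ i, N i j * N i l :=
    Finset.sum_le_sum_of_subset (Finset.subset_univ _)
  rw [Finset.sum_pair hxy, h6.1, h6.2, h7.1, h7.2] at h8
  omega

/-- the dual sparse range -/
theorem spr_dual (v b k r : ℕ) (hv : 1 ≤ v) (hb : 1 ≤ b) (hr : 2 ≤ r)
    (hk : 10000 * (r - 1) ^ 2 ≤ k) (hb' : 1000 * (r - 1) ^ 2 * k ≤ b) :
    Q1 v b k r ∧ ∀ N : Matrix (Fin v) (Fin b) ℕ, Aopt k r N → MSopt k r N ∧ Linear N := by
  have hk1 : 1 ≤ k := by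
    have h1 : 1 ≤ (r - 1) ^ 2 := Nat.one_le_pow _ _ (by omega)
    omega
  obtain ⟨h1, h2⟩ := spr_range b v r k hr hk hb'
  refine ⟨dual_Q1 hv hb hk1 (by omega) h1, fun N hN => ?_⟩
  have h3 := h2 _ ((dual_Aopt hv hb hk1 (by omega) N).1 hN)
  exact ⟨(dual_ms hk1 (by omega) N).2 h3.1, linear_transpose N h3.2⟩

end HCR
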