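import Mathlib
import Pool.Agent.Lib_helper88.SPR.FIN
import Pool.Agent.Lib_helper55.LCD.FC

set_option autoImplicit false

namespace HCR

open Finset Matrix

/-- no cycle of length `2` or `4` means linear -/
theorem linear_of_noCyc {v b : ℕ} (N : Matrix (Fin v) (Fin b) ℕ) (h : LCD.NoCyc 2 N) :
    Linear N := by
  refine ⟨h.1, ?_⟩
  intro x y hxy
  by_contra hcon
  have h1 : ∀ j, N x j * N y j ≤ 1 := by
    intro j
    exact Nat.mul_le_mul (h.1 x j) (h.1 y j)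
  have h2 : 2 ≤ (univ.filter (fun j => N x j * N y j = 1)).card := by
    have h3 : ∑ j, N x j * N y j = (univ.filter (fun j => N x j * N y j = 1)).card := by
      rw [Finset.card_filter]
      refine Finset.sum_congr rfl (fun j _ => ?_)
      have := h1 j
      split_ifs with h4
      · exact h4
      · omega
    omega
  obtain ⟨j, hj, l, hl, hjl⟩ := Finset.one_lt_card.1 (by omega : 1 < (univ.filter
    (fun j => N x j * N y j = 1)).card)
  have hj' := (Finset.mem_filter.1 hj).2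
  have hl' := (Finset.mem_filter.1 hl).2
  have h6 : N x j = 1 ∧ N y j = 1 := by
    exact ⟨Nat.eq_one_of_mul_eq_one_right hj', Nat.eq_one_of_mul_eq_one_left hj'⟩
  have h7 : N x l = 1 ∧ N y l = 1 :=
    ⟨Nat.eq_one_of_mul_eq_one_right hl', Nat.eq_one_of_mul_eq_one_left hl'⟩
  refine h.2 2 le_rfl le_rfl ⟨fun i : Fin 2 => if i = 0 then x else y,
    fun i : Fin 2 => if i = 0 then j else l, ?_, ?_, ?_⟩
  · intro a c hac
    fin_cases a <;> fin_cases c <;> simp_all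
  · intro a c hac
    fin_cases a <;> fin_cases c <;> simp_all
  · intro i
    dsimp only
    constructor
    · split_ifs <;> omega
    · split_ifs <;> omega

/-- a polylogarithmic bound -/
theorem joint_log (A : ℝ) (R : ℕ) : ∃ v₀ : ℕ, ∀ v r : ℕ, v₀ ≤ v → 1 ≤ r → r ≤ R →
    A * Real.log ((v : ℝ) * r) ^ 6 ≤ v := by
  have h1 : (fun x : ℝ => Real.log x ^ 6) =o[Filter.atTop] (fun x : ℝ => x) :=
    Real.isLittleO_pow_log_id_atTop
  have hc : (0 : ℝ) < 1 / ((|A| + 1) * (R + 1)) := by positivity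
  have h2 := h1.bound hc
  rw [Filter.eventually_atTop] at h2
  obtain ⟨x₀, hx₀⟩ := h2
  refine ⟨⌈x₀⌉₊ + 1, ?_⟩
  intro v r hv hr hrR
  have hr1 : (1 : ℝ) ≤ r := by exact_mod_cast hr
  have hrR' : (r : ℝ) ≤ R := by exact_mod_cast hrR
  have hv1 : (1 : ℝ) ≤ v := by exact_mod_cast (by omega : 1 ≤ v)
  have hv0 : x₀ ≤ v := by
    have h3 : x₀ ≤ ⌈x₀⌉₊ := Nat.le_ceil x₀
    have h4 : ((⌈x₀⌉₊ + 1 : ℕ) : ℝ) ≤ v := by exact_mod_cast hv
    push_cast at h4
    linarith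
  have hvr : x₀ ≤ (v : ℝ) * r := by nlinarith
  have h3 := hx₀ _ hvr
  have h3a : (0 : ℝ) ≤ Real.log ((v : ℝ) * r) ^ 6 := by positivity
  have h3b : (0 : ℝ) ≤ (v : ℝ) * r := by positivity
  rw [Real.norm_eq_abs, Real.norm_eq_abs, abs_of_nonneg h3a, abs_of_nonneg h3b] at h3
  have h4 : A * Real.log ((v : ℝ) * r) ^ 6 ≤ |A| * Real.log ((v : ℝ) * r) ^ 6 :=
    mul_le_mul_of_nonneg_right (le_abs_self A) (by positivity)
  have h5 : |A| * Real.log ((v : ℝ) * r) ^ 6 ≤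
      |A| * (1 / ((|A| + 1) * (R + 1)) * ((v : ℝ) * r)) :=
    mul_le_mul_of_nonneg_left h3 (abs_nonneg A)
  have h6 : |A| * (1 / ((|A| + 1) * (R + 1)) * ((v : ℝ) * r)) ≤ v := by
    have h7 : |A| * (1 / ((|A| + 1) * (R + 1)) * ((v : ℝ) * r)) =
        (|A| * r) / ((|A| + 1) * (R + 1)) * v := by ring
    rw [h7]
    have h8 : (|A| * r) / ((|A| + 1) * (R + 1)) ≤ 1 := by
      rw [div_le_one (by positivity)]
      exact mul_le_mul (by linarith) (by linarith) (by positivity) (by positivity)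
    calc _ ≤ 1 * (v : ℝ) := mul_le_mul_of_nonneg_right h8 (by positivity)
      _ = v := one_mul _
  linarith

/-- for every block size all parameters with `v ≥ C r` -/
theorem joint_all (k : ℕ) (hk : 2 ≤ k) : ∃ C : ℕ, ∀ v b r : ℕ, 2 ≤ r → ¬ (k = 2 ∧ r = 2) →
    C * r ≤ v → Q1 v b k r ∧ ∀ N : Matrix (Fin v) (Fin b) ℕ, Aopt k r N →
      MSopt k r N ∧ Linear N := by
  obtain ⟨C₀, hC₀, hg⟩ := LCD.girth
  obtain ⟨v₀, hv₀⟩ := joint_log (C₀ * 8 * (10000 * ((k : ℝ) - 1) ^ 2) * ((k : ℝ) - 1) ^ 2)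
    (10000 * (k - 1) ^ 2)
  refine ⟨1000 * (k - 1) ^ 2 + v₀, ?_⟩
  intro v b r hr hkr hv
  have hv1 : 1000 * (k - 1) ^ 2 * r ≤ v := by
    refine le_trans ?_ hv
    exact Nat.mul_le_mul_right r (by omega)
  have hv2 : v₀ ≤ v := by
    refine le_trans ?_ hv
    calc v₀ = v₀ * 1 := (mul_one _).symm
      _ ≤ (1000 * (k - 1) ^ 2 + v₀) * r := Nat.mul_le_mul (by omega) (by omega)
  rcases le_total (10000 * (k - 1) ^ 2) r with h | h
  · exact spr_range v b k r hk h hv1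
  · by_cases hc : v * r = b * k
    · have hk1 : 1 ≤ (k - 1) ^ 2 := Nat.one_le_pow _ _ (by omega)
      have hvr : r ≤ v := by
        refine le_trans ?_ hv1
        nlinarith
      have hA : ∀ N : Matrix (Fin v) (Fin b) ℕ, Aopt k r N → MSopt k r N ∧ Linear N := by
        intro N hN
        have hl : Linear N := by
          refine linear_of_noCyc N (hg v b k r hk hr hkr hc (by nlinarith) 2 (by norm_num) ?_ N hN)
          have h1 := hv₀ v r hv2 (by omega) h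
          have hr2 : (2 : ℝ) ≤ r := by exact_mod_cast hr
          have hk2 : (2 : ℝ) ≤ k := by exact_mod_cast hk
          have hrR : (r : ℝ) ≤ 10000 * ((k : ℝ) - 1) ^ 2 := by
            have h2 : (r : ℝ) ≤ ((10000 * (k - 1) ^ 2 : ℕ) : ℝ) := by exact_mod_cast h
            rw [Nat.cast_mul, Nat.cast_pow, Nat.cast_sub (by omega)] at h2
            simpa using h2
          have hlog : 0 ≤ Real.log ((v : ℝ) * r) ^ 6 := by positivity
          have h2 : ((r : ℝ) - 1) ^ 2 ≤ 10000 * ((k : ℝ) - 1) ^ 2 * r := by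
            have h3 : ((r : ℝ) - 1) ^ 2 ≤ r * r := by nlinarith
            refine h3.trans ?_
            exact mul_le_mul_of_nonneg_right hrR (by linarith)
          calc C₀ * ((2 : ℕ) : ℝ) ^ 3 * Real.log ((v : ℝ) * r) ^ 6 *
                (((r : ℝ) - 1) * ((k : ℝ) - 1)) ^ 2
              = (C₀ * 8 * ((k : ℝ) - 1) ^ 2 * Real.log ((v : ℝ) * r) ^ 6) *
                  ((r : ℝ) - 1) ^ 2 := by
                push_cast
                ring
            _ ≤ (C₀ * 8 * ((k : ℝ) - 1) ^ 2 * Real.log ((v : ℝ) * r) ^ 6) *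
                  (10000 * ((k : ℝ) - 1) ^ 2 * r) :=
                mul_le_mul_of_nonneg_left h2 (by positivity)
            _ = (C₀ * 8 * (10000 * ((k : ℝ) - 1) ^ 2) * ((k : ℝ) - 1) ^ 2 *
                  Real.log ((v : ℝ) * r) ^ 6) * r := by ring
            _ ≤ (v : ℝ) * r := mul_le_mul_of_nonneg_right h1 (by linarith)
        exact ⟨linear_ms (by omega) N hN.1 hl.1 hl.2, hl⟩
      refine ⟨?_, hA⟩
      intro N hMS hC hmin N' hN' hC'
      obtain ⟨N₁, hN₁⟩ := exists_Aopt N hMS.1 hC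
      exact (hmin N₁ (hA N₁ hN₁).1 hN₁.2.1).trans (hN₁.2.2 N' hN' hC')
    · exact ⟨fun N hN => absurd (des_count N hN.1) hc, fun N hN => absurd (des_count N hN.1) hc⟩

/-- the range with a logarithm -/
theorem joint_log_range : ∃ C : ℝ, 0 < C ∧ ∀ v b k r : ℕ, 2 ≤ k → 2 ≤ r → ¬ (k = 2 ∧ r = 2) →
    v * r = b * k → 1 ≤ v →
    (C * r * (k : ℝ) ^ 2 * Real.log ((v : ℝ) * r) ^ 6 ≤ v →
      Q1 v b k r ∧ ∀ N : Matrix (Fin v) (Fin b) ℕ, Aopt k r N → MSopt k r N ∧ Linear N) ∧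
    ∀ l : ℕ, 1 ≤ l →
      C * (l : ℝ) ^ 3 * Real.log ((v : ℝ) * r) ^ 6 * (((r : ℝ) - 1) * ((k : ℝ) - 1)) ^ l
        ≤ (v : ℝ) * r →
      ∀ N : Matrix (Fin v) (Fin b) ℕ, Aopt k r N → LCD.NoCyc l N := by
  obtain ⟨C, hC0, hC⟩ := LCD.lowConcurrence
  refine ⟨8 * C, by linarith, ?_⟩
  intro v b k r hk hr hkr hvb hv
  obtain ⟨h1, h2⟩ := hC v b k r hk hr hkr hvb hv
  have hlog : 0 ≤ Real.log ((v : ℝ) * r) ^ 6 := by positivity
  have hk2 : (2 : ℝ) ≤ k := by exact_mod_cast hk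
  have hr2 : (2 : ℝ) ≤ r := by exact_mod_cast hr
  have hq : 0 ≤ ((r : ℝ) - 1) * ((k : ℝ) - 1) := mul_nonneg (by linarith) (by linarith)
  refine ⟨fun h => ?_, fun l hl hbig => ?_⟩
  · have h3 : C * r * (k : ℝ) ^ 2 * Real.log ((v : ℝ) * r) ^ 6 ≤ v := by
      refine le_trans ?_ h
      have h4 : 0 ≤ C * r * (k : ℝ) ^ 2 * Real.log ((v : ℝ) * r) ^ 6 := by positivity
      linarith
    obtain ⟨h5, h6⟩ := h1 h3
    refine ⟨h5, fun N hN => ⟨h6 N hN, ?_⟩⟩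
    refine linear_of_noCyc N (h2 2 (by norm_num) ?_ N hN)
    have h7 : (((r : ℝ) - 1) * ((k : ℝ) - 1)) ^ 2 ≤ ((r : ℝ) * (k : ℝ)) ^ 2 :=
      pow_le_pow_left₀ hq (mul_le_mul (by linarith) (by linarith) (by linarith) (by linarith)) 2
    calc C * ((2 : ℕ) : ℝ) ^ 3 * Real.log ((v : ℝ) * r) ^ 6 *
          (((r : ℝ) - 1) * ((k : ℝ) - 1)) ^ 2
        ≤ C * ((2 : ℕ) : ℝ) ^ 3 * Real.log ((v : ℝ) * r) ^ 6 * ((r : ℝ) * (k : ℝ)) ^ 2 :=
          mul_le_mul_of_nonneg_left h7 (by positivity)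
      _ = (8 * C * r * (k : ℝ) ^ 2 * Real.log ((v : ℝ) * r) ^ 6) * r := by
          push_cast
          ring
      _ ≤ (v : ℝ) * r := mul_le_mul_of_nonneg_right h (by linarith)
  · refine h2 l hl (le_trans ?_ hbig) 
    have h3 : 0 ≤ (((r : ℝ) - 1) * ((k : ℝ) - 1)) ^ l := pow_nonneg hq l
    have h4 : 0 ≤ (l : ℝ) ^ 3 * Real.log ((v : ℝ) * r) ^ 6 *
        (((r : ℝ) - 1) * ((k : ℝ) - 1)) ^ l := by positivity
    nlinarith

/-- the dual range: for every replication all parameters with `b ≥ C k` -/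
theorem joint_all_dual (r : ℕ) (hr : 2 ≤ r) : ∃ C : ℕ, ∀ v b k : ℕ, 1 ≤ v → 1 ≤ b → 2 ≤ k →
    ¬ (k = 2 ∧ r = 2) → C * k ≤ b → Q1 v b k r ∧ ∀ N : Matrix (Fin v) (Fin b) ℕ, Aopt k r N →
      MSopt k r N ∧ Linear N := by
  obtain ⟨C, hC⟩ := joint_all r hr
  refine ⟨C, ?_⟩
  intro v b k hv hb hk hkr hb'
  obtain ⟨h1, h2⟩ := hC b v k hk (fun h => hkr ⟨h.2, h.1⟩) hb'
  refine ⟨dual_Q1 hv hb (by omega) (by omega) h1, fun N hN => ?_⟩
  have h3 := h2 _ ((dual_Aopt hv hb (by omega) (by omega) N).1 hN)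
  exact ⟨(dual_ms (by omega) (by omega) N).2 h3.1, linear_transpose N h3.2⟩

end HCR
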