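import Mathlib
import Pool.Agent.Lib_helper88.HCR.Defs
import Pool.Agent.Lib_helper88.SPR.Defs
import Pool.Agent.Lib_helper88.SPR.bi
import Pool.Agent.Lib_helper88.SPR.s4
import Pool.Agent.Lib_helper88.SPR.s5

set_option autoImplicit false

namespace HCR

open Finset Matrix

theorem s6_sum {v b k r : ℕ} {N : Matrix (Fin v) (Fin b) ℕ} (h : IsDes k r N) (x : Fin v)
    (j : Fin b) : ∑ y, qf N x j y = (k : ℝ) - 1 := by
  unfold qf
  rw [sum_sub_distrib, sum_ite_eq' univ x (fun _ => (1 : ℝ)), if_pos (mem_univ x), ← Nat.cast_sum,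
    h.1 j]

theorem s6_q {v b : ℕ} {N : Matrix (Fin v) (Fin b) ℕ} {x : Fin v} {j : Fin b}
    (hb : ∀ y, N y j ≤ 1) (hx : 0 < N x j) (y : Fin v) : 0 ≤ qf N x j y ∧
    (qf N x j y ≠ 0 → 0 < N y j) := by
  unfold qf
  by_cases h : y = x
  · subst h
    have h1 : N y j = 1 := le_antisymm (hb y) hx
    rw [h1, if_pos rfl]
    norm_num
  · rw [if_neg h, sub_zero]
    refine ⟨Nat.cast_nonneg _, fun h1 => ?_⟩
    have h2 : N y j ≠ 0 := fun h3 => h1 (by rw [h3, Nat.cast_zero])
    omega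

/-- change of the base point of the flag -/
theorem s6_shift {v b : ℕ} (G : Matrix (Fin v) (Fin v) ℝ) (N : Matrix (Fin v) (Fin b) ℕ)
    (x y : Fin v) (j : Fin b) :
    bf G (un y) (qf N x j) = bf G (un y) (qf N y j) + G y y - G y x := by
  rw [bf_un_left, bf_un_left]
  have h1 : ∀ u : Fin v, ∑ z, G y z * qf N u j z = ∑ z, G y z * (N z j : ℝ) - G y u := by
    intro u
    unfold qf
    have h2 : ∀ z, G y z * ((N z j : ℝ) - if z = u then 1 else 0) =
        G y z * (N z j : ℝ) - if z = u then G y z else 0 := by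
      intro z
      split_ifs <;> ring
    rw [sum_congr rfl fun z _ => h2 z, sum_sub_distrib, sum_ite_eq' univ u (fun z => G y z),
      if_pos (mem_univ u)]
  rw [h1, h1]
  ring

/-- the quadratic form at a flag -/
theorem s6_form {v b : ℕ} {G : Matrix (Fin v) (Fin v) ℝ} (hG : G.IsSymm)
    (N : Matrix (Fin v) (Fin b) ℕ) (x : Fin v) (j : Fin b) :
    bf G (qf N x j) (qf N x j) =
      ∑ y, (G y y + bf G (un y) (qf N y j)) * qf N x j y - bf G (un x) (qf N x j) := by
  have h1 : bf G (qf N x j) (qf N x j) = ∑ y, bf G (un y) (qf N x j) * qf N x j y := by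
    rw [bf_sum]
    refine sum_congr rfl fun y _ => ?_
    rw [bf_un_left, sum_mul]
    refine sum_congr rfl fun z _ => ?_
    ring
  have h2 : bf G (un x) (qf N x j) = ∑ y, G y x * qf N x j y := by
    rw [bf_un_left]
    refine sum_congr rfl fun y _ => ?_
    rw [hG.apply x y]
  rw [h1, h2, ← sum_sub_distrib]
  refine sum_congr rfl fun y _ => ?_
  rw [s6_shift]
  ring

theorem s6_upper {v : ℕ} {q G : Fin v → ℝ} {c : ℝ} (hq : ∀ y, 0 ≤ q y)
    (hG : ∀ y, q y ≠ 0 → G y ≤ c) : ∑ y, G y * q y ≤ c * ∑ y, q y := by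
  rw [mul_sum]
  refine sum_le_sum fun y _ => ?_
  by_cases h : q y = 0
  · rw [h, mul_zero, mul_zero]
  · exact mul_le_mul_of_nonneg_right (hG y h) (hq y)

theorem Q_bounds {v b k r : ℕ} {N : Matrix (Fin v) (Fin b) ℕ} {H : Matrix (Fin v) (Fin v) ℝ} (hP : ParR (v : ℝ) k r ((k : ℝ) - 1) ((r : ℝ) * ((k : ℝ) - 1)))
    (h : SD k r N H) (S : St2 N H ((k : ℝ) - 1) ((r : ℝ) * ((k : ℝ) - 1))) (K M : ℝ)
    (hK : K = (k : ℝ) - 1) (hM : M = (r : ℝ) * ((k : ℝ) - 1)) (x : Fin v) (j : Fin b)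
    (hx : 0 < N x j) :
    Qf H N x j ≤ 1 / M * (K + K ^ 2 * (700 * K / M + 14 / v)) ∧
      Qf (H * H) N x j ≤ 1 / M ^ 2 * (K + 300 * K ^ 3 / M) - cf H N x j := by
  have hbin := fun y => binary hP h S y j
  have hab := fun y hy => a_bounds hP h S K M hK hM y j hy
  rw [← hM, ← hK] at hP S
  have hM0 := hP.M0
  have hv0 := hP.v0
  have hK1 := hP.K1
  have hK0 : 0 ≤ K := by linarith
  have hsum : ∑ y, qf N x j y = K := by rw [s6_sum h.des, hK]
  have hq := fun y => s6_q hbin hx y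
  have hsym2 : (H * H).IsSymm := by
    unfold Matrix.IsSymm
    rw [Matrix.transpose_mul, h.sym.eq]
  constructor
  · have h1 : Qf H N x j = ∑ y, (H y y + af H N y j) * qf N x j y - af H N x j :=
      s6_form h.sym N x j
    have h2 := s6_upper (c := 1 / M + 100 * K / M ^ 2 + K / M * (500 * K / M + 10 / v))
      (q := qf N x j) (G := fun y => H y y + af H N y j) (fun y => (hq y).1)
      (fun y hy => add_le_add (S.e y) (hab y ((hq y).2 hy)).2.1)
    rw [hsum] at h2
    have h3 := (hab x hx).1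
    have h4 : (1 / M + 100 * K / M ^ 2 + K / M * (500 * K / M + 10 / v)) * K +
        K / M * (100 * K / M + 4 / v) =
        1 / M * (K + 200 * K ^ 2 / M + 500 * K ^ 3 / M + 10 * K ^ 2 / v + 4 * K / v) := by
      field_simp
      ring
    have h5 : 1 / M * (K + 200 * K ^ 2 / M + 500 * K ^ 3 / M + 10 * K ^ 2 / v + 4 * K / v) ≤
        1 / M * (K + K ^ 2 * (700 * K / M + 14 / v)) := by
      apply mul_le_mul_of_nonneg_left _ (by positivity)
      have e1 : K ^ 2 ≤ K ^ 3 := by nlinarith [mul_nonneg hK0 hK0]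
      have e2 : K ≤ K ^ 2 := by nlinarith
      have e3 : 200 * K ^ 2 / M ≤ 200 * K ^ 3 / M := by
        apply div_le_div_of_nonneg_right _ hM0.le
        linarith
      have e4 : 4 * K / v ≤ 4 * K ^ 2 / v := by
        apply div_le_div_of_nonneg_right _ hv0.le
        linarith
      have e5 : K ^ 2 * (700 * K / M + 14 / v) =
          200 * K ^ 3 / M + 500 * K ^ 3 / M + (10 * K ^ 2 / v + 4 * K ^ 2 / v) := by ring
      rw [e5]
      linarith
    rw [h1]
    linarith
  · have h1 : Qf (H * H) N x j =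
        ∑ y, ((H * H) y y + cf H N y j) * qf N x j y - cf H N x j := s6_form hsym2 N x j
    have h2 := s6_upper (c := 1 / M ^ 2 + 200 * K / M ^ 3 + 100 * K ^ 2 / M ^ 3)
      (q := qf N x j) (G := fun y => (H * H) y y + cf H N y j) (fun y => (hq y).1)
      (fun y hy => add_le_add (S.z y) (S.c y j ((hq y).2 hy)))
    rw [hsum] at h2
    have h4 : (1 / M ^ 2 + 200 * K / M ^ 3 + 100 * K ^ 2 / M ^ 3) * K =
        1 / M ^ 2 * (K + 200 * K ^ 2 / M + 100 * K ^ 3 / M) := by
      field_simp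
    have h5 : 1 / M ^ 2 * (K + 200 * K ^ 2 / M + 100 * K ^ 3 / M) ≤
        1 / M ^ 2 * (K + 300 * K ^ 3 / M) := by
      apply mul_le_mul_of_nonneg_left _ (by positivity)
      have e1 : K ^ 2 ≤ K ^ 3 := by nlinarith [mul_nonneg hK0 hK0]
      have e3 : 200 * K ^ 2 / M ≤ 200 * K ^ 3 / M := by
        apply div_le_div_of_nonneg_right _ hM0.le
        linarith
      have e5 : 300 * K ^ 3 / M = 200 * K ^ 3 / M + 100 * K ^ 3 / M := by ring
      rw [e5]
      linarith
    rw [h1]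
    linarith

end HCR
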